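import Pool.Agent.Q222.LU.Gau
import Pool.Agent.Q31.LU.JAC

/-!
# Project LU: auxiliary facts on functions with small support
-/

set_option autoImplicit false

namespace Pool.Agent.Q222.LU

open Pool.Agent.Q77.LU MeasureTheory Set Filter Topology
open scoped ContDiff

variable {Q : Type} [Fintype Q]

theorem n2_nonneg (a : Q → ℝ) : 0 ≤ n2 a := Finset.sum_nonneg fun _ _ => sq_nonneg _

theorem nr_nonneg (a : Q → ℝ) : 0 ≤ nr a := Real.sqrt_nonneg _

theorem nr_sq (a : Q → ℝ) : nr a ^ 2 = n2 a := Real.sq_sqrt (n2_nonneg a)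

theorem nr_le {a : Q → ℝ} {d : ℝ} (hd : 0 ≤ d) (h : n2 a ≤ d ^ 2) : nr a ≤ d := by
  unfold nr
  rw [← Real.sqrt_sq hd]
  exact Real.sqrt_le_sqrt h

theorem sq_le_n2 (a : Q → ℝ) (i : Q) : a i ^ 2 ≤ n2 a :=
  Finset.single_le_sum (f := fun i => a i ^ 2) (fun _ _ => sq_nonneg _) (Finset.mem_univ i)

theorem abs_le_nr (a : Q → ℝ) (i : Q) : |a i| ≤ nr a := by
  unfold nr
  rw [← Real.sqrt_sq_eq_abs]
  exact Real.sqrt_le_sqrt (sq_le_n2 a i)

theorem contDiff_n2 {n : WithTop ℕ∞} : ContDiff ℝ n (n2 : (Q → ℝ) → ℝ) := by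
  unfold n2
  fun_prop

theorem continuous_n2 : Continuous (n2 : (Q → ℝ) → ℝ) := (contDiff_n2 (n := 1)).continuous

theorem continuous_nr : Continuous (nr : (Q → ℝ) → ℝ) := Real.continuous_sqrt.comp continuous_n2

theorem continuous_ex (om : Q → ℝ) : Continuous (ex om) := (contDiff_ex om (n := 1)).continuous

theorem cs_of_ball {f : (Q → ℝ) → ℝ} {d : ℝ} (h : ∀ a, f a ≠ 0 → n2 a < d ^ 2) :
    HasCompactSupport f := by
  refine HasCompactSupport.intro (isCompact_closedBall (0 : Q → ℝ) |d|) fun a ha => ?_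
  by_contra hf
  refine ha ?_
  rw [mem_closedBall_zero_iff, pi_norm_le_iff_of_nonneg (abs_nonneg d)]
  intro i
  have h1 := (sq_le_n2 a i).trans (h a hf).le
  rw [Real.norm_eq_abs]
  exact sq_le_sq.1 h1

theorem fderiv_out {f : (Q → ℝ) → ℝ} {d : ℝ} (h : ∀ a, f a ≠ 0 → n2 a < d ^ 2) {a : Q → ℝ}
    (ha : d ^ 2 < n2 a) : fderiv ℝ f a = 0 := by
  have h1 : ∀ᶠ x in 𝓝 a, f x = (fun _ => (0 : ℝ)) x := by
    have h2 : ∀ᶠ x in 𝓝 a, d ^ 2 < n2 x := (continuous_n2.tendsto a).eventually_const_lt ha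
    filter_upwards [h2] with x hx
    by_contra hf
    exact absurd (h x hf) (not_lt.2 hx.le)
  rw [Filter.EventuallyEq.fderiv_eq h1]
  simp

theorem g2_nonneg [DecidableEq Q] (f : (Q → ℝ) → ℝ) (a : Q → ℝ) : 0 ≤ g2 f a :=
  Finset.sum_nonneg fun _ _ => sq_nonneg _

theorem g2_out [DecidableEq Q] {f : (Q → ℝ) → ℝ} {d : ℝ} (h : ∀ a, f a ≠ 0 → n2 a < d ^ 2)
    {a : Q → ℝ} (ha : d ^ 2 < n2 a) : g2 f a = 0 := by
  unfold g2 pd
  rw [fderiv_out h ha]
  simp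

theorem f_out {f : (Q → ℝ) → ℝ} {d : ℝ} (h : ∀ a, f a ≠ 0 → n2 a < d ^ 2)
    {a : Q → ℝ} (ha : d ^ 2 < n2 a) : f a = 0 := by
  by_contra hf
  exact absurd (h a hf) (not_lt.2 ha.le)

theorem int_f2 {f w : (Q → ℝ) → ℝ} (hf : Continuous f) (hc : HasCompactSupport f)
    (hw : Continuous w) : Integrable fun a => w a * f a ^ 2 :=
  Pool.Agent.Q31.LU.intg hc (hw.mul (hf.pow 2)) fun x hx => by
    rw [image_eq_zero_of_notMem_tsupport hx]; simp

theorem int_g2 [DecidableEq Q] {f w : (Q → ℝ) → ℝ} (hf : ContDiff ℝ 1 f)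
    (hc : HasCompactSupport f) (hw : Continuous w) : Integrable fun a => w a * g2 f a := by
  refine Pool.Agent.Q31.LU.intg hc (hw.mul ?_) fun x hx => ?_
  · unfold g2
    exact continuous_finsetSum _ fun i _ => (Pool.Agent.Q31.LU.pd_cont hf i).pow 2
  · have : g2 f x = 0 := by
      unfold g2
      refine Finset.sum_eq_zero fun i _ => ?_
      rw [Pool.Agent.Q31.LU.pd_zero hx]
      simp
    rw [this, mul_zero]

theorem exists_min (om : Q → ℝ) (hom : ∀ i, 0 < om i) :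
    ∃ o : ℝ, 0 < o ∧ o ≤ 1 ∧ ∀ i, o ≤ om i := by
  have h1 : 0 ≤ ∑ i, (om i)⁻¹ := Finset.sum_nonneg fun i _ => (inv_pos.2 (hom i)).le
  refine ⟨(1 + ∑ i, (om i)⁻¹)⁻¹, by positivity, inv_le_one_of_one_le₀ (by linarith), fun i => ?_⟩
  rw [inv_le_comm₀ (by positivity) (hom i)]
  have := Finset.single_le_sum (f := fun i => (om i)⁻¹) (fun i _ => (inv_pos.2 (hom i)).le)
    (Finset.mem_univ i)
  linarith

theorem pd_n2 [DecidableEq Q] (i : Q) (y : Q → ℝ) : pd n2 i y = 2 * y i := by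
  have h : HasFDerivAt (n2 : (Q → ℝ) → ℝ)
      (∑ j, (2 * y j) • (ContinuousLinearMap.proj j : (Q → ℝ) →L[ℝ] ℝ)) y := by
    unfold n2
    refine HasFDerivAt.fun_sum fun j _ => ?_
    have h1 : HasFDerivAt (fun x : Q → ℝ => x j)
      (ContinuousLinearMap.proj j : (Q → ℝ) →L[ℝ] ℝ) y := hasFDerivAt_apply j y
    have h2 := h1.pow 2
    simpa using h2
  unfold pd
  rw [h.fderiv]
  simp [Pi.single_apply]

theorem pd_ex [DecidableEq Q] (om : Q → ℝ) (i : Q) (y : Q → ℝ) :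
    pd (ex om) i y = 2 * om i * y i := by
  have h : HasFDerivAt (ex om)
      (∑ j, (om j * (2 * y j)) • (ContinuousLinearMap.proj j : (Q → ℝ) →L[ℝ] ℝ)) y := by
    unfold ex
    refine HasFDerivAt.fun_sum fun j _ => ?_
    have h1 : HasFDerivAt (fun x : Q → ℝ => x j)
      (ContinuousLinearMap.proj j : (Q → ℝ) →L[ℝ] ℝ) y := hasFDerivAt_apply j y
    have h2 := (h1.pow 2).const_mul (om j)
    simpa [smul_smul] using h2
  unfold pd
  rw [h.fderiv]
  simp [Pi.single_apply]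
  ring

end Pool.Agent.Q222.LU
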