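import Pool.Agent.Q222.LU.GB

/-!
# Project LU, job CIG: the lowest level is the same on centre invariant functions
-/

set_option autoImplicit false

namespace Pool.Agent.Q222.LU

open Pool.Agent.Q77.LU MeasureTheory Matrix Set Filter Topology
open scoped ContDiff Matrix.Norms.Frobenius

noncomputable section

section

variable {N n D l : ℕ} {G : Subgroup (UU N)} [NeZero l]

/-- the regularised length of a vector of functions -/
def rl {W : Type} [Fintype W] (Ψ : W → (Link D l → G) → ℝ) (e : ℝ) (U : Link D l → G) : ℝ :=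
  Real.sqrt ((∑ z, Ψ z U ^ 2) + e ^ 2) - e

theorem smooth_rl {W : Type} [Fintype W] {Ψ : W → (Link D l → G) → ℝ}
    (hΨ : ∀ z, IsSmooth (Ψ z)) {e : ℝ} (he : 0 < e) : IsSmooth (rl Ψ e) := by
  choose f hf h using hΨ
  refine ⟨fun M => Real.sqrt ((∑ z, f z M ^ 2) + e ^ 2) - e, ?_, fun U => ?_⟩
  · refine ContDiff.sub ?_ contDiff_const
    refine ContDiff.sqrt ?_ fun M => ?_
    · exact (ContDiff.sum fun z _ => (hf z).pow 2).add contDiff_const
    · have : 0 ≤ ∑ z, f z M ^ 2 := Finset.sum_nonneg fun _ _ => sq_nonneg _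
      positivity
  · unfold rl
    simp only [h]

theorem dlink_rl (B : LieBasis G n) {W : Type} [Fintype W] {Ψ : W → (Link D l → G) → ℝ}
    (hΨ : ∀ z, IsSmooth (Ψ z)) {e : ℝ} (he : 0 < e) (b : Link D l) (a : Fin n)
    (U : Link D l → G) :
    dlink B b a (rl Ψ e) U ^ 2 ≤ ∑ z, dlink B b a (Ψ z) U ^ 2 := by
  set S : ℝ := ∑ z, Ψ z U ^ 2 with hS
  have hS0 : 0 ≤ S := Finset.sum_nonneg fun _ _ => sq_nonneg _
  have hpos : 0 < S + e ^ 2 := by positivity
  have h1 : HasDerivAt (fun t => (∑ z, Ψ z (Function.update U b (B.ex a t * U b)) ^ 2) + e ^ 2)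
      (∑ z, 2 * Ψ z U * dlink B b a (Ψ z) U) 0 := by
    refine HasDerivAt.add_const _ ?_
    refine HasDerivAt.fun_sum fun z _ => ?_
    have h2 := (hasDerivAt_dlink B (hΨ z) b a U).fun_pow 2
    rw [update_zero] at h2
    simpa using h2
  have h3 : (∑ z, Ψ z (Function.update U b (B.ex a 0 * U b)) ^ 2) + e ^ 2 ≠ 0 := by
    rw [update_zero]
    exact hpos.ne'
  have h4 := (h1.sqrt h3).sub_const e
  have h5 : dlink B b a (rl Ψ e) U = (∑ z, 2 * Ψ z U * dlink B b a (Ψ z) U) /
      (2 * Real.sqrt (S + e ^ 2)) := by
    have h6 := h4.deriv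
    rw [update_zero] at h6
    exact h6
  have h7 : ∑ z, 2 * Ψ z U * dlink B b a (Ψ z) U = 2 * ∑ z, Ψ z U * dlink B b a (Ψ z) U := by
    rw [Finset.mul_sum]
    exact Finset.sum_congr rfl fun z _ => by ring
  rw [h5, h7, div_pow, mul_pow, mul_pow, Real.sq_sqrt hpos.le, div_le_iff₀ (by positivity)]
  have h8 := Finset.sum_mul_sq_le_sq_mul_sq Finset.univ (fun z => Ψ z U)
    fun z => dlink B b a (Ψ z) U
  have h9 : 0 ≤ ∑ z, dlink B b a (Ψ z) U ^ 2 := Finset.sum_nonneg fun _ _ => sq_nonneg _
  have h10 : 0 ≤ (∑ z, dlink B b a (Ψ z) U ^ 2) * e ^ 2 := by positivity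
  nlinarith

omit [NeZero l] in
theorem rl_sq_le {W : Type} [Fintype W] (Ψ : W → (Link D l → G) → ℝ) {e : ℝ} (he : 0 < e)
    (U : Link D l → G) : rl Ψ e U ^ 2 ≤ ∑ z, Ψ z U ^ 2 := by
  set S : ℝ := ∑ z, Ψ z U ^ 2 with hS
  have hS0 : 0 ≤ S := Finset.sum_nonneg fun _ _ => sq_nonneg _
  have h1 : Real.sqrt (S + e ^ 2) ^ 2 = S + e ^ 2 := Real.sq_sqrt (by positivity)
  have h2 : e ≤ Real.sqrt (S + e ^ 2) := by
    rw [← Real.sqrt_sq he.le]
    exact Real.sqrt_le_sqrt (by rw [Real.sqrt_sq he.le]; linarith)
  have h3 : rl Ψ e U = Real.sqrt (S + e ^ 2) - e := rfl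
  rw [h3]
  nlinarith

omit [NeZero l] in
theorem rl_sq_ge {W : Type} [Fintype W] (Ψ : W → (Link D l → G) → ℝ) {e : ℝ} (he : 0 < e)
    (U : Link D l → G) : (∑ z, Ψ z U ^ 2) - e * (1 + ∑ z, Ψ z U ^ 2) ≤ rl Ψ e U ^ 2 := by
  set S : ℝ := ∑ z, Ψ z U ^ 2 with hS
  have hS0 : 0 ≤ S := Finset.sum_nonneg fun _ _ => sq_nonneg _
  have h1 : Real.sqrt (S + e ^ 2) ^ 2 = S + e ^ 2 := Real.sq_sqrt (by positivity)
  have h4 : Real.sqrt S ^ 2 = S := Real.sq_sqrt hS0
  have h5 : 0 ≤ Real.sqrt S := Real.sqrt_nonneg _
  have h2 : Real.sqrt (S + e ^ 2) ≤ Real.sqrt S + e := by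
    rw [← Real.sqrt_sq (show 0 ≤ Real.sqrt S + e by positivity)]
    refine Real.sqrt_le_sqrt ?_
    nlinarith [mul_nonneg h5 he.le]
  have h3 : rl Ψ e U = Real.sqrt (S + e ^ 2) - e := rfl
  have h6 : 2 * Real.sqrt S ≤ 1 + S := by nlinarith [sq_nonneg (Real.sqrt S - 1)]
  rw [h3]
  have h7 : e * (2 * Real.sqrt S) ≤ e * (1 + S) := mul_le_mul_of_nonneg_left h6 he.le
  have h8 : e * Real.sqrt (S + e ^ 2) ≤ e * (Real.sqrt S + e) :=
    mul_le_mul_of_nonneg_left h2 he.le
  nlinarith

end

theorem t_CIG (_h : S_HC) : S_CIG := by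
  intro N n D l _ G hG B _ _ μ _ _ hfin g hg
  apply le_antisymm
  · -- the level of centre invariant functions is not larger
    refine le_csInf ?_ ?_
    · obtain ⟨E, Ψ, h1, h2, h3⟩ := one_mem μ hG B g (D := D) (l := l)
      exact ⟨E, Ψ, fun i => ⟨(h1 i).1, (h1 i).2.1⟩, h2, h3⟩
    · intro E hE
      obtain ⟨F, ⟨hF, hFg⟩, hF1, hFE⟩ := exists_of_mem μ B g E
        (P := fun F => IsSmooth F ∧ GaugeInv F) hE
      classical
      let _ : Fintype (Subgroup.center G) := Fintype.ofFinite _
      set zz : (Fin D → Subgroup.center G) → Fin D → G := fun z i => (z i : G) with hzz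
      have hz : ∀ (z : Fin D → Subgroup.center G) (i : Fin D), zz z i ∈ Subgroup.center G :=
        fun z i => (z i).2
      set Ψ : (Fin D → Subgroup.center G) → (Link D l → G) → ℝ :=
        fun z U => F (centre (zz z) U) with hΨ
      set m : ℝ := (Fintype.card (Fin D → Subgroup.center G) : ℝ) with hm
      have hmpos : 0 < m := by
        rw [hm]
        exact_mod_cast Fintype.card_pos
      have hΨs : ∀ z, IsSmooth (Ψ z) := fun z => smooth_centre hF (zz z)
      have hΨg : ∀ z, GaugeInv (Ψ z) := fun z => gauge_centreInv hFg (hz z)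
      have hΨi : ∀ z, ∫ U, Ψ z U ^ 2 ∂(Measure.pi fun _ : Link D l => μ) = 1 := by
        intro z
        have := int_centre μ hG (zz z) (F := fun U => F U ^ 2) (hF.continuous.pow 2)
        rw [hF1] at this
        exact this
      have hΨe : ∀ z, energy B μ g (Ψ z) = energy B μ g F := fun z =>
        energy_centre μ hG B g hF (hz z)
      have hint : ∀ z, Integrable (fun U => Ψ z U ^ 2) (Measure.pi fun _ : Link D l => μ) :=
        fun z => integrable_links μ hG ((hΨs z).continuous.pow 2)
      have hSi : Integrable (fun U => ∑ z, Ψ z U ^ 2) (Measure.pi fun _ : Link D l => μ) :=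
        integrable_finsetSum _ fun z _ => hint z
      have hSint : ∫ U, ∑ z, Ψ z U ^ 2 ∂(Measure.pi fun _ : Link D l => μ) = m := by
        rw [integral_finsetSum _ fun z _ => hint z]
        simp only [hΨi]
        rw [Finset.sum_const, Finset.card_univ, nsmul_eq_mul, mul_one]
      have hlev0 : 0 ≤ level D l B μ g 0 := by
        refine Real.sInf_nonneg fun E' hE' => ?_
        obtain ⟨F', ⟨hF', -, -⟩, -, hF'E⟩ := exists_of_mem μ B g E'
          (P := fun F => IsSmooth F ∧ GaugeInv F ∧ CentreInv F) hE'
        exact (energy_nonneg μ hG B g hF').trans hF'E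
      have key : ∀ e : ℝ, 0 < e → level D l B μ g 0 * (m - e * (1 + m)) ≤ m * E := by
        intro e he
        have hus : IsSmooth (rl Ψ e) := smooth_rl hΨs he
        have hug : GaugeInv (rl Ψ e) := by
          intro γ U
          unfold rl
          simp only [hΨg _ γ U]
        have huc : CentreInv (rl Ψ e) := by
          intro w hw U
          unfold rl
          have h1 : ∑ z, Ψ z (centre w U) ^ 2 = ∑ z, Ψ z U ^ 2 := by
            set w' : Fin D → Subgroup.center G := fun i => ⟨w i, hw i⟩ with hw'
            have h2 : ∀ z : Fin D → Subgroup.center G,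
                Ψ z (centre w U) = Ψ (z * w') U := by
              intro z
              simp only [hΨ]
              rw [Pool.Agent.Q65.LU.centre_centre]
              rfl
            simp only [h2]
            exact Equiv.sum_comp (Equiv.mulRight w') fun z => Ψ z U ^ 2
          rw [h1]
        have h1 := level_le μ hG B g hus hug huc
        have h2 : energy B μ g (rl Ψ e) ≤ m * E := by
          calc energy B μ g (rl Ψ e) ≤ ∑ z, energy B μ g (Ψ z) := by
                have hmc : Continuous fun U : Link D l → G => magnetic U :=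
                  (smooth_magnetic B).continuous
                simp only [energy_eq μ hG B g hus, fun z => energy_eq μ hG B g (hΨs z)]
                rw [← integral_finsetSum]
                · refine integral_mono ?_ ?_ fun U => ?_
                  · exact integrable_links μ hG ((continuous_const.mul (gr_cont B hus)).add
                      (continuous_const.mul (hmc.mul (hus.continuous.pow 2))))
                  · refine integrable_finsetSum _ fun z _ => ?_
                    exact integrable_links μ hG ((continuous_const.mul (gr_cont B (hΨs z))).add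
                      (continuous_const.mul (hmc.mul ((hΨs z).continuous.pow 2))))
                  · simp only
                    rw [Finset.sum_add_distrib, ← Finset.mul_sum, ← Finset.mul_sum,
                      ← Finset.mul_sum]
                    have h3 : gr B (rl Ψ e) U ≤ ∑ z, gr B (Ψ z) U := by
                      unfold gr
                      calc ∑ b, ∑ a, dlink B b a (rl Ψ e) U ^ 2
                          ≤ ∑ b, ∑ a, ∑ z, dlink B b a (Ψ z) U ^ 2 :=
                            Finset.sum_le_sum fun b _ => Finset.sum_le_sum fun a _ =>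
                              dlink_rl B hΨs he b a U
                        _ = ∑ b, ∑ z, ∑ a, dlink B b a (Ψ z) U ^ 2 :=
                            Finset.sum_congr rfl fun b _ => Finset.sum_comm
                        _ = ∑ z, ∑ b, ∑ a, dlink B b a (Ψ z) U ^ 2 := Finset.sum_comm
                    have h4 := rl_sq_le Ψ he U
                    have h5 := magnetic_nonneg U
                    have h6 : g ^ 2 / 2 * gr B (rl Ψ e) U ≤ g ^ 2 / 2 * ∑ z, gr B (Ψ z) U :=
                      mul_le_mul_of_nonneg_left h3 (by positivity)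
                    have h7 : 1 / g ^ 2 * (magnetic U * rl Ψ e U ^ 2) ≤
                        1 / g ^ 2 * (magnetic U * ∑ z, Ψ z U ^ 2) :=
                      mul_le_mul_of_nonneg_left (mul_le_mul_of_nonneg_left h4 h5) (by positivity)
                    linarith
                · intro z _
                  exact integrable_links μ hG ((continuous_const.mul (gr_cont B (hΨs z))).add
                      (continuous_const.mul (hmc.mul ((hΨs z).continuous.pow 2))))
            _ = m * energy B μ g F := by
                simp only [hΨe]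
                rw [Finset.sum_const, Finset.card_univ, nsmul_eq_mul]
            _ ≤ m * E := mul_le_mul_of_nonneg_left hFE hmpos.le
        have h3 : m - e * (1 + m) ≤ ∫ U, rl Ψ e U ^ 2 ∂(Measure.pi fun _ : Link D l => μ) := by
          have hadd : Integrable (fun U => 1 + ∑ z, Ψ z U ^ 2)
              (Measure.pi fun _ : Link D l => μ) := (integrable_const _).add hSi
          have h4 : ∫ U, ((∑ z, Ψ z U ^ 2) - e * (1 + ∑ z, Ψ z U ^ 2))
              ∂(Measure.pi fun _ : Link D l => μ) = m - e * (1 + m) := by
            rw [integral_sub hSi (hadd.const_mul _),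
              integral_const_mul, integral_add (integrable_const _) hSi, hSint]
            simp
          rw [← h4]
          refine integral_mono (hSi.sub (hadd.const_mul _))
            (integrable_links μ hG (hus.continuous.pow 2)) fun U => ?_
          exact rl_sq_ge Ψ he U
        have h5 := mul_le_mul_of_nonneg_left h3 hlev0
        linarith
      -- the limit
      set L0 := level D l B μ g 0 with hL0
      have h6 : m * L0 ≤ m * E := by
        refine le_of_forall_pos_le_add fun ε hε => ?_
        have h7 := key (ε / (L0 * (1 + m) + 1)) (by positivity)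
        have h8 : ε / (L0 * (1 + m) + 1) * (L0 * (1 + m)) ≤ ε := by
          rw [div_mul_eq_mul_div, div_le_iff₀ (by positivity)]
          nlinarith
        nlinarith
      exact le_of_mul_le_mul_left h6 hmpos
  · refine csInf_le_csInf ?_ ?_ ?_
    · refine ⟨0, fun E' hE' => ?_⟩
      obtain ⟨F', ⟨hF', -⟩, -, hF'E⟩ := exists_of_mem μ B g E'
        (P := fun F => IsSmooth F ∧ GaugeInv F) hE'
      exact (energy_nonneg μ hG B g hF').trans hF'E
    · exact one_mem μ hG B g
    · rintro E ⟨Ψ, h1, h2, h3⟩
      exact ⟨Ψ, fun i => ⟨(h1 i).1, (h1 i).2.1⟩, h2, h3⟩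

end

end Pool.Agent.Q222.LU
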