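import Pool.Agent.Q222.LU.OSC

/-!
# Project LU, job FIB: the fibre inequality
-/

set_option autoImplicit false

namespace Pool.Agent.Q222.LU

open Pool.Agent.Q77.LU MeasureTheory Set Filter Topology
open scoped ContDiff

section
variable {Q : Type} [Fintype Q]

theorem bil_neg (S : Matrix Q Q ℝ) (a : Q → ℝ) : bil (-S) a = -bil S a := by
  rw [bil_eq, bil_eq, ← Finset.sum_neg_distrib]
  refine Finset.sum_congr rfl fun i _ => ?_
  rw [← Finset.sum_neg_distrib]
  refine Finset.sum_congr rfl fun j _ => ?_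
  simp

theorem bil_abs (S : Matrix Q Q ℝ) (B : ℝ) (hS : ∀ i j, |S i j| ≤ B) (a : Q → ℝ) :
    |bil S a| ≤ B * (Fintype.card Q) ^ 2 * n2 a := by
  rw [abs_le]
  constructor
  · have := bil_le (-S) B (fun i j => by simpa using hS i j) a
    rw [bil_neg] at this
    linarith
  · exact bil_le S B hS a

theorem n2_mulVec_le (S : Matrix Q Q ℝ) (B : ℝ) (hS : ∀ i j, |S i j| ≤ B)
    (a : Q → ℝ) : n2 (S.mulVec a) ≤ (Fintype.card Q) ^ 3 * B ^ 2 * n2 a := by
  set q : ℝ := (Fintype.card Q : ℝ) with hq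
  have h1 : ∀ i, (S.mulVec a) i ^ 2 ≤ (q * B * nr a) ^ 2 := by
    intro i
    have h2 : |(S.mulVec a) i| ≤ q * B * nr a := by
      unfold Matrix.mulVec dotProduct
      refine (Finset.abs_sum_le_sum_abs _ _).trans ?_
      calc ∑ j, |S i j * a j| ≤ ∑ _j : Q, B * nr a := by
            refine Finset.sum_le_sum fun j _ => ?_
            rw [abs_mul]
            exact mul_le_mul (hS i j) (abs_le_nr a j) (abs_nonneg _)
              ((abs_nonneg _).trans (hS i j))
        _ = q * B * nr a := by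
            rw [Finset.sum_const, Finset.card_univ, nsmul_eq_mul]; ring
    rw [← sq_abs]
    exact pow_le_pow_left₀ (abs_nonneg _) h2 2
  calc n2 (S.mulVec a) ≤ ∑ _i : Q, (q * B * nr a) ^ 2 := Finset.sum_le_sum fun i _ => h1 i
    _ = q * (q * B * nr a) ^ 2 := by rw [Finset.sum_const, Finset.card_univ, nsmul_eq_mul]
    _ = q ^ 3 * B ^ 2 * nr a ^ 2 := by ring
    _ = _ := by rw [nr_sq]

/-- solution of the Sylvester equation -/
noncomputable def syl (om : Q → ℝ) (A : Matrix Q Q ℝ) : Matrix Q Q ℝ :=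
  Matrix.of fun i j => A i j / (om i + om j)

theorem syl_bil (om : Q → ℝ) (hom : ∀ i, 0 < om i) (A : Matrix Q Q ℝ) (hA : A.IsSymm)
    (a : Q → ℝ) : 2 * ∑ i, om i * (a i * ((syl om A).mulVec a) i) = bil A a := by
  have h1 : ∑ i, om i * (a i * ((syl om A).mulVec a) i) =
      ∑ i, ∑ j, om i * (A i j / (om i + om j)) * (a i * a j) := by
    refine Finset.sum_congr rfl fun i _ => ?_
    rw [Matrix.mulVec, dotProduct, Finset.mul_sum, Finset.mul_sum]
    refine Finset.sum_congr rfl fun j _ => ?_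
    simp only [syl, Matrix.of_apply]
    ring
  have h2 : ∑ i, ∑ j, om i * (A i j / (om i + om j)) * (a i * a j) =
      ∑ i, ∑ j, om j * (A i j / (om i + om j)) * (a i * a j) := by
    rw [Finset.sum_comm]
    refine Finset.sum_congr rfl fun i _ => Finset.sum_congr rfl fun j _ => ?_
    rw [hA.apply i j, add_comm (om j) (om i)]
    ring
  rw [bil_eq, two_mul, h1]
  nth_rewrite 2 [h2]
  rw [← Finset.sum_add_distrib]
  refine Finset.sum_congr rfl fun i _ => ?_
  rw [← Finset.sum_add_distrib]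
  refine Finset.sum_congr rfl fun j _ => ?_
  have : om i + om j ≠ 0 := (add_pos (hom i) (hom j)).ne'
  field_simp

variable [DecidableEq Q]

/-- the matrix of the first step -/
noncomputable def SS (om : Q → ℝ) (A : Matrix Q Q ℝ) (κ : ℝ) : Matrix Q Q ℝ :=
  Matrix.diagonal (fun i => om i - κ) + syl om A

theorem SS_mulVec (om : Q → ℝ) (A : Matrix Q Q ℝ) (κ : ℝ) (a : Q → ℝ) (i : Q) :
    ((SS om A κ).mulVec a) i = (om i - κ) * a i + ((syl om A).mulVec a) i := by
  unfold SS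
  rw [Matrix.add_mulVec, Pi.add_apply, Matrix.mulVec_diagonal]

omit [Fintype Q] in
theorem SS_symm (om : Q → ℝ) (A : Matrix Q Q ℝ) (hA : A.IsSymm) (κ : ℝ) :
    (SS om A κ).IsSymm := by
  refine Matrix.IsSymm.ext fun i j => ?_
  unfold SS syl
  simp only [Matrix.add_apply, Matrix.of_apply]
  rw [hA.apply i j, add_comm (om j) (om i)]
  by_cases h : i = j
  · subst h; rfl
  · rw [Matrix.diagonal_apply_ne _ h, Matrix.diagonal_apply_ne _ (Ne.symm h)]

theorem SS_bil (om : Q → ℝ) (A : Matrix Q Q ℝ) (κ : ℝ) (a : Q → ℝ) :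
    bil (SS om A κ) a = ex om a - κ * n2 a + bil (syl om A) a := by
  unfold bil ex n2
  rw [Finset.mul_sum, ← Finset.sum_sub_distrib, ← Finset.sum_add_distrib]
  refine Finset.sum_congr rfl fun i _ => ?_
  rw [SS_mulVec]
  ring

theorem SS_n2 (om : Q → ℝ) (hom : ∀ i, 0 < om i) (A : Matrix Q Q ℝ) (hA : A.IsSymm) (κ : ℝ)
    (a : Q → ℝ) :
    n2 ((SS om A κ).mulVec a) = (∑ i, om i ^ 2 * a i ^ 2) - 2 * κ * ex om a + κ ^ 2 * n2 a +
      bil A a - 2 * κ * bil (syl om A) a + n2 ((syl om A).mulVec a) := by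
  rw [← syl_bil om hom A hA a]
  unfold n2 ex
  have h1 : bil (syl om A) a = ∑ i, a i * ((syl om A).mulVec a) i := rfl
  rw [h1]
  simp only [Finset.mul_sum]
  rw [← Finset.sum_sub_distrib, ← Finset.sum_add_distrib, ← Finset.sum_add_distrib,
    ← Finset.sum_sub_distrib, ← Finset.sum_add_distrib]
  refine Finset.sum_congr rfl fun i _ => ?_
  rw [SS_mulVec]
  ring

theorem SS_trace (om : Q → ℝ) (hom : ∀ i, 0 < om i) (A : Matrix Q Q ℝ)
    (hA : ∑ i, A i i / om i = 0) (κ : ℝ) :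
    (SS om A κ).trace = (∑ i, om i) - κ * Fintype.card Q := by
  unfold SS
  rw [Matrix.trace_add, Matrix.trace_diagonal]
  have h1 : (syl om A).trace = 0 := by
    unfold Matrix.trace Matrix.diag syl
    simp only [Matrix.of_apply]
    have : ∑ i, A i i / (om i + om i) = 1 / 2 * ∑ i, A i i / om i := by
      rw [Finset.mul_sum]
      refine Finset.sum_congr rfl fun i _ => ?_
      have := (hom i).ne'
      field_simp
      ring
    rw [this, hA, mul_zero]
  rw [h1, Finset.sum_sub_distrib, Finset.sum_const, Finset.card_univ, nsmul_eq_mul]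
  ring

end

/-- combination of the three bounds, pointwise -/
theorem fib_comb {So θ c g K2 K3 k1 μ θ' q K' r : ℝ} (hg : 0 < g)
    (hc : 0 ≤ c) (hc1 : c ≤ 1) (hK2 : 0 ≤ K2) (hK3 : 0 ≤ K3) (hq : 0 ≤ q) (hK' : 0 ≤ K')
    (hr : 0 ≤ r) (hr1 : r ≤ 1) (hμ0 : 0 ≤ μ) (hμ : μ ≤ 1 / 4) (hμθ : μ * (1 / 2 * So) ≤ θ)
    (hθ0 : 0 ≤ θ') (hθ' : θ' ≤ 1 / 4) (hθμ : θ' * K2 ≤ μ * k1) :
    1 / 2 * So - θ * c - (1 / 2 * K' * q + K3 + K2) * (c ^ 2 + g) ≤
      (1 - θ' - μ * c) * (1 / 2 * (So - K' * c ^ 2 * q) - K3 * (c ^ 2 + g) +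
        (4 * K2 + 4) / g ^ 2 * r ^ 3) +
      θ' * (1 / 2 * So - K2 * (c ^ 2 + r ^ 2) - K2 * c / g ^ 2 * r ^ 2 - K2 / g ^ 2 * r ^ 3) +
      μ * c * (k1 * r ^ 2 / g ^ 2) := by
  have hg2 : 0 < g ^ 2 := by positivity
  set X : ℝ := r ^ 3 / g ^ 2 with hX
  have hX0 : 0 ≤ X := by positivity
  set Y : ℝ := r ^ 2 / g ^ 2 with hY
  have hY0 : 0 ≤ Y := by positivity
  have hr2 : r ^ 2 ≤ g + X := by
    have h1 : r ^ 2 ≤ r := by nlinarith
    have h2 : r ≤ g + X := by
      by_cases h : r ≤ g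
      · linarith
      · push Not at h
        have : r ≤ X := by
          rw [hX, le_div_iff₀ hg2]
          have : g ^ 2 ≤ r ^ 2 := by nlinarith
          calc r * g ^ 2 ≤ r * r ^ 2 := mul_le_mul_of_nonneg_left this hr
            _ = r ^ 3 := by ring
        linarith
    linarith
  have e1 : (4 * K2 + 4) / g ^ 2 * r ^ 3 = (4 * K2 + 4) * X := by rw [hX]; ring
  have e2 : K2 * c / g ^ 2 * r ^ 2 = K2 * c * Y := by rw [hY]; ring
  have e3 : K2 / g ^ 2 * r ^ 3 = K2 * X := by rw [hX]; ring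
  have e4 : k1 * r ^ 2 / g ^ 2 = k1 * Y := by rw [hY]; ring
  rw [e1, e2, e3, e4]
  have hμc : μ * c ≤ 1 / 4 := by nlinarith
  have hμc0 : 0 ≤ μ * c := mul_nonneg hμ0 hc
  have ha1 : 1 / 2 ≤ 1 - θ' - μ * c := by linarith
  have ha2 : 1 - θ' - μ * c ≤ 1 := by linarith
  -- the terms
  have t1 : (1 - θ' - μ * c) * (1 / 2 * K' * q * c ^ 2 + K3 * (c ^ 2 + g)) ≤
      1 * (1 / 2 * K' * q * c ^ 2 + K3 * (c ^ 2 + g)) :=
    mul_le_mul_of_nonneg_right ha2 (by positivity)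
  have t2 : 1 / 2 * ((4 * K2 + 4) * X) ≤ (1 - θ' - μ * c) * ((4 * K2 + 4) * X) :=
    mul_le_mul_of_nonneg_right ha1 (by positivity)
  have t3 : θ' * K2 * (c * Y) ≤ μ * k1 * (c * Y) :=
    mul_le_mul_of_nonneg_right hθμ (by positivity)
  have t4 : θ' * K2 * r ^ 2 ≤ θ' * K2 * (g + X) :=
    mul_le_mul_of_nonneg_left hr2 (by positivity)
  have t5 : μ * (1 / 2 * So) * c ≤ θ * c := mul_le_mul_of_nonneg_right hμθ hc
  have t6 : θ' * (K2 * X) ≤ 1 / 4 * (K2 * X) := mul_le_mul_of_nonneg_right hθ' (by positivity)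
  have t7 : θ' * (K2 * g) ≤ 1 / 4 * (K2 * g) := mul_le_mul_of_nonneg_right hθ' (by positivity)
  have t8 : θ' * (K2 * c ^ 2) ≤ 1 / 4 * (K2 * c ^ 2) :=
    mul_le_mul_of_nonneg_right hθ' (by positivity)
  have p1 : 0 ≤ K2 * X := by positivity
  have p2 : 0 ≤ K2 * g := by positivity
  have p3 : 0 ≤ K2 * c ^ 2 := by positivity
  have p4 : 0 ≤ K' * q * g := by positivity
  have e5 : (1 - θ' - μ * c) * (1 / 2 * (So - K' * c ^ 2 * q) - K3 * (c ^ 2 + g) +
        (4 * K2 + 4) * X) + θ' * (1 / 2 * So - K2 * (c ^ 2 + r ^ 2) - K2 * c * Y - K2 * X) +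
      μ * c * (k1 * Y) =
      1 / 2 * So - μ * (1 / 2 * So) * c
      - (1 - θ' - μ * c) * (1 / 2 * K' * q * c ^ 2 + K3 * (c ^ 2 + g))
      + (1 - θ' - μ * c) * ((4 * K2 + 4) * X) - θ' * (K2 * c ^ 2) - θ' * K2 * r ^ 2
      - θ' * K2 * (c * Y) + μ * k1 * (c * Y) - θ' * (K2 * X) := by ring
  rw [e5]
  have e6 : θ' * K2 * (g + X) = θ' * (K2 * g) + θ' * (K2 * X) := by ring
  have e7 : (1 / 2 * K' * q + K3 + K2) * (c ^ 2 + g) = 1 / 2 * K' * q * c ^ 2 +
      K3 * (c ^ 2 + g) + 1 / 2 * (K' * q * g) + K2 * c ^ 2 + K2 * g := by ring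
  rw [e7]
  linarith

theorem int3 {Q : Type} [Fintype Q] {F1 F2 F3 : (Q → ℝ) → ℝ} (h1 : Integrable F1)
    (h2 : Integrable F2) (h3 : Integrable F3) (x y z : ℝ) :
    x * (∫ a, F1 a) + y * (∫ a, F2 a) + z * (∫ a, F3 a) =
      ∫ a, (x * F1 a + y * F2 a + z * F3 a) := by
  have i12 : Integrable fun a => x * F1 a + y * F2 a := (h1.const_mul x).add (h2.const_mul y)
  rw [integral_add i12 (h3.const_mul z), integral_add (h1.const_mul x) (h2.const_mul y),
    integral_const_mul, integral_const_mul, integral_const_mul]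

theorem int_E {Q : Type} [Fintype Q] [DecidableEq Q] {f u : (Q → ℝ) → ℝ} (hf : ContDiff ℝ 1 f)
    (hcs : HasCompactSupport f) (hu : Continuous u) (K t g : ℝ) :
    Integrable fun a => g ^ 2 / 2 * (1 - K * (t + n2 a)) * g2 f a + 1 / g ^ 2 * u a * f a ^ 2 := by
  have hn := continuous_n2 (Q := Q)
  exact (int_g2 hf hcs (by fun_prop)).add
    (int_f2 hf.continuous hcs (continuous_const.mul hu))

theorem mono_E {Q : Type} [Fintype Q] [DecidableEq Q] {f u u2 : (Q → ℝ) → ℝ} {δ K0 Kb t g : ℝ}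
    (hf : ContDiff ℝ 1 f) (hfs : ∀ a, f a ≠ 0 → n2 a < δ ^ 2) (hu : Continuous u)
    (hu2 : Continuous u2) (h : ∀ a, n2 a ≤ δ ^ 2 → u2 a ≤ u a) (hK : K0 ≤ Kb) (ht : 0 ≤ t) :
    ∫ a, (g ^ 2 / 2 * (1 - Kb * (t + n2 a)) * g2 f a + 1 / g ^ 2 * u2 a * f a ^ 2) ≤
      ∫ a, (g ^ 2 / 2 * (1 - K0 * (t + n2 a)) * g2 f a + 1 / g ^ 2 * u a * f a ^ 2) := by
  have hcs : HasCompactSupport f := cs_of_ball hfs
  refine integral_mono (int_E hf hcs hu2 Kb t g) (int_E hf hcs hu K0 t g) fun a => ?_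
  simp only
  by_cases ha : n2 a ≤ δ ^ 2
  · have h1 : K0 * (t + n2 a) ≤ Kb * (t + n2 a) :=
      mul_le_mul_of_nonneg_right hK (add_nonneg ht (n2_nonneg a))
    have h2 : g ^ 2 / 2 * (1 - Kb * (t + n2 a)) * g2 f a ≤
        g ^ 2 / 2 * (1 - K0 * (t + n2 a)) * g2 f a := by
      refine mul_le_mul_of_nonneg_right ?_ (g2_nonneg f a)
      refine mul_le_mul_of_nonneg_left ?_ (by positivity)
      linarith
    have h3 : 1 / g ^ 2 * u2 a * f a ^ 2 ≤ 1 / g ^ 2 * u a * f a ^ 2 := by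
      refine mul_le_mul_of_nonneg_right ?_ (sq_nonneg _)
      exact mul_le_mul_of_nonneg_left (h a ha) (by positivity)
    linarith
  · rw [f_out hfs (not_le.1 ha), g2_out hfs (not_le.1 ha)]
    simp

theorem t_FIB : S_FIB := by
  intro Q _ _ om K0 θ hom hK0 hθ
  obtain ⟨o, ho, ho1, hoi⟩ := exists_min om hom
  set So : ℝ := ∑ i, om i with hSo
  have hSo0 : 0 ≤ So := Finset.sum_nonneg fun i _ => (hom i).le
  have homle : ∀ i, om i ≤ So := fun i =>
    Finset.single_le_sum (f := om) (fun i _ => (hom i).le) (Finset.mem_univ i)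
  set q : ℝ := (Fintype.card Q : ℝ) with hq
  have hq0 : 0 ≤ q := Nat.cast_nonneg _
  -- constants
  set K' : ℝ := (q ^ 3 * K0 ^ 2 / (4 * o ^ 2) + 2 * K0) / o with hK'
  have hK'0 : 0 ≤ K' := by positivity
  have hK'o : K' * o = q ^ 3 * K0 ^ 2 / (4 * o ^ 2) + 2 * K0 := by rw [hK']; field_simp
  obtain ⟨δ2, K2, η2, hδ2, hK2, hη2, hSEC⟩ := t_SEC Q om (K0 * (q ^ 2 + 1)) hom (by positivity)
  set KK : ℝ := K0 + So + K0 / (2 * o) + K' with hKK
  have hKK0 : 0 ≤ KK := by positivity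
  obtain ⟨δ3, K3, hδ3, hK3, hOSC⟩ := t_OSC Q (o / 2) KK (4 * K2 + 4) (by positivity) hKK0
    (by positivity)
  set k1 : ℝ := o ^ 2 / 4 with hk1
  have hk1pos : 0 < k1 := by positivity
  set μ : ℝ := min (θ / (1 / 2 * So + 1)) (1 / 4) with hμ
  have hμpos : 0 < μ := by positivity
  have hμle : μ ≤ 1 / 4 := min_le_right _ _
  have hμθ : μ * (1 / 2 * So) ≤ θ := by
    have h1 : μ * (1 / 2 * So + 1) ≤ θ := by
      have h2 : μ ≤ θ / (1 / 2 * So + 1) := min_le_left _ _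
      rwa [le_div_iff₀ (by positivity)] at h2
    have : μ * (1 / 2 * So) ≤ μ * (1 / 2 * So + 1) :=
      mul_le_mul_of_nonneg_left (by linarith) hμpos.le
    linarith
  set θ' : ℝ := min (1 / 4) (μ * k1 / (K2 + 1)) with hθ'
  have hθ'pos : 0 < θ' := by positivity
  have hθ'le : θ' ≤ 1 / 4 := min_le_left _ _
  have hθμ : θ' * K2 ≤ μ * k1 := by
    have h1 : θ' * (K2 + 1) ≤ μ * k1 := by
      have h2 : θ' ≤ μ * k1 / (K2 + 1) := min_le_right _ _
      rwa [le_div_iff₀ (by positivity)] at h2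
    nlinarith
  -- the radius
  set D : ℝ := 1 + q ^ 2 * K0 / o + K' + K0 + q ^ 2 * K0 with hD
  have hDpos : 0 < D := by positivity
  have hD1 : 1 ≤ D := by
    have : 0 ≤ q ^ 2 * K0 / o + K' + K0 + q ^ 2 * K0 := by positivity
    linarith
  set δ : ℝ := min (min δ2 δ3) (o ^ 2 / (16 * D)) with hδ
  have hδpos : 0 < δ := by positivity
  have hδδ2 : δ ≤ δ2 := (min_le_left _ _).trans (min_le_left _ _)
  have hδδ3 : δ ≤ δ3 := (min_le_left _ _).trans (min_le_right _ _)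
  have hδD : D * δ ≤ o ^ 2 / 16 := by
    have h1 : δ ≤ o ^ 2 / (16 * D) := min_le_right _ _
    rw [le_div_iff₀ (by positivity)] at h1
    linarith
  have ho2 : o ^ 2 ≤ 1 := by nlinarith
  have ho2' : o ^ 2 ≤ o := by nlinarith
  have hδ16 : δ ≤ 1 / 16 := by nlinarith
  refine ⟨δ, 1 / 2 * K' * q + K3 + K2, θ' * η2, hδpos, by positivity, by positivity, ?_⟩
  intro g c hg hgδ hc hcδ A hA hAb hAt u hu hul f hf hfs
  have hc1 : c ≤ 1 := by linarith
  have hcc : c ^ 2 ≤ c := by nlinarith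
  have hcs : HasCompactSupport f := cs_of_ball hfs
  have hf0 : Continuous f := hf.continuous
  have hDc : D * c ≤ o ^ 2 / 16 := (mul_le_mul_of_nonneg_left hcδ hDpos.le).trans hδD
  -- products of constants with c
  have hq2K0o : 0 ≤ q ^ 2 * K0 / o := by positivity
  have hb1 : q ^ 2 * K0 / o * c ≤ o ^ 2 / 16 := by
    refine le_trans (mul_le_mul_of_nonneg_right ?_ hc) hDc
    have : 0 ≤ K' + K0 + q ^ 2 * K0 := by positivity
    linarith
  have hb2 : K' * c ≤ o ^ 2 / 16 := by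
    refine le_trans (mul_le_mul_of_nonneg_right ?_ hc) hDc
    have : 0 ≤ K0 + q ^ 2 * K0 := by positivity
    linarith
  have hb3 : K0 * c ≤ o ^ 2 / 16 := by
    refine le_trans (mul_le_mul_of_nonneg_right ?_ hc) hDc
    have : 0 ≤ q ^ 2 * K0 := by positivity
    linarith
  have hb3' : K0 * δ ≤ o ^ 2 / 16 := by
    refine le_trans (mul_le_mul_of_nonneg_right ?_ hδpos.le) hδD
    have : 0 ≤ q ^ 2 * K0 := by positivity
    linarith
  have hb4 : q ^ 2 * K0 * c ≤ o ^ 2 / 16 := by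
    refine le_trans (mul_le_mul_of_nonneg_right ?_ hc) hDc
    have : 0 ≤ K' + K0 := by positivity
    linarith
  have hbA : ∀ a : Q → ℝ, |bil A a| ≤ K0 * c * q ^ 2 * n2 a := fun a => bil_abs A (K0 * c) hAb a
  have hul' : ∀ a : Q → ℝ, n2 a ≤ δ ^ 2 →
      1 / 2 * ∑ i, om i ^ 2 * a i ^ 2 + 1 / 2 * bil A a -
        K0 * (c ^ 2 * n2 a + nr a ^ 3) ≤ u a := hul
  have hfs2 : ∀ a, f a ≠ 0 → n2 a < δ2 ^ 2 := fun a ha =>
    (hfs a ha).trans_le (pow_le_pow_left₀ hδpos.le hδδ2 2)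
  have hfs3 : ∀ a, f a ≠ 0 → n2 a < δ3 ^ 2 := fun a ha =>
    (hfs a ha).trans_le (pow_le_pow_left₀ hδpos.le hδδ3 2)
  have hn2c := continuous_n2 (Q := Q)
  have hnrc := continuous_nr (Q := Q)
  have hc20 : 0 ≤ c ^ 2 := sq_nonneg c
  set E : ℝ := ∫ a, (g ^ 2 / 2 * (1 - K0 * (c ^ 2 + n2 a)) * g2 f a +
    1 / g ^ 2 * u a * f a ^ 2) with hE
  set Gap : ℝ := (∫ a, f a ^ 2) - (∫ a, f a * gau om g a) ^ 2 with hGap
  -- second bound
  have B2 : (∫ a, (1 / 2 * So - K2 * (c ^ 2 + n2 a) - K2 * c / g ^ 2 * n2 a -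
      K2 / g ^ 2 * nr a ^ 3) * f a ^ 2) + η2 * Gap ≤ E := by
    set L : (Q → ℝ) → ℝ := fun a => 1 / 2 * ∑ i, om i ^ 2 * a i ^ 2 -
      K0 * (q ^ 2 + 1) * c * n2 a - K0 * (q ^ 2 + 1) * nr a ^ 3 with hL
    have hLc : Continuous L := by
      simp only [hL]; fun_prop
    have h1 := hSEC g (c ^ 2) c hg (hgδ.trans hδδ2) hc20
      (pow_le_pow_left₀ hc (hcδ.trans hδδ2) 2) hc (fun a => max (u a) (L a)) (hu.max hLc)
      (fun a _ => le_max_right _ _) f hf hfs2
    refine h1.trans (mono_E hf hfs hu (hu.max hLc) (fun a ha => ?_) ?_ hc20)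
    · refine max_le le_rfl ?_
      refine le_trans ?_ (hul' a ha)
      simp only [hL]
      have h2 := (abs_le.1 (hbA a)).1
      have h3 : K0 * (c ^ 2 * n2 a) ≤ K0 * (c * n2 a) := by
        refine mul_le_mul_of_nonneg_left ?_ hK0
        exact mul_le_mul_of_nonneg_right hcc (n2_nonneg a)
      have h4 : 0 ≤ K0 * c * q ^ 2 * n2 a := by
        have := n2_nonneg a
        positivity
      have h5 : 0 ≤ K0 * q ^ 2 * nr a ^ 3 := by
        have := nr_nonneg a
        positivity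
      have e1 : K0 * (q ^ 2 + 1) * c * n2 a = K0 * c * q ^ 2 * n2 a + K0 * (c * n2 a) := by ring
      have e2 : K0 * (q ^ 2 + 1) * nr a ^ 3 = K0 * q ^ 2 * nr a ^ 3 + K0 * nr a ^ 3 := by ring
      have e3 : K0 * (c ^ 2 * n2 a + nr a ^ 3) = K0 * (c ^ 2 * n2 a) + K0 * nr a ^ 3 := by ring
      rw [e1, e2, e3]
      linarith
    · nlinarith [mul_nonneg hK0 (sq_nonneg q)]
  -- first bound
  have B1 : (∫ a, (1 / 2 * (So - K' * c ^ 2 * q) - K3 * (c ^ 2 + g) +
      (4 * K2 + 4) / g ^ 2 * nr a ^ 3) * f a ^ 2) ≤ E := by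
    set S : Matrix Q Q ℝ := SS om A (K' * c ^ 2) with hS
    have hsyl : ∀ i j, |syl om A i j| ≤ K0 * c / (2 * o) := by
      intro i j
      simp only [syl, Matrix.of_apply]
      have h1 : 2 * o ≤ om i + om j := by linarith [hoi i, hoi j]
      have h0 : 0 < om i + om j := by linarith
      rw [abs_div, abs_of_pos h0]
      exact div_le_div₀ (by positivity) (hAb i j) (by positivity) h1
    have hKc : K0 * c / (2 * o) ≤ K0 / (2 * o) := by
      refine div_le_div_of_nonneg_right ?_ (by positivity)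
      nlinarith
    have hSb : ∀ i j, |S i j| ≤ KK := by
      intro i j
      simp only [hS, SS, Matrix.add_apply]
      have h1 : |Matrix.diagonal (fun i => om i - K' * c ^ 2) i j| ≤ So + K' := by
        by_cases h : i = j
        · subst h
          rw [Matrix.diagonal_apply_eq, abs_le]
          have h2 := homle i
          have h3 := (hom i).le
          have h4 : K' * c ^ 2 ≤ K' * 1 := mul_le_mul_of_nonneg_left (by nlinarith) hK'0
          have h5 : 0 ≤ K' * c ^ 2 := by positivity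
          constructor <;> linarith
        · rw [Matrix.diagonal_apply_ne _ h, abs_zero]
          positivity
      calc |Matrix.diagonal (fun i => om i - K' * c ^ 2) i j + syl om A i j| ≤
            |Matrix.diagonal (fun i => om i - K' * c ^ 2) i j| + |syl om A i j| :=
            abs_add_le _ _
        _ ≤ (So + K') + K0 / (2 * o) := add_le_add h1 ((hsyl i j).trans hKc)
        _ ≤ KK := by rw [hKK]; linarith
    have hbs : ∀ a : Q → ℝ, |bil (syl om A) a| ≤ K0 * c / (2 * o) * q ^ 2 * n2 a :=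
      fun a => bil_abs _ _ hsyl a
    have hexlow : ∀ a : Q → ℝ, o * n2 a ≤ ex om a := by
      intro a
      unfold n2 ex
      rw [Finset.mul_sum]
      exact Finset.sum_le_sum fun i _ => mul_le_mul_of_nonneg_right (hoi i) (sq_nonneg _)
    have hbs' : ∀ a : Q → ℝ, |bil (syl om A) a| ≤ o ^ 2 / 32 * n2 a := by
      intro a
      refine (hbs a).trans (mul_le_mul_of_nonneg_right ?_ (n2_nonneg a))
      have : K0 * c / (2 * o) * q ^ 2 = 1 / 2 * (q ^ 2 * K0 / o * c) := by ring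
      rw [this]
      linarith
    have hSlow : ∀ a : Q → ℝ, o / 2 * n2 a ≤ ∑ i, a i * (S.mulVec a) i := by
      intro a
      have h1 : ∑ i, a i * (S.mulVec a) i = bil S a := rfl
      rw [h1, hS, SS_bil]
      have h2 := hexlow a
      have h3 := (abs_le.1 (hbs' a)).1
      have h4 : K' * c ^ 2 * n2 a ≤ o ^ 2 / 16 * n2 a := by
        refine mul_le_mul_of_nonneg_right ?_ (n2_nonneg a)
        refine le_trans ?_ hb2
        exact mul_le_mul_of_nonneg_left hcc hK'0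
      have h5 : o ^ 2 * n2 a ≤ o * n2 a := mul_le_mul_of_nonneg_right ho2' (n2_nonneg a)
      have h6 : 0 ≤ o * n2 a := mul_nonneg ho.le (n2_nonneg a)
      linarith
    have hSn2 : ∀ a : Q → ℝ, 1 / 2 * n2 (S.mulVec a) ≤
        1 / 2 * (∑ i, om i ^ 2 * a i ^ 2) + 1 / 2 * bil A a - K0 * c ^ 2 * n2 a := by
      intro a
      rw [hS, SS_n2 om hom A hA]
      have hN := n2_nonneg a
      have h1 := n2_mulVec_le (syl om A) _ hsyl a
      have h2 : q ^ 3 * (K0 * c / (2 * o)) ^ 2 * n2 a =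
          q ^ 3 * K0 ^ 2 / (4 * o ^ 2) * (c ^ 2 * n2 a) := by ring
      rw [h2] at h1
      have h3 := hexlow a
      have h4 : K' * c ^ 2 * (o * n2 a) ≤ K' * c ^ 2 * ex om a :=
        mul_le_mul_of_nonneg_left h3 (by positivity)
      have h5 : K' * c ^ 2 * (-(o ^ 2 / 32 * n2 a)) ≤ K' * c ^ 2 * bil (syl om A) a :=
        mul_le_mul_of_nonneg_left (abs_le.1 (hbs' a)).1 (by positivity)
      have h6 : (K' * c ^ 2) ^ 2 * n2 a ≤ K' * c ^ 2 * (o ^ 2 / 16 * n2 a) := by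
        have h7 : K' * c ^ 2 ≤ o ^ 2 / 16 :=
          le_trans (mul_le_mul_of_nonneg_left hcc hK'0) hb2
        calc (K' * c ^ 2) ^ 2 * n2 a = K' * c ^ 2 * (K' * c ^ 2 * n2 a) := by ring
          _ ≤ _ := mul_le_mul_of_nonneg_left (mul_le_mul_of_nonneg_right h7 hN) (by positivity)
      have h7 : K' * c ^ 2 * (o ^ 2 * n2 a) ≤ K' * c ^ 2 * (o * n2 a) :=
        mul_le_mul_of_nonneg_left (mul_le_mul_of_nonneg_right ho2' hN) (by positivity)
      have h8 : K' * c ^ 2 * (o * n2 a) =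
          (q ^ 3 * K0 ^ 2 / (4 * o ^ 2) + 2 * K0) * (c ^ 2 * n2 a) := by
        rw [← hK'o]; ring
      have h9 : 0 ≤ K' * c ^ 2 * (o * n2 a) := by positivity
      have h10 : 0 ≤ K' * c ^ 2 * (o ^ 2 * n2 a) := by positivity
      have e1 : K' * c ^ 2 * (-(o ^ 2 / 32 * n2 a)) =
          -(1 / 32 * (K' * c ^ 2 * (o ^ 2 * n2 a))) := by ring
      have e2 : K' * c ^ 2 * (o ^ 2 / 16 * n2 a) = 1 / 16 * (K' * c ^ 2 * (o ^ 2 * n2 a)) := by
        ring
      have e3 : 2 * (K' * c ^ 2) * ex om a = 2 * (K' * c ^ 2 * ex om a) := by ring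
      have e4 : 2 * (K' * c ^ 2) * bil (syl om A) a = 2 * (K' * c ^ 2 * bil (syl om A) a) := by
        ring
      have e5 : (q ^ 3 * K0 ^ 2 / (4 * o ^ 2) + 2 * K0) * (c ^ 2 * n2 a) =
          q ^ 3 * K0 ^ 2 / (4 * o ^ 2) * (c ^ 2 * n2 a) + 2 * (K0 * c ^ 2 * n2 a) := by ring
      rw [e1] at h5
      rw [e2] at h6
      rw [e5] at h8
      rw [e3, e4]
      linarith
    have htr : S.trace = So - K' * c ^ 2 * q := SS_trace om hom A hAt _
    set L : (Q → ℝ) → ℝ := fun a => 1 / 2 * n2 (S.mulVec a) - KK * nr a ^ 3 with hL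
    have hmc : ∀ i, Continuous fun a : Q → ℝ => (S.mulVec a) i := fun i =>
      (contDiff_mulVec S i (n := 1)).continuous
    have hnSc : Continuous fun a : Q → ℝ => n2 (S.mulVec a) := by
      unfold n2
      exact continuous_finsetSum _ fun i _ => (hmc i).pow 2
    have hLc : Continuous L := by
      simp only [hL]; fun_prop
    have h1 := hOSC g (c ^ 2) hg (hgδ.trans hδδ3) hc20
      (pow_le_pow_left₀ hc (hcδ.trans hδδ3) 2) S (SS_symm om A hA _) hSb hSlow
      (fun a => max (u a) (L a)) (hu.max hLc) (fun a _ => le_max_right _ _) f hf hfs3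
    rw [htr] at h1
    refine h1.trans (mono_E hf hfs hu (hu.max hLc) (fun a ha => ?_) ?_ hc20)
    · refine max_le le_rfl ?_
      refine le_trans ?_ (hul' a ha)
      simp only [hL]
      have h2 := hSn2 a
      have h3 : K0 * nr a ^ 3 ≤ KK * nr a ^ 3 := by
        refine mul_le_mul_of_nonneg_right ?_ (pow_nonneg (nr_nonneg a) 3)
        rw [hKK]
        have : 0 ≤ So + K0 / (2 * o) + K' := by positivity
        linarith
      linarith
    · rw [hKK]
      have : 0 ≤ So + K0 / (2 * o) + K' := by positivity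
      linarith
  -- third bound
  have hi3 : Integrable fun a => k1 * n2 a / g ^ 2 * f a ^ 2 :=
    int_f2 hf0 hcs (by fun_prop)
  have B3 : (∫ a, k1 * n2 a / g ^ 2 * f a ^ 2) ≤ E := by
    refine integral_mono hi3 (int_E hf hcs hu K0 (c ^ 2) g) fun a => ?_
    simp only
    by_cases ha : n2 a ≤ δ ^ 2
    · have hN := n2_nonneg a
      have hr0 := nr_nonneg a
      have hrδ : nr a ≤ δ := nr_le hδpos.le ha
      have hkin : 0 ≤ g ^ 2 / 2 * (1 - K0 * (c ^ 2 + n2 a)) * g2 f a := by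
        refine mul_nonneg (mul_nonneg (by positivity) ?_) (g2_nonneg f a)
        have h1 : K0 * c ^ 2 ≤ K0 * c := mul_le_mul_of_nonneg_left hcc hK0
        have h2 : K0 * n2 a ≤ K0 * δ := by
          refine mul_le_mul_of_nonneg_left (ha.trans ?_) hK0
          rw [sq]
          exact mul_le_of_le_one_left hδpos.le (by linarith)
        have h3 : K0 * (c ^ 2 + n2 a) = K0 * c ^ 2 + K0 * n2 a := by ring
        rw [h3]
        linarith
      have hpot : k1 * n2 a / g ^ 2 * f a ^ 2 ≤ 1 / g ^ 2 * u a * f a ^ 2 := by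
        refine mul_le_mul_of_nonneg_right ?_ (sq_nonneg _)
        have h1 : 1 / g ^ 2 * u a = u a / g ^ 2 := by ring
        rw [h1]
        refine div_le_div_of_nonneg_right ?_ (by positivity)
        refine le_trans ?_ (hul' a ha)
        have h2 : o ^ 2 * n2 a ≤ ∑ i, om i ^ 2 * a i ^ 2 := by
          unfold n2
          rw [Finset.mul_sum]
          exact Finset.sum_le_sum fun i _ =>
            mul_le_mul_of_nonneg_right (pow_le_pow_left₀ ho.le (hoi i) 2) (sq_nonneg _)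
        have h3 := (abs_le.1 (hbA a)).1
        have h4 : K0 * c * q ^ 2 * n2 a ≤ o ^ 2 / 16 * n2 a := by
          refine mul_le_mul_of_nonneg_right ?_ hN
          calc K0 * c * q ^ 2 = q ^ 2 * K0 * c := by ring
            _ ≤ _ := hb4
        have h5 : K0 * (c ^ 2 * n2 a) ≤ o ^ 2 / 16 * n2 a := by
          calc K0 * (c ^ 2 * n2 a) = K0 * c ^ 2 * n2 a := by ring
            _ ≤ K0 * c * n2 a := by
              refine mul_le_mul_of_nonneg_right (mul_le_mul_of_nonneg_left hcc hK0) hN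
            _ ≤ _ := mul_le_mul_of_nonneg_right hb3 hN
        have h6 : K0 * nr a ^ 3 ≤ o ^ 2 / 16 * n2 a := by
          calc K0 * nr a ^ 3 = K0 * nr a * n2 a := by rw [← nr_sq]; ring
            _ ≤ K0 * δ * n2 a :=
              mul_le_mul_of_nonneg_right (mul_le_mul_of_nonneg_left hrδ hK0) hN
            _ ≤ _ := mul_le_mul_of_nonneg_right hb3' hN
        have h7 : 0 ≤ o ^ 2 * n2 a := by positivity
        have h8 : k1 * n2 a = 1 / 4 * (o ^ 2 * n2 a) := by rw [hk1]; ring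
        have h9 : o ^ 2 / 16 * n2 a = 1 / 16 * (o ^ 2 * n2 a) := by ring
        rw [h9] at h4 h5 h6
        rw [h8]
        have h10 : K0 * (c ^ 2 * n2 a + nr a ^ 3) = K0 * (c ^ 2 * n2 a) + K0 * nr a ^ 3 := by
          ring
        rw [h10]
        linarith
      linarith
    · rw [f_out hfs (not_le.1 ha), g2_out hfs (not_le.1 ha)]
      simp
  -- combination
  have hμc : μ * c ≤ 1 / 4 := by nlinarith
  have hμc0 : 0 ≤ μ * c := mul_nonneg hμpos.le hc
  have ha0 : 0 ≤ 1 - θ' - μ * c := by linarith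
  have hi1 : Integrable fun a => (1 / 2 * (So - K' * c ^ 2 * q) - K3 * (c ^ 2 + g) +
      (4 * K2 + 4) / g ^ 2 * nr a ^ 3) * f a ^ 2 := int_f2 hf0 hcs (by fun_prop)
  have hi2 : Integrable fun a => (1 / 2 * So - K2 * (c ^ 2 + n2 a) - K2 * c / g ^ 2 * n2 a -
      K2 / g ^ 2 * nr a ^ 3) * f a ^ 2 := int_f2 hf0 hcs (by fun_prop)
  have hi0 : Integrable fun a => (1 / 2 * So - θ * c - (1 / 2 * K' * q + K3 + K2) * (c ^ 2 + g)) *
      f a ^ 2 := int_f2 hf0 hcs (by fun_prop)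
  have hmain : (∫ a, (1 / 2 * So - θ * c - (1 / 2 * K' * q + K3 + K2) * (c ^ 2 + g)) *
      f a ^ 2) ≤
      (1 - θ' - μ * c) * (∫ a, (1 / 2 * (So - K' * c ^ 2 * q) - K3 * (c ^ 2 + g) +
        (4 * K2 + 4) / g ^ 2 * nr a ^ 3) * f a ^ 2) +
      θ' * (∫ a, (1 / 2 * So - K2 * (c ^ 2 + n2 a) - K2 * c / g ^ 2 * n2 a -
        K2 / g ^ 2 * nr a ^ 3) * f a ^ 2) +
      μ * c * (∫ a, k1 * n2 a / g ^ 2 * f a ^ 2) := by
    rw [int3 hi1 hi2 hi3]
    refine integral_mono hi0 (((hi1.const_mul _).add (hi2.const_mul _)).add (hi3.const_mul _))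
      fun a => ?_
    simp only
    by_cases ha : n2 a ≤ δ ^ 2
    · have hrδ : nr a ≤ δ := nr_le hδpos.le ha
      have h1 := fib_comb (So := So) (θ := θ) (K2 := K2) (K3 := K3) (k1 := k1) (q := q)
        (K' := K') hg hc hc1 hK2 hK3 hq0 hK'0 (nr_nonneg a) (by linarith) hμpos.le hμle hμθ
        hθ'pos.le hθ'le hθμ
      rw [nr_sq] at h1
      have h2 := mul_le_mul_of_nonneg_right h1 (sq_nonneg (f a))
      refine h2.trans (le_of_eq ?_)
      ring
    · rw [f_out hfs (not_le.1 ha)]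
      simp
  have c1 := mul_le_mul_of_nonneg_left B1 ha0
  have c2 := mul_le_mul_of_nonneg_left B2 hθ'pos.le
  have c3 := mul_le_mul_of_nonneg_left B3 hμc0
  have hsum : (1 - θ' - μ * c) * E + θ' * E + μ * c * E = E := by ring
  have e1 : θ' * η2 * Gap = θ' * (η2 * Gap) := by ring
  rw [mul_add] at c2
  rw [e1]
  linarith

end Pool.Agent.Q222.LU
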