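import Pool.Agent.Q222.LU.GB

/-!
# Project LU, job FLUX: the splitting of the lowest levels is exponentially small
-/

set_option autoImplicit false

namespace Pool.Agent.Q222.LU

open Pool.Agent.Q77.LU MeasureTheory Matrix Set Filter Topology
open scoped ContDiff Matrix.Norms.Frobenius

noncomputable section

section wells

variable {N n D l : ℕ} {G : Subgroup (UU N)} [NeZero l]

/-- inverse of a central vector, as a vector of group elements -/
def iv (z : Fin D → Subgroup.center G) : Fin D → G := fun i => ((z i : G))⁻¹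

omit [NeZero l] in
theorem iv_mem (z : Fin D → Subgroup.center G) (i : Fin D) : iv z i ∈ Subgroup.center G :=
  inv_mem (z i).2

theorem contDiff_nx {P Q : Type} [Fintype P] [Fintype Q] :
    ContDiff ℝ ∞ (nx : (P → ℝ) × (Q → ℝ) → ℝ) := by
  unfold nx n2
  fun_prop

theorem exists_wells (h3 : S_LIFT1) (h4 : S_TAUO) (h5 : S_UNIQ) (h7 : S_DEC) (h10 : S_SYMM)
    (hG : IsClosed (G : Set (UU N))) (hc : ConnectedSpace G) (B : LieBasis G n)
    (hB : NoCentre B) : ∃ (δ : ℝ) (κ : (Link D l → G) → ℝ), 0 < δ ∧ IsSmooth κ ∧ GaugeInv κ ∧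
    ∀ U, tau B U < 2 * δ → ∃ z0 : Fin D → Subgroup.center G,
      ∀ z : Fin D → Subgroup.center G, (z = z0 → κ (centre (iv z) U) = 1) ∧
        (z ≠ z0 → κ (centre (iv z) U) = 0) := by
  obtain ⟨dc⟩ := h7 N n D l G hG B
  obtain ⟨ru, hru, hu, -⟩ := h5 N n D l G hG B hB dc
  obtain ⟨rl, hrl, hl⟩ := h3 N n D l G hG B hB dc
  set r : ℝ := min ru rl with hr
  have hrpos : 0 < r := lt_min hru hrl
  set ρ1 : ℝ := r / 2 with hρ1
  set ρ : ℝ := r / 4 with hρ
  have hρ1pos : 0 < ρ1 := by positivity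
  have hρpos : 0 < ρ := by positivity
  have hρρ1 : ρ < ρ1 := by rw [hρ, hρ1]; linarith
  have hρ1u : ρ1 < ru := lt_of_lt_of_le (by rw [hρ1]; linarith) (min_le_left ru rl)
  have hρ1l : ρ1 < rl := lt_of_lt_of_le (by rw [hρ1]; linarith) (min_le_right ru rl)
  have hsq : ρ ^ 2 < ρ1 ^ 2 := pow_lt_pow_left₀ hρρ1 hρpos.le two_ne_zero
  have hsqu : ρ1 ^ 2 < ru ^ 2 := pow_lt_pow_left₀ hρ1u hρ1pos.le two_ne_zero
  have hsql : ρ1 ^ 2 < rl ^ 2 := pow_lt_pow_left₀ hρ1l hρ1pos.le two_ne_zero
  have hdpos : 0 < ρ1 ^ 2 - ρ ^ 2 := by linarith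
  set f : (Fin D × Fin n → ℝ) × (Fin dc.M → ℝ) → ℝ :=
    fun x => Real.smoothTransition ((ρ1 ^ 2 - nx x) / (ρ1 ^ 2 - ρ ^ 2)) with hf
  have hfs : ContDiff ℝ ∞ f := by
    have h1 : ContDiff ℝ ∞ fun x : (Fin D × Fin n → ℝ) × (Fin dc.M → ℝ) =>
        (ρ1 ^ 2 - nx x) / (ρ1 ^ 2 - ρ ^ 2) :=
      (contDiff_const.sub contDiff_nx).div_const _
    exact (Real.smoothTransition.contDiff (n := ⊤)).comp h1
  have hf0 : ∀ x, f x ≠ 0 → nx x < ρ1 ^ 2 := by
    intro x hx
    by_contra hn
    push Not at hn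
    refine hx (Real.smoothTransition.zero_of_nonpos ?_)
    exact div_nonpos_of_nonpos_of_nonneg (by linarith) hdpos.le
  have hf1 : ∀ x, nx x < ρ ^ 2 → f x = 1 := by
    intro x hx
    refine Real.smoothTransition.one_of_one_le ?_
    rw [le_div_iff₀ hdpos]
    linarith
  have hfsg : ∀ h x, f (dc.sg h x) = f x := by
    intro h x
    obtain ⟨-, e1, e2, -⟩ := h10 N n D l G hG B dc h x
    simp only [hf, nx, e1, e2]
  obtain ⟨κ, hκs, hκg, hκf, hκo⟩ := hl ρ1 hρ1pos hρ1l f hfs hf0 hfsg
  obtain ⟨δ, hδ, hδo⟩ := h4 N n D l G hG hc B hB dc ρ hρpos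
  refine ⟨δ / 2, κ, by positivity, hκs, hκg, fun U hU => ?_⟩
  obtain ⟨γ, z0, x, hz0, hx, rfl⟩ := hδo U (by linarith)
  set z0' : Fin D → Subgroup.center G := fun i => ⟨z0 i, hz0 i⟩ with hz0'
  have hval : ∀ z : Fin D → Subgroup.center G,
      κ (centre (iv z) (gauge γ (centre z0 (dc.ch x)))) =
        κ (centre (fun i => iv z i * z0 i) (dc.ch x)) := by
    intro z
    rw [← Pool.Agent.Q65.LU.gauge_centre (iv_mem z), hκg, Pool.Agent.Q65.LU.centre_centre]
  refine ⟨z0', fun z => ⟨fun hz => ?_, fun hz => ?_⟩⟩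
  · rw [hval, hz]
    have h1 : ∀ i, iv z0' i * z0 i = 1 := fun i => inv_mul_cancel (z0 i)
    rw [Pool.Agent.Q65.LU.centre_eq_one h1, hκf x (by linarith), hf1 x hx]
  · rw [hval]
    by_contra hne
    obtain ⟨γ', y, hy, hyU⟩ := hκo _ hne
    have h1 : dc.ch y = gauge (fun w => (γ' w)⁻¹) (centre (fun i => iv z i * z0 i) (dc.ch x)) := by
      rw [hyU, Pool.Agent.Q65.LU.gauge_gauge]
      have : (fun w => (γ' w)⁻¹ * γ' w) = fun _ : Fin D → ZMod l => (1 : G) := by
        funext w; exact inv_mul_cancel _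
      rw [this, Pool.Agent.Q65.LU.gauge_one]
    obtain ⟨h2, -⟩ := hu (fun w => (γ' w)⁻¹) (fun i => iv z i * z0 i) y x
      (fun i => mul_mem (iv_mem z i) (hz0 i)) (by linarith) (by linarith) h1
    refine hz (funext fun i => ?_)
    have h3 := h2 i
    have h4 : (z i : G) = z0 i := by
      have h5 : ((z i : G))⁻¹ * z0 i = 1 := h3
      exact (inv_mul_eq_one.1 h5)
    exact Subtype.ext h4

end wells

section calculus

variable {N n D l : ℕ} {G : Subgroup (UU N)} [NeZero l]

theorem path_tendsto (B : LieBasis G n) (e : Link D l) (a : Fin n) (U : Link D l → G) :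
    Tendsto (fun t : ℝ => Function.update U e (B.ex a t * U e)) (𝓝 0) (𝓝 U) := by
  have h4 : Continuous fun t : ℝ => Function.update U e (B.ex a t * U e) := by
    have h5 : Continuous (B.ex a) := by
      refine continuous_induced_rng.2 (continuous_induced_rng.2 ?_)
      have h6 : (fun t => ((B.ex a t : UU N) : Mt N)) = fun t : ℝ =>
        NormedSpace.exp (t • B.X a) := by
        funext t; exact B.ex_eq a t
      show Continuous (fun t => ((B.ex a t : UU N) : Mt N))
      rw [h6]
      exact NormedSpace.exp_continuous.comp (continuous_id.smul continuous_const)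
    exact continuous_const.update e (h5.mul continuous_const)
  have h7 := h4.tendsto 0
  rw [update_zero] at h7
  exact h7

/-- the derivative of a function with values `0`, `1` vanishes -/
theorem dlink_idem (B : LieBasis G n) {κ : (Link D l → G) → ℝ} (hκ : IsSmooth κ)
    (e : Link D l) (a : Fin n) {U : Link D l → G} (h : ∀ᶠ W in 𝓝 U, κ W ^ 2 = κ W) :
    dlink B e a κ U = 0 := by
  have h1 := hasDerivAt_dlink B hκ e a U
  have h2 := h1.fun_pow 2
  rw [update_zero] at h2
  have h3 : (fun t => κ (Function.update U e (B.ex a t * U e)) ^ 2) =ᶠ[𝓝 0]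
      fun t => κ (Function.update U e (B.ex a t * U e)) := (path_tendsto B e a U).eventually h
  have h4 := (h1.congr_of_eventuallyEq h3).unique h2
  have h5 := h.self_of_nhds
  have h6 : κ U = 0 ∨ κ U = 1 := by
    have : κ U * (κ U - 1) = 0 := by linarith [sq (κ U)]
    rcases mul_eq_zero.1 this with h | h
    · exact Or.inl h
    · exact Or.inr (by linarith)
  rcases h6 with h6 | h6
  · rw [h6] at h4; simpa using h4
  · rw [h6] at h4
    norm_num at h4
    linarith

theorem dlink_sum (B : LieBasis G n) {W : Type} [Fintype W] {w : W → (Link D l → G) → ℝ}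
    (hw : ∀ z, IsSmooth (w z)) (c : W → ℝ) (e : Link D l) (a : Fin n) (U : Link D l → G) :
    dlink B e a (fun U => ∑ z, c z * w z U) U = ∑ z, c z * dlink B e a (w z) U := by
  have h : HasDerivAt (fun t => ∑ z, c z * w z (Function.update U e (B.ex a t * U e)))
      (∑ z, c z * dlink B e a (w z) U) 0 :=
    HasDerivAt.fun_sum fun z _ => (hasDerivAt_dlink B (hw z) e a U).const_mul (c z)
  exact h.deriv

theorem gr_mul_of (B : LieBasis G n) {k H : (Link D l → G) → ℝ} (hk : IsSmooth k)
    (hH : IsSmooth H) (U : Link D l → G) (h : ∀ e a, dlink B e a k U * H U = 0) :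
    gr B (fun U => k U * H U) U = k U ^ 2 * gr B H U := by
  unfold gr
  rw [Finset.mul_sum]
  refine Finset.sum_congr rfl fun e _ => ?_
  rw [Finset.mul_sum]
  refine Finset.sum_congr rfl fun a _ => ?_
  rw [dlink_mul B hk hH, h, zero_add, mul_pow]

/-- the local form of the localisation formula -/
theorem gr_ims (B : LieBasis G n) {θ F : (Link D l → G) → ℝ} (hθ : IsSmooth θ)
    (hF : IsSmooth F) (U : Link D l → G) :
    gr B (fun U => Real.cos (θ U) * F U) U + gr B (fun U => Real.sin (θ U) * F U) U =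
      gr B F U + gr B θ U * F U ^ 2 := by
  unfold gr
  rw [Finset.sum_mul, ← Finset.sum_add_distrib, ← Finset.sum_add_distrib]
  refine Finset.sum_congr rfl fun e _ => ?_
  rw [Finset.sum_mul, ← Finset.sum_add_distrib, ← Finset.sum_add_distrib]
  refine Finset.sum_congr rfl fun a _ => ?_
  have h1 : dlink B e a (fun U => Real.cos (θ U)) U = -Real.sin (θ U) * dlink B e a θ U := by
    have := dlink_comp B Real.differentiable_cos hθ e a U
    rw [this, Real.deriv_cos]
  have h2 : dlink B e a (fun U => Real.sin (θ U)) U = Real.cos (θ U) * dlink B e a θ U := by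
    have := dlink_comp B Real.differentiable_sin hθ e a U
    rw [this, Real.deriv_sin]
  rw [dlink_mul B (hθ.comp Real.contDiff_cos) hF, dlink_mul B (hθ.comp Real.contDiff_sin) hF,
    h1, h2]
  have h3 := Real.sin_sq_add_cos_sq (θ U)
  linear_combination ((dlink B e a θ U * F U) ^ 2 + dlink B e a F U ^ 2) * h3

variable [MeasurableSpace G] [BorelSpace G] (μ : Measure G) [IsProbabilityMeasure μ]
  [μ.IsHaarMeasure]

/-- the upper bound of the energy of the localised function -/
theorem energy_cos (hG : IsClosed (G : Set (UU N))) (B : LieBasis G n) (g : ℝ)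
    {θ F : (Link D l → G) → ℝ} (hθ : IsSmooth θ) (hθg : GaugeInv θ) (hF : IsSmooth F)
    (hFg : GaugeInv F) :
    energy B μ g (fun U => Real.cos (θ U) * F U) ≤ energy B μ g F +
      g ^ 2 / 2 * (∫ U, gr B θ U * F U ^ 2 ∂(Measure.pi fun _ : Link D l => μ)) -
      glevel D l B μ g 0 *
        ∫ U, (Real.sin (θ U) * F U) ^ 2 ∂(Measure.pi fun _ : Link D l => μ) := by
  have hc : IsSmooth fun U => Real.cos (θ U) * F U := (hθ.comp Real.contDiff_cos).mul hF
  have hs : IsSmooth fun U => Real.sin (θ U) * F U := (hθ.comp Real.contDiff_sin).mul hF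
  have hsg : GaugeInv fun U => Real.sin (θ U) * F U := by
    intro γ U
    show Real.sin (θ (gauge γ U)) * F (gauge γ U) = Real.sin (θ U) * F U
    rw [hθg, hFg]
  have h1 := glevel_le μ hG B g hs hsg
  have hm : Continuous fun U : Link D l → G => magnetic U := (smooth_magnetic B).continuous
  have hi : ∀ {F : (Link D l → G) → ℝ}, IsSmooth F → Integrable
      (fun U => g ^ 2 / 2 * gr B F U + 1 / g ^ 2 * (magnetic U * F U ^ 2))
      (Measure.pi fun _ : Link D l => μ) := fun hF =>
    integrable_links μ hG ((continuous_const.mul (gr_cont B hF)).add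
      (continuous_const.mul (hm.mul (hF.continuous.pow 2))))
  have h2 : Integrable (fun U => g ^ 2 / 2 * (gr B θ U * F U ^ 2))
      (Measure.pi fun _ : Link D l => μ) :=
    integrable_links μ hG (continuous_const.mul ((gr_cont B hθ).mul (hF.continuous.pow 2)))
  have h3 : energy B μ g (fun U => Real.cos (θ U) * F U) +
      energy B μ g (fun U => Real.sin (θ U) * F U) = energy B μ g F +
      g ^ 2 / 2 * (∫ U, gr B θ U * F U ^ 2 ∂(Measure.pi fun _ : Link D l => μ)) := by
    rw [energy_eq μ hG B g hc, energy_eq μ hG B g hs, energy_eq μ hG B g hF,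
      ← integral_const_mul, ← integral_add (hi hc) (hi hs), ← integral_add (hi hF) h2]
    refine integral_congr_ae (ae_of_all _ fun U => ?_)
    simp only
    have h4 := gr_ims B hθ hF U
    have h5 := Real.sin_sq_add_cos_sq (θ U)
    linear_combination g ^ 2 / 2 * h4 + 1 / g ^ 2 * magnetic U * F U ^ 2 * h5
  linarith

end calculus

section selector

variable {N n D l : ℕ} {G : Subgroup (UU N)} [NeZero l] [MeasurableSpace G] [BorelSpace G]
  (μ : Measure G) [IsProbabilityMeasure μ] [μ.IsHaarMeasure] [Fintype (Subgroup.center G)]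

/-- the translates of the selector -/
def ws (κ : (Link D l → G) → ℝ) (z : Fin D → Subgroup.center G) (U : Link D l → G) : ℝ :=
  κ (centre (iv z) U)

omit [μ.IsHaarMeasure] [IsProbabilityMeasure μ] [BorelSpace G] [MeasurableSpace G]
  [Fintype (Subgroup.center G)] in
theorem ws_smooth {κ : (Link D l → G) → ℝ} (hκ : IsSmooth κ) (z : Fin D → Subgroup.center G) :
    IsSmooth (ws κ z) := smooth_centre hκ (iv z)

/-- the main property of the selector -/
def Sel (B : LieBasis G n) (δ : ℝ) (κ : (Link D l → G) → ℝ) : Prop :=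
  ∀ U, tau B U < 2 * δ → ∃ z0 : Fin D → Subgroup.center G,
      ∀ z : Fin D → Subgroup.center G, (z = z0 → ws κ z U = 1) ∧ (z ≠ z0 → ws κ z U = 0)

theorem Sel.int {B : LieBasis G n} {δ : ℝ} {κ : (Link D l → G) → ℝ} (hS : Sel B δ κ)
    (hG : IsClosed (G : Set (UU N))) (hκ : IsSmooth κ) {ψ : (Link D l → G) → ℝ}
    (hψ : Continuous ψ) (hψc : CentreInv ψ) (hψ0 : ∀ U, 2 * δ ≤ tau B U → ψ U = 0)
    (z : Fin D → Subgroup.center G) :
    ∫ U, ψ U * ws κ z U ∂(Measure.pi fun _ : Link D l => μ) =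
      (∫ U, ψ U ∂(Measure.pi fun _ : Link D l => μ)) /
        (Fintype.card (Fin D → Subgroup.center G) : ℝ) := by
  classical
  have h1 : ∀ z : Fin D → Subgroup.center G,
      ∫ U, ψ U * ws κ z U ∂(Measure.pi fun _ : Link D l => μ) =
        ∫ U, ψ U * κ U ∂(Measure.pi fun _ : Link D l => μ) := by
    intro z
    have h := int_centre μ hG (iv z) (F := fun U => ψ U * κ U) (hψ.mul hκ.continuous)
    rw [← h]
    refine integral_congr_ae (ae_of_all _ fun U => ?_)
    simp only
    rw [hψc (iv z) (iv_mem z)]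
    rfl
  have h2 : ∑ z : Fin D → Subgroup.center G,
      ∫ U, ψ U * ws κ z U ∂(Measure.pi fun _ : Link D l => μ) =
        ∫ U, ψ U ∂(Measure.pi fun _ : Link D l => μ) := by
    have hint : ∀ z ∈ (Finset.univ : Finset (Fin D → Subgroup.center G)),
        Integrable (fun U => ψ U * ws κ z U) (Measure.pi fun _ : Link D l => μ) := fun z _ =>
      integrable_links μ hG (hψ.mul (ws_smooth hκ z).continuous)
    rw [← integral_finsetSum _ hint]
    refine integral_congr_ae (ae_of_all _ fun U => ?_)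
    simp only
    by_cases hU : tau B U < 2 * δ
    · obtain ⟨z0, h0⟩ := hS U hU
      rw [Finset.sum_eq_single z0]
      · rw [(h0 z0).1 rfl, mul_one]
      · intro z _ hz
        rw [(h0 z).2 hz, mul_zero]
      · intro h; exact absurd (Finset.mem_univ z0) h
    · rw [hψ0 U (not_lt.1 hU)]
      simp
  simp only [h1] at h2
  rw [Finset.sum_const, Finset.card_univ, nsmul_eq_mul] at h2
  rw [h1 z, ← h2]
  have : (Fintype.card (Fin D → Subgroup.center G) : ℝ) ≠ 0 := by
    exact_mod_cast Fintype.card_ne_zero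
  field_simp

omit [BorelSpace G] [MeasurableSpace G] in
theorem Sel.dlink {B : LieBasis G n} {δ : ℝ} {κ : (Link D l → G) → ℝ} (hS : Sel B δ κ)
    (hτ : Continuous (tau B : (Link D l → G) → ℝ)) (hκ : IsSmooth κ)
    (c : (Fin D → Subgroup.center G) → ℝ) (e : Link D l) (a : Fin n) {U : Link D l → G}
    (hU : tau B U < 2 * δ) : Pool.Agent.Q77.LU.dlink B e a (fun U => ∑ z, c z * ws κ z U) U = 0 := by
  rw [dlink_sum B (fun z => ws_smooth hκ z)]
  refine Finset.sum_eq_zero fun z _ => ?_
  have h1 : ∀ᶠ W in 𝓝 U, ws κ z W ^ 2 = ws κ z W := by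
    have h2 : ∀ᶠ W in 𝓝 U, tau B W < 2 * δ := (hτ.tendsto U).eventually_lt_const hU
    filter_upwards [h2] with W hW
    obtain ⟨z0, h0⟩ := hS W hW
    by_cases hz : z = z0
    · rw [(h0 z).1 hz]; norm_num
    · rw [(h0 z).2 hz]; norm_num
  rw [dlink_idem B (ws_smooth hκ z) e a h1, mul_zero]

omit [BorelSpace G] [MeasurableSpace G] in
theorem Sel.sq {B : LieBasis G n} {δ : ℝ} {κ : (Link D l → G) → ℝ} (hS : Sel B δ κ)
    (c : (Fin D → Subgroup.center G) → ℝ) {U : Link D l → G} (hU : tau B U < 2 * δ) :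
    (∑ z, c z * ws κ z U) ^ 2 = ∑ z, c z ^ 2 * ws κ z U := by
  classical
  obtain ⟨z0, h0⟩ := hS U hU
  have h1 : ∀ b : (Fin D → Subgroup.center G) → ℝ, ∑ z, b z * ws κ z U = b z0 := by
    intro b
    rw [Finset.sum_eq_single z0]
    · rw [(h0 z0).1 rfl, mul_one]
    · intro z _ hz
      rw [(h0 z).2 hz, mul_zero]
    · intro h; exact absurd (Finset.mem_univ z0) h
  rw [h1 c, h1 fun z => c z ^ 2]

/-- the energy of a combination of the translates -/
theorem Sel.energy {B : LieBasis G n} {δ : ℝ} {κ : (Link D l → G) → ℝ} (hS : Sel B δ κ)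
    (hG : IsClosed (G : Set (UU N))) (hτ : Continuous (tau B : (Link D l → G) → ℝ))
    (hκ : IsSmooth κ) {H : (Link D l → G) → ℝ} (hH : IsSmooth H) (hHc : CentreInv H)
    (hH0 : ∀ U, 2 * δ ≤ tau B U → H U = 0) (hH1 : ∀ U, 2 * δ ≤ tau B U → gr B H U = 0) (g : ℝ)
    (c : (Fin D → Subgroup.center G) → ℝ) :
    Pool.Agent.Q77.LU.energy B μ g (fun U => (∑ z, c z * ws κ z U) * H U) =
      Pool.Agent.Q77.LU.energy B μ g H / (Fintype.card (Fin D → Subgroup.center G) : ℝ) *
        ∑ z, c z ^ 2 := by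
  classical
  have hk : IsSmooth fun U => ∑ z, c z * ws κ z U :=
    IsSmooth.sum _ fun z _ => (IsSmooth.const (c z)).mul (ws_smooth hκ z)
  have hm : Continuous fun U : Link D l → G => magnetic U := (smooth_magnetic B).continuous
  set ψ : (Link D l → G) → ℝ := fun U => g ^ 2 / 2 * gr B H U + 1 / g ^ 2 *
    (magnetic U * H U ^ 2) with hψ
  have hψc : Continuous ψ := (continuous_const.mul (gr_cont B hH)).add
      (continuous_const.mul (hm.mul (hH.continuous.pow 2)))
  have hψi : CentreInv ψ := by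
    intro z hz U
    simp only [hψ]
    have h1 : gr B H (centre z U) = gr B H U := Pool.Agent.Q66.LU.grad_centre B hHc z hz U
    have h2 : magnetic (centre z U) = magnetic U := Pool.Agent.Q66.LU.magnetic_centre z hz U
    rw [h1, h2, hHc z hz]
  have hψ0 : ∀ U, 2 * δ ≤ tau B U → ψ U = 0 := by
    intro U hU
    simp only [hψ]
    rw [hH0 U hU, hH1 U hU]
    simp
  rw [energy_eq μ hG B g (hk.mul hH), energy_eq μ hG B g hH]
  have h1 : ∀ U, g ^ 2 / 2 * gr B (fun U => (∑ z, c z * ws κ z U) * H U) U +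
      1 / g ^ 2 * (magnetic U * ((∑ z, c z * ws κ z U) * H U) ^ 2) =
      ∑ z, c z ^ 2 * (ψ U * ws κ z U) := by
    intro U
    have h2 : ∀ e a, Pool.Agent.Q77.LU.dlink B e a (fun U => ∑ z, c z * ws κ z U) U * H U = 0 := by
      intro e a
      by_cases hU : tau B U < 2 * δ
      · rw [hS.dlink hτ hκ c e a hU, zero_mul]
      · rw [hH0 U (not_lt.1 hU), mul_zero]
    rw [gr_mul_of B hk hH U h2]
    by_cases hU : tau B U < 2 * δ
    · have h3 : ∑ z, c z ^ 2 * (ψ U * ws κ z U) = (∑ z, c z ^ 2 * ws κ z U) * ψ U := by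
        rw [Finset.sum_mul]
        exact Finset.sum_congr rfl fun z _ => by ring
      rw [h3, ← hS.sq c hU, mul_pow]
      simp only [hψ]
      ring
    · rw [hψ0 U (not_lt.1 hU), hH0 U (not_lt.1 hU), hH1 U (not_lt.1 hU)]
      simp
  have hint : ∀ z ∈ (Finset.univ : Finset (Fin D → Subgroup.center G)),
      Integrable (fun U => c z ^ 2 * (ψ U * ws κ z U)) (Measure.pi fun _ : Link D l => μ) :=
    fun z _ => (integrable_links μ hG (hψc.mul (ws_smooth hκ z).continuous)).const_mul _
  rw [integral_congr_ae (ae_of_all _ h1), integral_finsetSum _ hint]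
  simp only [integral_const_mul, hS.int μ hG hκ hψc hψi hψ0]
  rw [← Finset.sum_mul, mul_comm]

end selector

section theta

/-- the angle as a function of `tau` -/
def th1 (δ t : ℝ) : ℝ := Real.pi / 2 * Real.smoothTransition (2 * (t / δ - 1))

theorem th1_smooth (δ : ℝ) : ContDiff ℝ ∞ (th1 δ) := by
  have h1 : ContDiff ℝ ∞ fun t : ℝ => 2 * (t / δ - 1) := by fun_prop
  exact contDiff_const.mul ((Real.smoothTransition.contDiff (n := ⊤)).comp h1)

theorem th1_small {δ t : ℝ} (hδ : 0 < δ) (h : t ≤ δ) : th1 δ t = 0 := by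
  unfold th1
  rw [Real.smoothTransition.zero_of_nonpos, mul_zero]
  have : t / δ ≤ 1 := by rwa [div_le_one hδ]
  linarith

theorem th1_large {δ t : ℝ} (hδ : 0 < δ) (h : 3 / 2 * δ ≤ t) : th1 δ t = Real.pi / 2 := by
  unfold th1
  rw [Real.smoothTransition.one_of_one_le, mul_one]
  have : 3 / 2 ≤ t / δ := by rwa [le_div_iff₀ hδ]
  linarith

theorem th1_deriv_small {δ t : ℝ} (hδ : 0 < δ) (h : t < δ) : deriv (th1 δ) t = 0 := by
  have h1 : th1 δ =ᶠ[𝓝 t] fun _ => 0 := by
    filter_upwards [Iio_mem_nhds h] with s hs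
    exact th1_small hδ (le_of_lt hs)
  rw [h1.deriv_eq, deriv_const]

theorem th1_deriv_large {δ t : ℝ} (hδ : 0 < δ) (h : 3 / 2 * δ < t) : deriv (th1 δ) t = 0 := by
  have h1 : th1 δ =ᶠ[𝓝 t] fun _ => Real.pi / 2 := by
    filter_upwards [Ioi_mem_nhds h] with s hs
    exact th1_large hδ (le_of_lt hs)
  rw [h1.deriv_eq, deriv_const]

end theta

theorem exp_small {c C K g : ℝ} (hc : 0 < c) (hC : 0 < C) (hK : 0 ≤ K) (hg : 0 < g)
    (h1 : g ≤ c / (2 * (2 + K * C))) (h2 : g ≤ c / (2 * C)) :
    C * Real.exp (-c / g) ≤ 1 / 2 ∧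
      (2 + K * C) * Real.exp (-c / g) ≤ Real.exp (-(c / 2) / g) := by
  have e1 : Real.exp (-c / g) ≤ g / c := by
    have h3 : c / g ≤ Real.exp (c / g) := by
      have := Real.add_one_le_exp (c / g)
      linarith
    have h4 : Real.exp (-c / g) = (Real.exp (c / g))⁻¹ := by
      rw [← Real.exp_neg]; congr 1; ring
    rw [h4]
    calc (Real.exp (c / g))⁻¹ ≤ (c / g)⁻¹ := inv_anti₀ (by positivity) h3
      _ = g / c := by rw [inv_div]
  have e2 : Real.exp (-(c / 2) / g) ≤ 2 * g / c := by
    have h3 : c / 2 / g ≤ Real.exp (c / 2 / g) := by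
      have := Real.add_one_le_exp (c / 2 / g)
      linarith
    have h4 : Real.exp (-(c / 2) / g) = (Real.exp (c / 2 / g))⁻¹ := by
      rw [← Real.exp_neg]; congr 1; ring
    rw [h4]
    calc (Real.exp (c / 2 / g))⁻¹ ≤ (c / 2 / g)⁻¹ := inv_anti₀ (by positivity) h3
      _ = 2 * g / c := by field_simp
  have e3 : Real.exp (-c / g) = Real.exp (-(c / 2) / g) * Real.exp (-(c / 2) / g) := by
    rw [← Real.exp_add]; congr 1; ring
  constructor
  · rw [le_div_iff₀ (by positivity)] at h2
    calc C * Real.exp (-c / g) ≤ C * (g / c) := mul_le_mul_of_nonneg_left e1 hC.le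
      _ ≤ 1 / 2 := by
        rw [← mul_div_assoc, div_le_iff₀ hc]
        linarith
  · rw [e3, ← mul_assoc]
    refine mul_le_of_le_one_left (Real.exp_pos _).le ?_
    have hKC : 0 < 2 + K * C := by positivity
    rw [le_div_iff₀ (by positivity)] at h1
    calc (2 + K * C) * Real.exp (-(c / 2) / g) ≤ (2 + K * C) * (2 * g / c) :=
          mul_le_mul_of_nonneg_left e2 hKC.le
      _ ≤ 1 := by
        rw [← mul_div_assoc, div_le_one hc]
        linarith

theorem t_FLUX (h1 : S_AGM) (h2 : S_CIG) (h3 : S_LIFT1) (h4 : S_TAUO) (h5 : S_UNIQ)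
    (_h6 : S_IMS) (h7 : S_DEC) (h8 : S_FINC) (h9 : S_HC) (h10 : S_SYMM) : S_FLUX := by
  intro N n D l _ G hG hconn B _ _ μ _ _ hB hD hn
  have hfin : Finite (Subgroup.center G) := h8 N n G hG B hB
  let _ : Fintype (Subgroup.center G) := Fintype.ofFinite _
  have hcomp := compactG hG
  have hsct := sctG (G := G)
  obtain ⟨δ, κ, hδ, hκ, hκg, hSel⟩ := exists_wells (D := D) (l := l) h3 h4 h5 h7 h10 hG hconn B hB
  have hS : Sel B δ κ := hSel
  obtain ⟨c, C, g1, hc, hC, hg1, hAGM⟩ := h1 N n D l G hG hconn B μ hB hD hn δ hδ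
  obtain ⟨-, -, -, hτs, hτg, hτc, -, -, -⟩ := h9 N n D l G hG B
  have hτcont : Continuous (tau B : (Link D l → G) → ℝ) := hτs.continuous
  set θ : (Link D l → G) → ℝ := fun U => th1 δ (tau B U) with hθ
  have hθs : IsSmooth θ := hτs.comp (th1_smooth δ)
  have hθg : GaugeInv θ := fun γ U => by simp only [hθ]; rw [hτg]
  have hθc : CentreInv θ := fun z hz U => by simp only [hθ]; rw [hτc z hz]
  have hdθ : ∀ (e : Link D l) (a : Fin n) (U : Link D l → G),
      dlink B e a θ U = deriv (th1 δ) (tau B U) * dlink B e a (tau B) U := fun e a U =>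
    dlink_comp B ((th1_smooth δ).differentiable (by simp)) hτs e a U
  have hgrθ0 : ∀ U : Link D l → G, tau B U < δ → gr B θ U = 0 := by
    intro U hU
    unfold gr
    refine Finset.sum_eq_zero fun e _ => Finset.sum_eq_zero fun a _ => ?_
    rw [hdθ, th1_deriv_small hδ hU]
    simp
  obtain ⟨K0, hK0⟩ := (isCompact_univ (X := Link D l → G)).exists_bound_of_continuousOn
    (gr_cont B hθs).continuousOn
  set Kθ : ℝ := max K0 0 with hKθ
  have hKθ0 : 0 ≤ Kθ := le_max_right _ _
  have hgrθ : ∀ U : Link D l → G, gr B θ U ≤ Kθ := fun U =>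
    ((le_abs_self _).trans (hK0 U (mem_univ U))).trans (le_max_left _ _)
  refine ⟨c / 2, min (min g1 1) (min (c / (2 * (2 + Kθ * C))) (c / (2 * C))), by positivity,
    by positivity, ?_⟩
  intro g hg hgg
  have hgg1 : g < g1 := hgg.trans_le ((min_le_left _ _).trans (min_le_left _ _))
  have hgle1 : g ≤ 1 := (hgg.trans_le ((min_le_left _ _).trans (min_le_right _ _))).le
  have hgA : g ≤ c / (2 * (2 + Kθ * C)) :=
    (hgg.trans_le ((min_le_right _ _).trans (min_le_left _ _))).le
  have hgB : g ≤ c / (2 * C) :=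
    (hgg.trans_le ((min_le_right _ _).trans (min_le_right _ _))).le
  obtain ⟨hex1, hex2⟩ := exp_small hc hC hKθ0 hg hgA hgB
  obtain ⟨d, hd, hdF⟩ := hAGM g hg hgg1
  set ε : ℝ := Real.exp (-c / g) with hε
  have hεpos : 0 < ε := Real.exp_pos _
  set d' : ℝ := min d ε with hd'
  have hd'pos : 0 < d' := lt_min hd hεpos
  have hCIG := h2 N n D l G hG B μ g hg
  set E0 : ℝ := glevel D l B μ g 0 with hE0
  -- the function
  obtain ⟨F, ⟨hF, hFg, hFc⟩, hF1, hFE⟩ : ∃ F : (Link D l → G) → ℝ,
      (IsSmooth F ∧ GaugeInv F ∧ CentreInv F) ∧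
      ∫ U, F U ^ 2 ∂(Measure.pi fun _ : Link D l => μ) = 1 ∧ energy B μ g F ≤ E0 + d' := by
    have hne := one_mem μ hG B g (D := D) (l := l)
    have hlt : level D l B μ g 0 < E0 + d' := by rw [hCIG]; linarith
    obtain ⟨E, hE, hElt⟩ := exists_lt_of_csInf_lt hne hlt
    obtain ⟨F, hF, hF1, hFE⟩ := exists_of_mem μ B g E
      (P := fun F => IsSmooth F ∧ GaugeInv F ∧ CentreInv F) hE
    exact ⟨F, hF, hF1, hFE.trans hElt.le⟩
  have hagm := hdF F hF hFg hF1 (hFE.trans (by linarith [min_le_left d ε]))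
  set T : Set (Link D l → G) := {U | δ ≤ tau B U} with hT
  have hTm : MeasurableSet T := (isClosed_le continuous_const hτcont).measurableSet
  set H : (Link D l → G) → ℝ := fun U => Real.cos (θ U) * F U with hH
  have hHs : IsSmooth H := (hθs.comp Real.contDiff_cos).mul hF
  have hHg : GaugeInv H := fun γ U => by simp only [hH]; rw [hθg, hFg]
  have hHc : CentreInv H := fun z hz U => by simp only [hH]; rw [hθc z hz, hFc z hz]
  have hcos0 : ∀ U : Link D l → G, 2 * δ ≤ tau B U → Real.cos (θ U) = 0 := by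
    intro U hU
    have : θ U = Real.pi / 2 := th1_large hδ (by linarith)
    rw [this, Real.cos_pi_div_two]
  have hH0 : ∀ U, 2 * δ ≤ tau B U → H U = 0 := by
    intro U hU
    simp only [hH]
    rw [hcos0 U hU, zero_mul]
  have hH1 : ∀ U, 2 * δ ≤ tau B U → gr B H U = 0 := by
    intro U hU
    unfold gr
    refine Finset.sum_eq_zero fun e _ => Finset.sum_eq_zero fun a _ => ?_
    have e1 : dlink B e a (fun U => Real.cos (θ U)) U = -Real.sin (θ U) * dlink B e a θ U := by
      have := dlink_comp B Real.differentiable_cos hθs e a U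
      rw [this, Real.deriv_cos]
    have e2 : dlink B e a H U = 0 := by
      simp only [hH]
      rw [dlink_mul B (hθs.comp Real.contDiff_cos) hF, e1, hdθ,
        th1_deriv_large hδ (by linarith), hcos0 U hU]
      simp
    rw [e2]; simp
  have hsin_s : IsSmooth fun U => Real.sin (θ U) * F U := (hθs.comp Real.contDiff_sin).mul hF
  -- integrals
  have iF : Integrable (fun U => F U ^ 2) (Measure.pi fun _ : Link D l => μ) :=
    integrable_links μ hG (hF.continuous.pow 2)
  have iH : Integrable (fun U => H U ^ 2) (Measure.pi fun _ : Link D l => μ) :=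
    integrable_links μ hG (hHs.continuous.pow 2)
  have iS : Integrable (fun U => (Real.sin (θ U) * F U) ^ 2) (Measure.pi fun _ : Link D l => μ) :=
    integrable_links μ hG (hsin_s.continuous.pow 2)
  set IH : ℝ := ∫ U, H U ^ 2 ∂(Measure.pi fun _ : Link D l => μ) with hIH
  set IS : ℝ := ∫ U, (Real.sin (θ U) * F U) ^ 2 ∂(Measure.pi fun _ : Link D l => μ) with hIS
  have hsum : IH + IS = 1 := by
    rw [← hF1, hIH, hIS, ← integral_add iH iS]
    refine integral_congr_ae (ae_of_all _ fun U => ?_)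
    simp only [hH]
    have := Real.sin_sq_add_cos_sq (θ U)
    linear_combination F U ^ 2 * this
  have hISle : IS ≤ C * ε := by
    refine le_trans ?_ hagm
    rw [← integral_indicator hTm]
    refine integral_mono iS (iF.indicator hTm) fun U => ?_
    simp only
    by_cases hU : U ∈ T
    · rw [indicator_of_mem hU, mul_pow]
      have := Real.sin_sq_le_one (θ U)
      have h0 := sq_nonneg (F U)
      nlinarith
    · rw [indicator_of_notMem hU]
      have h0 : θ U = 0 := th1_small hδ (le_of_lt (not_le.1 hU))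
      rw [h0, Real.sin_zero]
      simp
  have hgr : ∫ U, gr B θ U * F U ^ 2 ∂(Measure.pi fun _ : Link D l => μ) ≤ Kθ * (C * ε) := by
    refine le_trans ?_ (mul_le_mul_of_nonneg_left hagm hKθ0)
    rw [← integral_indicator hTm, ← integral_const_mul]
    refine integral_mono (integrable_links μ hG ((gr_cont B hθs).mul (hF.continuous.pow 2)))
      ((iF.indicator hTm).const_mul _) fun U => ?_
    simp only
    by_cases hU : U ∈ T
    · rw [indicator_of_mem hU]
      exact mul_le_mul_of_nonneg_right (hgrθ U) (sq_nonneg _)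
    · rw [indicator_of_notMem hU, hgrθ0 U (not_le.1 hU)]
      simp
  have hen := energy_cos μ hG B g hθs hθg hF hFg
  have hEH : energy B μ g H ≤ E0 * IH + d' + g ^ 2 / 2 * (Kθ * (C * ε)) := by
    have e1 : E0 = E0 * IH + E0 * IS := by rw [← mul_add, hsum, mul_one]
    have e2 : g ^ 2 / 2 * (∫ U, gr B θ U * F U ^ 2 ∂(Measure.pi fun _ : Link D l => μ)) ≤
        g ^ 2 / 2 * (Kθ * (C * ε)) := mul_le_mul_of_nonneg_left hgr (by positivity)
    have e3 : energy B μ g H ≤ energy B μ g F +
      g ^ 2 / 2 * (∫ U, gr B θ U * F U ^ 2 ∂(Measure.pi fun _ : Link D l => μ)) - E0 * IS := hen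
    linarith
  have hIHge : 1 / 2 ≤ IH := by linarith
  have hIHpos : 0 < IH := by linarith
  have hquot : energy B μ g H / IH ≤ E0 + (2 + Kθ * C) * ε := by
    rw [div_le_iff₀ hIHpos]
    have e1 : d' ≤ ε := min_le_right _ _
    have e2 : g ^ 2 / 2 * (Kθ * (C * ε)) ≤ 1 / 2 * (Kθ * (C * ε)) := by
      refine mul_le_mul_of_nonneg_right ?_ (by positivity)
      nlinarith
    have e3 : 1 / 2 * ((2 + Kθ * C) * ε) ≤ IH * ((2 + Kθ * C) * ε) :=
      mul_le_mul_of_nonneg_right hIHge (by positivity)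
    have e4 : (E0 + (2 + Kθ * C) * ε) * IH = E0 * IH + IH * ((2 + Kθ * C) * ε) := by ring
    rw [e4]
    have e5 : 1 / 2 * ((2 + Kθ * C) * ε) = ε + 1 / 2 * (Kθ * (C * ε)) := by ring
    linarith
  refine le_trans ?_ (hquot.trans (by linarith))
  -- the family
  have hcard : Fintype.card (Fin D → Subgroup.center G) = Nat.card (Subgroup.center G) ^ D := by
    rw [Fintype.card_fun, Fintype.card_fin, Nat.card_eq_fintype_card]
  have hcpos : 0 < Nat.card (Subgroup.center G) ^ D := by
    rw [← hcard]; exact Fintype.card_pos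
  have hcard' : Fintype.card (Fin D → Subgroup.center G) =
      Nat.card (Subgroup.center G) ^ D - 1 + 1 := by omega
  set K : ℕ := Nat.card (Subgroup.center G) ^ D - 1 with hK
  let eq : Fin (K + 1) ≃ (Fin D → Subgroup.center G) := (Fintype.equivFinOfCardEq hcard').symm
  set m : ℝ := (Fintype.card (Fin D → Subgroup.center G) : ℝ) with hm
  have hmpos : 0 < m := by rw [hm]; exact_mod_cast Fintype.card_pos
  set s : ℝ := Real.sqrt (m / IH) with hs
  have hs2 : s ^ 2 = m / IH := Real.sq_sqrt (by positivity)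
  have hHsq0 : ∀ U, 2 * δ ≤ tau B U → H U ^ 2 = 0 := fun U hU => by rw [hH0 U hU]; simp
  have hHsqc : CentreInv fun U => H U ^ 2 := fun z hz U => by
    show H (centre z U) ^ 2 = H U ^ 2
    rw [hHc z hz]
  have hwsint : ∀ z, ∫ U, H U ^ 2 * ws κ z U ∂(Measure.pi fun _ : Link D l => μ) = IH / m :=
    fun z => hS.int μ hG hκ (hHs.continuous.pow 2) hHsqc hHsq0 z
  refine csInf_le ?_ ?_
  · refine ⟨0, fun E' hE' => ?_⟩
    obtain ⟨Ψ, k1, -, k3⟩ := hE'
    have k4 := k3 (Pi.single 0 1)
    have k5 : 0 ≤ energy B μ g (fun U => ∑ i, (Pi.single 0 1 : Fin (K + 1) → ℝ) i * Ψ i U) :=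
      energy_nonneg μ hG B g (IsSmooth.sum _ fun i _ => (IsSmooth.const _).mul (k1 i).1)
    have k6 : ∑ i, (Pi.single 0 1 : Fin (K + 1) → ℝ) i ^ 2 = 1 := by
      rw [Finset.sum_eq_single 0]
      · simp
      · intro i _ hi
        simp [hi]
      · intro h; exact absurd (Finset.mem_univ _) h
    rw [k6, mul_one] at k4
    exact k5.trans k4
  · refine ⟨fun i U => s * (ws κ (eq i) U * H U), fun i => ⟨?_, ?_⟩, fun i j => ?_, fun b => ?_⟩
    · exact (IsSmooth.const s).mul ((ws_smooth hκ _).mul hHs)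
    · intro γ U
      have e1 : ws κ (eq i) (gauge γ U) = ws κ (eq i) U :=
        gauge_centreInv hκg (iv_mem (eq i)) γ U
      show s * (ws κ (eq i) (gauge γ U) * H (gauge γ U)) = s * (ws κ (eq i) U * H U)
      rw [e1, hHg]
    · by_cases hij : i = j
      · subst hij
        rw [if_pos rfl]
        have e1 : ∀ U, s * (ws κ (eq i) U * H U) * (s * (ws κ (eq i) U * H U)) =
            s ^ 2 * (H U ^ 2 * ws κ (eq i) U) := by
          intro U
          by_cases hU : tau B U < 2 * δ
          · obtain ⟨z0, h0⟩ := hS U hU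
            by_cases hz : eq i = z0
            · rw [(h0 _).1 hz]; ring
            · rw [(h0 _).2 hz]; ring
          · rw [hH0 U (not_lt.1 hU)]; ring
        rw [integral_congr_ae (ae_of_all _ e1), integral_const_mul, hwsint, hs2]
        field_simp
      · rw [if_neg hij]
        have hne : eq i ≠ eq j := fun h => hij (eq.injective h)
        have e1 : ∀ U, s * (ws κ (eq i) U * H U) * (s * (ws κ (eq j) U * H U)) = 0 := by
          intro U
          by_cases hU : tau B U < 2 * δ
          · obtain ⟨z0, h0⟩ := hS U hU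
            by_cases hz : eq i = z0
            · rw [(h0 (eq j)).2 fun h => hne (hz.trans h.symm)]; ring
            · rw [(h0 (eq i)).2 hz]; ring
          · rw [hH0 U (not_lt.1 hU)]; ring
        rw [integral_congr_ae (ae_of_all _ e1), integral_zero]
    · have e1 : (fun U => ∑ i, b i * (s * (ws κ (eq i) U * H U))) =
          fun U => s * ((∑ z, b (eq.symm z) * ws κ z U) * H U) := by
        funext U
        have e2 : ∑ z, b (eq.symm z) * ws κ z U = ∑ i, b i * ws κ (eq i) U := by
          rw [← Equiv.sum_comp eq]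
          refine Finset.sum_congr rfl fun i _ => ?_
          rw [Equiv.symm_apply_apply]
        rw [e2, Finset.sum_mul, Finset.mul_sum]
        refine Finset.sum_congr rfl fun i _ => ?_
        ring
      have hk : IsSmooth fun U => (∑ z, b (eq.symm z) * ws κ z U) * H U :=
        (IsSmooth.sum _ fun z _ => (IsSmooth.const _).mul (ws_smooth hκ z)).mul hHs
      rw [e1, energy_smul μ hG B g s hk,
        hS.energy μ hG hτcont hκ hHs hHc hH0 hH1 g fun z => b (eq.symm z), hs2]
      have e3 : ∑ z, b (eq.symm z) ^ 2 = ∑ i, b i ^ 2 := by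
        rw [← Equiv.sum_comp eq]
        refine Finset.sum_congr rfl fun i _ => ?_
        rw [Equiv.symm_apply_apply]
      rw [e3]
      refine le_of_eq ?_
      have e4 : ∀ x y : ℝ, m / IH * (x / m * y) = x / IH * y := by
        intro x y
        have := hmpos.ne'
        have := hIHpos.ne'
        field_simp
      exact e4 _ _

end

end Pool.Agent.Q222.LU
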