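import Pool.Agent.Q77.LU.StmL
import Pool.Agent.Q77.LU.Base
import Pool.Agent.Q66.LU.PULL
import Pool.Agent.Q65.LU.Basic

/-!
# Project LU: basic facts on the energy form and the centre transformations
-/

set_option autoImplicit false

namespace Pool.Agent.Q222.LU

open Pool.Agent.Q77.LU MeasureTheory Matrix Set Filter Topology
open scoped ContDiff Matrix.Norms.Frobenius

noncomputable section

section

variable {N n D l : ℕ} {G : Subgroup (UU N)} [NeZero l]

/-- the sum of the squares of the derivatives -/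
def gr (B : LieBasis G n) (F : (Link D l → G) → ℝ) (U : Link D l → G) : ℝ :=
  ∑ e, ∑ a, dlink B e a F U ^ 2

theorem gr_nonneg (B : LieBasis G n) (F : (Link D l → G) → ℝ) (U : Link D l → G) :
    0 ≤ gr B F U := Finset.sum_nonneg fun _ _ => Finset.sum_nonneg fun _ _ => sq_nonneg _

theorem gr_cont (B : LieBasis G n) {F : (Link D l → G) → ℝ} (hF : IsSmooth F) :
    Continuous (gr B F) := by
  unfold gr
  exact continuous_finsetSum _ fun e _ => continuous_finsetSum _ fun a _ =>
    ((hF.dlink B e a).continuous).pow 2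

/-- centre transformations are smooth -/
theorem smooth_centre {F : (Link D l → G) → ℝ} (hF : IsSmooth F) (z : Fin D → G) :
    IsSmooth fun U => F (centre z U) := by
  obtain ⟨f, hf, h⟩ := hF
  refine ⟨fun M => f fun e => if e.1 e.2 = -1 then mt (z e.2) * M e else M e, ?_, fun U => ?_⟩
  · refine hf.comp ?_
    refine contDiff_pi.2 fun e => ?_
    by_cases he : e.1 e.2 = -1
    · simp only [he, if_true]
      have h1 : ContDiff ℝ ∞ fun M : Link D l → Mt N => M e := contDiff_apply ℝ (Mt N) e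
      have h2 : ContDiff ℝ ∞ fun X : Mt N => mt (z e.2) * X :=
        (LinearMap.toContinuousLinearMap (LinearMap.mulLeft ℝ (mt (z e.2)))).contDiff
      exact h2.comp h1
    · simp only [he, if_false]
      exact contDiff_apply ℝ (Mt N) e
  · show F (centre z U) = _
    rw [h]
    congr 1
    funext e
    unfold centre
    split_ifs
    · rfl
    · rfl

omit [NeZero l] in
theorem gauge_centreInv {F : (Link D l → G) → ℝ} (hF : GaugeInv F) {z : Fin D → G}
    (hz : ∀ i, z i ∈ Subgroup.center G) : GaugeInv fun U => F (centre z U) := by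
  intro γ U
  show F (centre z (gauge γ U)) = F (centre z U)
  rw [← Pool.Agent.Q65.LU.gauge_centre hz, hF]

omit [NeZero l] in
theorem dlink_centre (B : LieBasis G n) (F : (Link D l → G) → ℝ) {z : Fin D → G}
    (hz : ∀ i, z i ∈ Subgroup.center G) (e : Link D l) (a : Fin n) (U : Link D l → G) :
    dlink B e a (fun U => F (centre z U)) U = dlink B e a F (centre z U) := by
  unfold dlink
  simp only [Pool.Agent.Q66.LU.centre_update z hz]

section integral

variable [MeasurableSpace G] [BorelSpace G] (μ : Measure G) [IsProbabilityMeasure μ]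
  [μ.IsHaarMeasure]

theorem mp_centre (hG : IsClosed (G : Set (UU N))) (z : Fin D → G) :
    MeasurePreserving (centre z : (Link D l → G) → Link D l → G)
      (Measure.pi fun _ : Link D l => μ) (Measure.pi fun _ : Link D l => μ) := by
  have := compactG hG
  have := sctG (G := G)
  have h := measurePreserving_pi (ι := Link D l) (fun _ => μ) (fun _ => μ)
    (f := fun e x => if e.1 e.2 = -1 then z e.2 * x else x) fun e => by
      by_cases he : e.1 e.2 = -1
      · simp only [he, if_true]
        exact measurePreserving_mul_left μ (z e.2)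
      · simp only [he, if_false]
        exact MeasurePreserving.id μ
  exact h

theorem int_centre (hG : IsClosed (G : Set (UU N))) (z : Fin D → G) {F : (Link D l → G) → ℝ}
    (hF : Continuous F) :
    ∫ U, F (centre z U) ∂(Measure.pi fun _ : Link D l => μ) =
      ∫ U, F U ∂(Measure.pi fun _ : Link D l => μ) := by
  have := compactG hG
  have := sctG (G := G)
  have h := mp_centre μ hG (D := D) (l := l) z
  conv_rhs => rw [← h.map_eq]
  rw [integral_map h.measurable.aemeasurable]
  exact hF.aestronglyMeasurable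

theorem energy_eq (hG : IsClosed (G : Set (UU N))) (B : LieBasis G n) (g : ℝ)
    {F : (Link D l → G) → ℝ} (hF : IsSmooth F) :
    energy B μ g F = ∫ U, (g ^ 2 / 2 * gr B F U + 1 / g ^ 2 * (magnetic U * F U ^ 2))
      ∂(Measure.pi fun _ : Link D l => μ) := by
  have hi : ∀ (e : Link D l) (a : Fin n), Integrable (fun U => dlink B e a F U ^ 2)
      (Measure.pi fun _ : Link D l => μ) := fun e a =>
    integrable_links μ hG (((hF.dlink B e a).continuous).pow 2)
  have hm : Continuous fun U : Link D l → G => magnetic U := (smooth_magnetic B).continuous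
  have h1 : Integrable (fun U => gr B F U) (Measure.pi fun _ : Link D l => μ) :=
    integrable_links μ hG (gr_cont B hF)
  have h2 : Integrable (fun U => magnetic U * F U ^ 2) (Measure.pi fun _ : Link D l => μ) :=
    integrable_links μ hG (hm.mul (hF.continuous.pow 2))
  rw [integral_add (h1.const_mul _) (h2.const_mul _), integral_const_mul, integral_const_mul]
  unfold energy gr
  congr 2
  rw [integral_finsetSum]
  · refine Finset.sum_congr rfl fun e _ => ?_
    rw [integral_finsetSum]
    exact fun a _ => hi e a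
  · exact fun e _ => integrable_finsetSum _ fun a _ => hi e a

theorem energy_nonneg (hG : IsClosed (G : Set (UU N))) (B : LieBasis G n) (g : ℝ)
    {F : (Link D l → G) → ℝ} (hF : IsSmooth F) : 0 ≤ energy B μ g F := by
  rw [energy_eq μ hG B g hF]
  refine integral_nonneg fun U => ?_
  have h1 := gr_nonneg B F U
  have h2 := magnetic_nonneg U
  simp only [Pi.zero_apply]
  positivity

theorem energy_smul (hG : IsClosed (G : Set (UU N))) (B : LieBasis G n) (g c : ℝ)
    {F : (Link D l → G) → ℝ} (hF : IsSmooth F) :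
    energy B μ g (fun U => c * F U) = c ^ 2 * energy B μ g F := by
  rw [energy_eq μ hG B g hF, energy_eq μ hG B g ((IsSmooth.const c).mul hF), ← integral_const_mul]
  refine integral_congr_ae (ae_of_all _ fun U => ?_)
  simp only
  have h1 : gr B (fun U => c * F U) U = c ^ 2 * gr B F U := by
    unfold gr
    rw [Finset.mul_sum]
    refine Finset.sum_congr rfl fun e _ => ?_
    rw [Finset.mul_sum]
    refine Finset.sum_congr rfl fun a _ => ?_
    rw [dlink_const_mul B c hF, mul_pow]
  rw [h1]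
  ring

theorem energy_centre (hG : IsClosed (G : Set (UU N))) (B : LieBasis G n) (g : ℝ)
    {F : (Link D l → G) → ℝ} (hF : IsSmooth F) {z : Fin D → G}
    (hz : ∀ i, z i ∈ Subgroup.center G) :
    energy B μ g (fun U => F (centre z U)) = energy B μ g F := by
  rw [energy_eq μ hG B g hF, energy_eq μ hG B g (smooth_centre hF z)]
  have hm : Continuous fun U : Link D l → G => magnetic U := (smooth_magnetic B).continuous
  have hc : Continuous fun U => g ^ 2 / 2 * gr B F U + 1 / g ^ 2 * (magnetic U * F U ^ 2) :=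
    (continuous_const.mul (gr_cont B hF)).add
      (continuous_const.mul (hm.mul (hF.continuous.pow 2)))
  rw [← int_centre μ hG z hc]
  refine integral_congr_ae (ae_of_all _ fun U => ?_)
  simp only
  have h1 : gr B (fun U => F (centre z U)) U = gr B F (centre z U) := by
    unfold gr
    refine Finset.sum_congr rfl fun e _ => Finset.sum_congr rfl fun a _ => ?_
    rw [dlink_centre B F hz]
  have h2 : magnetic (centre z U) = magnetic U := Pool.Agent.Q66.LU.magnetic_centre z hz U
  rw [h1, h2]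

/-! ### the levels -/

/-- the set of the lowest level is determined by Rayleigh quotients -/
theorem glevel_le (hG : IsClosed (G : Set (UU N))) (B : LieBasis G n) (g : ℝ)
    {F : (Link D l → G) → ℝ} (hF : IsSmooth F) (hFg : GaugeInv F) :
    glevel D l B μ g 0 * (∫ U, F U ^ 2 ∂(Measure.pi fun _ : Link D l => μ)) ≤
      energy B μ g F := by
  set I := ∫ U, F U ^ 2 ∂(Measure.pi fun _ : Link D l => μ) with hI
  have hI0 : 0 ≤ I := integral_nonneg fun U => sq_nonneg _
  rcases hI0.eq_or_lt with h0 | h0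
  · rw [← h0, mul_zero]
    exact energy_nonneg μ hG B g hF
  set s : ℝ := (Real.sqrt I)⁻¹ with hs
  have hs2 : s ^ 2 * I = 1 := by
    rw [hs, inv_pow, Real.sq_sqrt h0.le]
    field_simp
  have hmem : energy B μ g F / I ∈ {E : ℝ | ∃ Ψ : Fin (0 + 1) → (Link D l → G) → ℝ,
      (∀ i, IsSmooth (Ψ i) ∧ GaugeInv (Ψ i)) ∧
      (∀ i j, ∫ U, Ψ i U * Ψ j U ∂(Measure.pi fun _ : Link D l => μ) = if i = j then 1 else 0) ∧
      ∀ c : Fin (0 + 1) → ℝ, energy B μ g (fun U => ∑ i, c i * Ψ i U) ≤ E * ∑ i, c i ^ 2} := by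
    refine ⟨fun _ U => s * F U, fun _ => ⟨(IsSmooth.const s).mul hF, fun γ U => ?_⟩, ?_, ?_⟩
    · show s * F (gauge γ U) = s * F U
      rw [hFg]
    · intro i j
      have hij : i = j := Fin.ext (by omega)
      rw [if_pos hij, ← hs2, hI, ← integral_const_mul]
      refine integral_congr_ae (ae_of_all _ fun U => ?_)
      simp only
      ring
    · intro c
      have h1 : (fun U => ∑ i : Fin (0 + 1), c i * (s * F U)) = fun U => (c 0 * s) * F U := by
        funext U
        simp
        ring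
      rw [h1, energy_smul μ hG B g _ hF]
      have h2 : ∑ i : Fin (0 + 1), c i ^ 2 = c 0 ^ 2 := by simp
      rw [h2]
      have h3 : energy B μ g F / I * c 0 ^ 2 = (c 0 * s) ^ 2 * energy B μ g F := by
        have : s ^ 2 = 1 / I := by field_simp; linarith
        rw [mul_pow, this]
        ring
      rw [h3]
  have hbdd : BddBelow {E : ℝ | ∃ Ψ : Fin (0 + 1) → (Link D l → G) → ℝ,
      (∀ i, IsSmooth (Ψ i) ∧ GaugeInv (Ψ i)) ∧
      (∀ i j, ∫ U, Ψ i U * Ψ j U ∂(Measure.pi fun _ : Link D l => μ) = if i = j then 1 else 0) ∧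
      ∀ c : Fin (0 + 1) → ℝ, energy B μ g (fun U => ∑ i, c i * Ψ i U) ≤ E * ∑ i, c i ^ 2} := by
    refine ⟨0, fun E hE => ?_⟩
    obtain ⟨Ψ, h1, -, h3⟩ := hE
    have h4 := h3 fun _ => 1
    have h5 : 0 ≤ energy B μ g (fun U => ∑ i : Fin (0 + 1), (1 : ℝ) * Ψ i U) :=
      energy_nonneg μ hG B g (IsSmooth.sum _ fun i _ => (IsSmooth.const 1).mul (h1 i).1)
    have h6 : ∑ _i : Fin (0 + 1), (1 : ℝ) ^ 2 = 1 := by simp
    rw [h6, mul_one] at h4
    linarith
  have h := csInf_le hbdd hmem
  rw [le_div_iff₀ h0] at h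
  exact h

theorem level_le (hG : IsClosed (G : Set (UU N))) (B : LieBasis G n) (g : ℝ)
    {F : (Link D l → G) → ℝ} (hF : IsSmooth F) (hFg : GaugeInv F) (hFc : CentreInv F) :
    level D l B μ g 0 * (∫ U, F U ^ 2 ∂(Measure.pi fun _ : Link D l => μ)) ≤
      energy B μ g F := by
  set I := ∫ U, F U ^ 2 ∂(Measure.pi fun _ : Link D l => μ) with hI
  have hI0 : 0 ≤ I := integral_nonneg fun U => sq_nonneg _
  rcases hI0.eq_or_lt with h0 | h0
  · rw [← h0, mul_zero]
    exact energy_nonneg μ hG B g hF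
  set s : ℝ := (Real.sqrt I)⁻¹ with hs
  have hs2 : s ^ 2 * I = 1 := by
    rw [hs, inv_pow, Real.sq_sqrt h0.le]
    field_simp
  have hmem : energy B μ g F / I ∈ {E : ℝ | ∃ Ψ : Fin (0 + 1) → (Link D l → G) → ℝ,
      (∀ i, IsSmooth (Ψ i) ∧ GaugeInv (Ψ i) ∧ CentreInv (Ψ i)) ∧
      (∀ i j, ∫ U, Ψ i U * Ψ j U ∂(Measure.pi fun _ : Link D l => μ) = if i = j then 1 else 0) ∧
      ∀ c : Fin (0 + 1) → ℝ, energy B μ g (fun U => ∑ i, c i * Ψ i U) ≤ E * ∑ i, c i ^ 2} := by
    refine ⟨fun _ U => s * F U, fun _ => ⟨(IsSmooth.const s).mul hF, fun γ U => ?_,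
      fun z hz U => ?_⟩, ?_, ?_⟩
    · show s * F (gauge γ U) = s * F U
      rw [hFg]
    · show s * F (centre z U) = s * F U
      rw [hFc z hz]
    · intro i j
      have hij : i = j := Fin.ext (by omega)
      rw [if_pos hij, ← hs2, hI, ← integral_const_mul]
      refine integral_congr_ae (ae_of_all _ fun U => ?_)
      simp only
      ring
    · intro c
      have h1 : (fun U => ∑ i : Fin (0 + 1), c i * (s * F U)) = fun U => (c 0 * s) * F U := by
        funext U
        simp
        ring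
      rw [h1, energy_smul μ hG B g _ hF]
      have h2 : ∑ i : Fin (0 + 1), c i ^ 2 = c 0 ^ 2 := by simp
      rw [h2]
      have h3 : energy B μ g F / I * c 0 ^ 2 = (c 0 * s) ^ 2 * energy B μ g F := by
        have : s ^ 2 = 1 / I := by field_simp; linarith
        rw [mul_pow, this]
        ring
      rw [h3]
  have hbdd : BddBelow {E : ℝ | ∃ Ψ : Fin (0 + 1) → (Link D l → G) → ℝ,
      (∀ i, IsSmooth (Ψ i) ∧ GaugeInv (Ψ i) ∧ CentreInv (Ψ i)) ∧
      (∀ i j, ∫ U, Ψ i U * Ψ j U ∂(Measure.pi fun _ : Link D l => μ) = if i = j then 1 else 0) ∧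
      ∀ c : Fin (0 + 1) → ℝ, energy B μ g (fun U => ∑ i, c i * Ψ i U) ≤ E * ∑ i, c i ^ 2} := by
    refine ⟨0, fun E hE => ?_⟩
    obtain ⟨Ψ, h1, -, h3⟩ := hE
    have h4 := h3 fun _ => 1
    have h5 : 0 ≤ energy B μ g (fun U => ∑ i : Fin (0 + 1), (1 : ℝ) * Ψ i U) :=
      energy_nonneg μ hG B g (IsSmooth.sum _ fun i _ => (IsSmooth.const 1).mul (h1 i).1)
    have h6 : ∑ _i : Fin (0 + 1), (1 : ℝ) ^ 2 = 1 := by simp
    rw [h6, mul_one] at h4
    linarith
  have h := csInf_le hbdd hmem
  rw [le_div_iff₀ h0] at h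
  exact h

omit [BorelSpace G] [IsProbabilityMeasure μ] [μ.IsHaarMeasure] in
/-- an element of the set of the level `0` gives a function -/
theorem exists_of_mem (B : LieBasis G n) (g E : ℝ)
    {P : ((Link D l → G) → ℝ) → Prop} (hE : ∃ Ψ : Fin (0 + 1) → (Link D l → G) → ℝ,
      (∀ i, P (Ψ i)) ∧
      (∀ i j, ∫ U, Ψ i U * Ψ j U ∂(Measure.pi fun _ : Link D l => μ) = if i = j then 1 else 0) ∧
      ∀ c : Fin (0 + 1) → ℝ, energy B μ g (fun U => ∑ i, c i * Ψ i U) ≤ E * ∑ i, c i ^ 2) :
    ∃ F : (Link D l → G) → ℝ, P F ∧ ∫ U, F U ^ 2 ∂(Measure.pi fun _ : Link D l => μ) = 1 ∧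
      energy B μ g F ≤ E := by
  obtain ⟨Ψ, h1, h2, h3⟩ := hE
  refine ⟨Ψ 0, h1 0, ?_, ?_⟩
  · have h4 := h2 0 0
    rw [if_pos rfl] at h4
    rw [← h4]
    refine integral_congr_ae (ae_of_all _ fun U => ?_)
    simp only
    ring
  · have h4 := h3 fun _ => 1
    have h5 : (fun U => ∑ i : Fin (0 + 1), (1 : ℝ) * Ψ i U) = Ψ 0 := by
      funext U; simp
    rw [h5] at h4
    have h6 : ∑ _i : Fin (0 + 1), (1 : ℝ) ^ 2 = 1 := by simp
    rw [h6, mul_one] at h4
    exact h4

/-- the constant function -/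
theorem one_mem (hG : IsClosed (G : Set (UU N))) (B : LieBasis G n) (g : ℝ) :
    ∃ E, ∃ Ψ : Fin (0 + 1) → (Link D l → G) → ℝ,
      (∀ i, IsSmooth (Ψ i) ∧ GaugeInv (Ψ i) ∧ CentreInv (Ψ i)) ∧
      (∀ i j, ∫ U, Ψ i U * Ψ j U ∂(Measure.pi fun _ : Link D l => μ) = if i = j then 1 else 0) ∧
      ∀ c : Fin (0 + 1) → ℝ, energy B μ g (fun U => ∑ i, c i * Ψ i U) ≤ E * ∑ i, c i ^ 2 := by
  refine ⟨energy B μ g (fun _ : Link D l → G => (1 : ℝ)), fun _ _ => 1,
    fun _ => ⟨IsSmooth.const 1, fun _ _ => rfl, fun _ _ _ => rfl⟩, fun i j => ?_, fun c => ?_⟩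
  · rw [if_pos (Fin.ext (by omega))]
    simp
  · have h1 : (fun U : Link D l → G => ∑ i : Fin (0 + 1), c i * (1 : ℝ)) =
        fun U => c 0 * (fun _ : Link D l → G => (1 : ℝ)) U := by
      funext U; simp
    rw [h1, energy_smul μ hG B g _ (IsSmooth.const 1)]
    have h2 : ∑ i : Fin (0 + 1), c i ^ 2 = c 0 ^ 2 := by simp
    rw [h2, mul_comm]

end integral

end

end

end Pool.Agent.Q222.LU
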