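import Pool.Agent.Q222.LU.SEC

/-!
# Project LU, job GM: moments of the Gaussian with a cut-off
-/

set_option autoImplicit false

namespace Pool.Agent.Q222.LU

open Pool.Agent.Q77.LU MeasureTheory Set Filter Topology
open scoped ContDiff

section moments

variable {Q : Type} [Fintype Q]

theorem poly_exp {s x : ℝ} (hs : 0 < s) (hx : 0 ≤ x) :
    (1 + x) ^ 2 ≤ (2 + 4 / s ^ 2) * Real.exp (s * x) := by
  have h1 := Real.quadratic_le_exp_of_nonneg (mul_nonneg hs.le hx)
  have h2 : 0 ≤ s * x := mul_nonneg hs.le hx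
  have h3 : (1 + x) ^ 2 ≤ 2 + 2 * x ^ 2 := by nlinarith [sq_nonneg (x - 1)]
  have h4 : 2 * x ^ 2 = 4 / s ^ 2 * ((s * x) ^ 2 / 2) := by
    field_simp
    ring
  have h5 : 1 ≤ Real.exp (s * x) := Real.one_le_exp h2
  have h6 : (s * x) ^ 2 / 2 ≤ Real.exp (s * x) := by linarith
  have h7 : 4 / s ^ 2 * ((s * x) ^ 2 / 2) ≤ 4 / s ^ 2 * Real.exp (s * x) :=
    mul_le_mul_of_nonneg_left h6 (by positivity)
  rw [add_mul]
  linarith

/-- integrability of functions of polynomial growth -/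
theorem int_poly (om : Q → ℝ) (hom : ∀ i, 0 < om i) (g : ℝ) (hg : 0 < g) (F : (Q → ℝ) → ℝ)
    (hF : Continuous F) (K : ℝ) (hK : ∀ a, |F a| ≤ K * (1 + n2 a) ^ 2) :
    Integrable fun a => F a * gau om g a ^ 2 := by
  obtain ⟨o, ho, -, hoi⟩ := exists_min om hom
  have h1 : Integrable fun a : Q → ℝ => gau (fun _ : Q => o / 2) g a ^ 2 :=
    integrable_gau_sq _ (fun _ => by positivity) g hg
  have hK0 : 0 ≤ K := by
    have h2 := hK 0
    have h3 := n2_nonneg (0 : Q → ℝ)
    have h4 : 0 < (1 + n2 (0 : Q → ℝ)) ^ 2 := by positivity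
    by_contra hneg
    push Not at hneg
    have : K * (1 + n2 (0 : Q → ℝ)) ^ 2 < 0 := mul_neg_of_neg_of_pos hneg h4
    linarith [abs_nonneg (F 0)]
  set c1 : ℝ := cg (fun _ : Q => o / 2) g ^ 2 with hc1
  have hc1pos : 0 < c1 := pow_pos (cg_pos _ (fun _ => by positivity) g hg) 2
  set c2 : ℝ := cg om g ^ 2 with hc2
  have hc2pos : 0 < c2 := pow_pos (cg_pos om hom g hg) 2
  set s : ℝ := o / (2 * g ^ 2) with hs
  have hspos : 0 < s := by positivity
  refine (h1.const_mul (K * (2 + 4 / s ^ 2) * c2 / c1)).mono'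
    (hF.mul ((continuous_gau om g).pow 2)).aestronglyMeasurable (ae_of_all _ fun a => ?_)
  rw [Real.norm_eq_abs, abs_mul, abs_of_nonneg (sq_nonneg (gau om g a)), gau_sq, gau_sq,
    ← hc1, ← hc2]
  have hn := n2_nonneg a
  have e1 : ex (fun _ : Q => o / 2) a = o / 2 * n2 a := by
    unfold ex n2
    rw [Finset.mul_sum]
  have e2 : o * n2 a ≤ ex om a := by
    unfold n2 ex
    rw [Finset.mul_sum]
    exact Finset.sum_le_sum fun i _ => mul_le_mul_of_nonneg_right (hoi i) (sq_nonneg _)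
  have h2 := poly_exp hspos hn
  have h3 : Real.exp (s * n2 a) * Real.exp (-(ex om a) / g ^ 2) ≤
      Real.exp (-(ex (fun _ : Q => o / 2) a) / g ^ 2) := by
    rw [← Real.exp_add, Real.exp_le_exp, e1, hs]
    have h4 : o / (2 * g ^ 2) * n2 a + -(ex om a) / g ^ 2 =
        (o / 2 * n2 a - ex om a) / g ^ 2 := by
      field_simp
      ring
    rw [h4]
    refine div_le_div_of_nonneg_right ?_ (by positivity)
    linarith
  calc |F a| * (c2 * Real.exp (-(ex om a) / g ^ 2))
      ≤ (K * ((2 + 4 / s ^ 2) * Real.exp (s * n2 a))) * (c2 * Real.exp (-(ex om a) / g ^ 2)) := by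
        refine mul_le_mul_of_nonneg_right ?_ (by positivity)
        exact (hK a).trans (mul_le_mul_of_nonneg_left h2 hK0)
    _ = K * (2 + 4 / s ^ 2) * c2 * (Real.exp (s * n2 a) * Real.exp (-(ex om a) / g ^ 2)) := by
        ring
    _ ≤ K * (2 + 4 / s ^ 2) * c2 * Real.exp (-(ex (fun _ : Q => o / 2) a) / g ^ 2) :=
        mul_le_mul_of_nonneg_left h3 (by positivity)
    _ = _ := by field_simp

theorem n2_smul (s : ℝ) (y : Q → ℝ) : n2 (s • y) = s ^ 2 * n2 y := by
  unfold n2
  rw [Finset.mul_sum]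
  refine Finset.sum_congr rfl fun i _ => ?_
  simp [mul_pow]

/-- scaling of the Gaussian measure -/
theorem scale_gau (om : Q → ℝ) (hom : ∀ i, 0 < om i) (g : ℝ) (hg : 0 < g) (F : (Q → ℝ) → ℝ) :
    ∫ a, F a * gau om g a ^ 2 = ∫ b, F (g • b) * gau om 1 b ^ 2 := by
  set R : ℝ := |(g ^ Module.finrank ℝ (Q → ℝ))⁻¹| with hR
  have hRpos : 0 < R := by rw [hR, abs_pos]; positivity
  set r : ℝ := cg om g ^ 2 / cg om 1 ^ 2 with hr
  have hc1 : cg om 1 ≠ 0 := (cg_pos om hom 1 one_pos).ne'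
  have key : ∀ F : (Q → ℝ) → ℝ, r * ∫ b, F (g • b) * gau om 1 b ^ 2 =
      R * ∫ a, F a * gau om g a ^ 2 := by
    intro F
    have h := Measure.integral_comp_smul (volume : Measure (Q → ℝ))
      (fun a : Q → ℝ => F a * gau om g a ^ 2) g
    rw [smul_eq_mul] at h
    rw [hR, ← h, ← integral_const_mul]
    refine integral_congr_ae (ae_of_all _ fun b => ?_)
    simp only
    rw [gau_sq, gau_sq, hr]
    have e1 : ex om (g • b) = g ^ 2 * ex om b := by
      unfold ex
      rw [Finset.mul_sum]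
      refine Finset.sum_congr rfl fun i _ => ?_
      simp
      ring
    have e2 : -(ex om (g • b)) / g ^ 2 = -(ex om b) / 1 ^ 2 := by
      rw [e1]
      field_simp
    rw [e2]
    field_simp
  have h1 := key fun _ => 1
  simp only [one_mul] at h1
  rw [integral_gau_sq om hom 1 one_pos, integral_gau_sq om hom g hg] at h1
  have h2 := key F
  have h3 : r = R := by linarith
  rw [h3] at h2
  exact (mul_left_cancel₀ hRpos.ne' h2).symm

variable [DecidableEq Q]

theorem pd_gau (om : Q → ℝ) (g : ℝ) (i : Q) (y : Q → ℝ) :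
    pd (gau om g) i y = -(om i * y i / g ^ 2) * gau om g y := by
  have h0 : gau om g = fun a => cg om g * Real.exp (-(ex om a / (2 * g ^ 2))) := by
    funext a; exact gau_eq om g a
  have h1 : HasFDerivAt (ex om) (fderiv ℝ (ex om) y) y :=
    (((contDiff_ex om (n := 1)).differentiable one_ne_zero) y).hasFDerivAt
  have h2 := ((h1.mul_const (1 / (2 * g ^ 2))).fun_neg.exp).const_mul (cg om g)
  have h3 : gau om g = fun a => cg om g * Real.exp (-(ex om a * (1 / (2 * g ^ 2)))) := by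
    rw [h0]; funext a; ring_nf
  have h4 : fderiv ℝ (ex om) y (Pi.single i 1) = 2 * om i * y i := pd_ex om i y
  have h5 : fderiv ℝ (gau om g) y = fderiv ℝ
      (fun a => cg om g * Real.exp (-(ex om a * (1 / (2 * g ^ 2))))) y := by rw [← h3]
  unfold pd
  rw [h5, h2.fderiv]
  simp only [smul_apply, neg_apply, smul_eq_mul, h4]
  have h6 : gau om g y = cg om g * Real.exp (-(ex om y * (1 / (2 * g ^ 2)))) := congrFun h3 y
  rw [h6]
  by_cases hg : g = 0
  · subst hg; simp
  · field_simp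

/-- the second moments -/
theorem mom2 (om : Q → ℝ) (hom : ∀ i, 0 < om i) (g : ℝ) (hg : 0 < g) (i : Q) :
    ∫ a : Q → ℝ, a i ^ 2 * gau om g a ^ 2 = g ^ 2 / (2 * om i) := by
  set u : (Q → ℝ) → ℝ := fun a => a i * gau om g a with hu
  have hgd : Differentiable ℝ (gau om g) := (contDiff_gau om g (n := 1)).differentiable one_ne_zero
  have hai : Differentiable ℝ fun a : Q → ℝ => a i := fun a =>
    (hasFDerivAt_apply i a).differentiableAt
  have hud : Differentiable ℝ u := hai.mul hgd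
  have hpu : ∀ a, fderiv ℝ u a (Pi.single i 1) =
      (1 - om i * a i ^ 2 / g ^ 2) * gau om g a := by
    intro a
    have h1 : HasFDerivAt (fun a : Q → ℝ => a i)
      (ContinuousLinearMap.proj i : (Q → ℝ) →L[ℝ] ℝ) a := hasFDerivAt_apply i a
    have h2 := h1.fun_mul (hgd a).hasFDerivAt
    have h3 : fderiv ℝ (gau om g) a (Pi.single i 1) = -(om i * a i / g ^ 2) * gau om g a :=
      pd_gau om g i a
    rw [hu, h2.fderiv]
    simp [h3]
    ring
  have hpg : ∀ a, fderiv ℝ (gau om g) a (Pi.single i 1) = -(om i * a i / g ^ 2) * gau om g a :=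
    fun a => pd_gau om g i a
  have hai1 : ∀ a : Q → ℝ, a i ^ 2 ≤ (1 + n2 a) ^ 2 := fun a => by
    have h1 := sq_le_n2 a i
    have h2 := n2_nonneg a
    nlinarith
  have hai2 : ∀ a : Q → ℝ, |a i| ≤ (1 + n2 a) ^ 2 := fun a => by
    have h1 := sq_le_n2 a i
    have h2 := n2_nonneg a
    rw [abs_le]
    constructor <;> nlinarith [sq_nonneg (a i - 1), sq_nonneg (a i + 1)]
  have hone : ∀ a : Q → ℝ, (1 : ℝ) ≤ (1 + n2 a) ^ 2 := fun a => by
    have h2 := n2_nonneg a
    nlinarith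
  have i0 := integrable_gau_sq om hom g hg
  have iq : Integrable fun a : Q → ℝ => a i ^ 2 * gau om g a ^ 2 :=
    int_poly om hom g hg (fun a => a i ^ 2) (by fun_prop) 1 fun a => by
      rw [abs_of_nonneg (sq_nonneg _), one_mul]; exact hai1 a
  have i1 : Integrable fun a : Q → ℝ => fderiv ℝ u a (Pi.single i 1) * gau om g a := by
    refine (i0.sub (iq.const_mul (om i / g ^ 2))).congr (ae_of_all _ fun a => ?_)
    simp only [Pi.sub_apply]
    rw [hpu]
    ring
  have i2 : Integrable fun a : Q → ℝ => u a * fderiv ℝ (gau om g) a (Pi.single i 1) := by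
    refine (iq.const_mul (-(om i / g ^ 2))).congr (ae_of_all _ fun a => ?_)
    simp only [hu]
    rw [hpg]
    ring
  have i3 : Integrable fun a : Q → ℝ => u a * gau om g a := by
    refine (int_poly om hom g hg (fun a => a i) (by fun_prop) 1 fun a => by
      rw [one_mul]; exact hai2 a).congr (ae_of_all _ fun a => ?_)
    simp only [hu]
    ring
  have h := integral_mul_fderiv_eq_neg_fderiv_mul_of_integrable (μ := volume)
    (v := (Pi.single i 1 : Q → ℝ)) i1 i2 i3 (fun x _ => hud x) (fun x _ => hgd x)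
  have e1 : ∫ a : Q → ℝ, u a * fderiv ℝ (gau om g) a (Pi.single i 1) =
      -(om i / g ^ 2) * ∫ a : Q → ℝ, a i ^ 2 * gau om g a ^ 2 := by
    rw [← integral_const_mul]
    refine integral_congr_ae (ae_of_all _ fun a => ?_)
    simp only [hu]
    rw [hpg]
    ring
  have e2 : ∫ a : Q → ℝ, fderiv ℝ u a (Pi.single i 1) * gau om g a =
      1 - om i / g ^ 2 * ∫ a : Q → ℝ, a i ^ 2 * gau om g a ^ 2 := by
    have h5 : ∫ a : Q → ℝ, fderiv ℝ u a (Pi.single i 1) * gau om g a =
        ∫ a : Q → ℝ, (gau om g a ^ 2 - om i / g ^ 2 * (a i ^ 2 * gau om g a ^ 2)) := by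
      refine integral_congr_ae (ae_of_all _ fun a => ?_)
      simp only
      rw [hpu]
      ring
    rw [h5, integral_sub i0 (iq.const_mul _), integral_const_mul, integral_gau_sq om hom g hg]
  rw [e1, e2] at h
  have h1 := hom i
  set X := ∫ a : Q → ℝ, a i ^ 2 * gau om g a ^ 2
  have h2 : 2 * (om i / g ^ 2 * X) = 1 := by linarith
  field_simp at h2 ⊢
  linarith

end moments

section cut

variable {Q : Type} [Fintype Q]

/-- the cut-off -/
noncomputable def cu (δ : ℝ) (a : Q → ℝ) : ℝ := cutb (4 * n2 a / δ ^ 2)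

theorem cu_nonneg (δ : ℝ) (a : Q → ℝ) : 0 ≤ cu δ a := Real.smoothTransition.nonneg _

theorem cu_le_one (δ : ℝ) (a : Q → ℝ) : cu δ a ≤ 1 := Real.smoothTransition.le_one _

theorem contDiff_cu (δ : ℝ) : ContDiff ℝ ∞ (cu δ : (Q → ℝ) → ℝ) := by
  have h1 : ContDiff ℝ ∞ fun a : Q → ℝ => 2 - 2 * (4 * n2 a / δ ^ 2) := by
    have := contDiff_n2 (Q := Q) (n := ∞)
    fun_prop
  exact (Real.smoothTransition.contDiff (n := ⊤)).comp h1

theorem cu_supp (δ : ℝ) (hδ : 0 < δ) (a : Q → ℝ) (h : cu δ a ≠ 0) : n2 a < (δ / 2) ^ 2 := by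
  by_contra hn
  push Not at hn
  refine h ?_
  unfold cu cutb
  refine Real.smoothTransition.zero_of_nonpos ?_
  have h1 : 1 ≤ 4 * n2 a / δ ^ 2 := by
    rw [le_div_iff₀ (by positivity)]
    nlinarith
  linarith

theorem cu_one (δ : ℝ) (hδ : 0 < δ) (a : Q → ℝ) (h : 8 * n2 a ≤ δ ^ 2) : cu δ a = 1 := by
  unfold cu cutb
  refine Real.smoothTransition.one_of_one_le ?_
  have h1 : 4 * n2 a / δ ^ 2 ≤ 1 / 2 := by
    rw [div_le_iff₀ (by positivity)]
    linarith
  linarith

theorem cu_diff (δ : ℝ) (hδ : 0 < δ) (a : Q → ℝ) : 1 - cu δ a ^ 2 ≤ 8 / δ ^ 2 * n2 a := by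
  by_cases h : 8 * n2 a ≤ δ ^ 2
  · rw [cu_one δ hδ a h]
    have := n2_nonneg a
    have : 0 ≤ 8 / δ ^ 2 * n2 a := by positivity
    linarith
  · push Not at h
    have h1 : 1 ≤ 8 / δ ^ 2 * n2 a := by
      rw [div_mul_eq_mul_div, le_div_iff₀ (by positivity)]
      linarith
    have := sq_nonneg (cu δ a)
    linarith

theorem cu_sq_le (δ : ℝ) (a : Q → ℝ) : cu δ a ^ 2 ≤ 1 := by
  have h1 := cu_nonneg δ a
  have h2 := cu_le_one δ a
  nlinarith

/-- the reflection of a coordinate -/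
theorem odd_int [DecidableEq Q] (i : Q) (F : (Q → ℝ) → ℝ) (hF : Continuous F)
    (h : ∀ a, F (fun k => if k = i then -a k else a k) = -F a) : ∫ a, F a = 0 := by
  have h1 : MeasurePreserving (fun (a : Q → ℝ) (k : Q) => if k = i then -a k else a k) := by
    have h2 := volume_preserving_pi (ι := Q) (α' := fun _ => ℝ) (β' := fun _ => ℝ)
      (f := fun (k : Q) (x : ℝ) => if k = i then -x else x) fun k => by
        by_cases hk : k = i
        · simp only [hk, if_true]
          exact Measure.measurePreserving_neg volume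
        · simp only [hk, if_false]
          exact MeasurePreserving.id volume
    exact h2
  have h2 : ∫ a, F a = ∫ a : Q → ℝ, F (fun k => if k = i then -a k else a k) := by
    conv_lhs => rw [← h1.map_eq]
    rw [integral_map h1.measurable.aemeasurable hF.aestronglyMeasurable]
  rw [integral_congr_ae (ae_of_all _ h), integral_neg] at h2
  linarith

end cut

theorem t_GM : S_GM := by
  intro Q _ _ om δ hom hδ
  have hn2c := continuous_n2 (Q := Q)
  have hnrc := continuous_nr (Q := Q)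
  set So : ℝ := ∑ i, om i with hSo
  have hSo0 : 0 ≤ So := Finset.sum_nonneg fun i _ => (hom i).le
  have homle : ∀ i, om i ≤ So := fun i =>
    Finset.single_le_sum (f := om) (fun i _ => (hom i).le) (Finset.mem_univ i)
  set M2 : ℝ := ∫ b : Q → ℝ, n2 b * gau om 1 b ^ 2 with hM2
  set M3 : ℝ := ∫ b : Q → ℝ, nr b ^ 3 * gau om 1 b ^ 2 with hM3
  set M4 : ℝ := ∫ b : Q → ℝ, n2 b ^ 2 * gau om 1 b ^ 2 with hM4
  have hM2' : 0 ≤ M2 := integral_nonneg fun b => mul_nonneg (n2_nonneg b) (sq_nonneg _)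
  have hM3' : 0 ≤ M3 := integral_nonneg fun b =>
    mul_nonneg (pow_nonneg (nr_nonneg b) 3) (sq_nonneg _)
  have hM4' : 0 ≤ M4 := integral_nonneg fun b => mul_nonneg (sq_nonneg _) (sq_nonneg _)
  -- the gradient of the cut-off
  have hcu1 : ContDiff ℝ 1 (cu δ : (Q → ℝ) → ℝ) := (contDiff_cu δ).of_le (by exact_mod_cast le_top)
  have hcuc : Continuous (cu δ : (Q → ℝ) → ℝ) := hcu1.continuous
  have hcucs : HasCompactSupport (cu δ : (Q → ℝ) → ℝ) := cs_of_ball (cu_supp δ hδ)
  have hg2c : Continuous (g2 (cu δ) : (Q → ℝ) → ℝ) := by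
    unfold g2
    exact continuous_finsetSum _ fun i _ => (Pool.Agent.Q31.LU.pd_cont hcu1 i).pow 2
  have hg2cs : HasCompactSupport (g2 (cu δ) : (Q → ℝ) → ℝ) := by
    refine HasCompactSupport.intro hcucs.isCompact fun x hx => ?_
    unfold g2
    refine Finset.sum_eq_zero fun i _ => ?_
    rw [Pool.Agent.Q31.LU.pd_zero hx]
    simp
  obtain ⟨Ke, hKe⟩ := hg2cs.exists_bound_of_continuous hg2c
  have hKe0 : 0 ≤ Ke := (norm_nonneg _).trans (hKe 0)
  have hKe' : ∀ a : Q → ℝ, g2 (cu δ) a ≤ Ke := fun a => (le_abs_self _).trans (hKe a)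
  set K : ℝ := 8 / δ ^ 2 * M2 + Ke + (So + Ke) + (2 * So ^ 2 * M4 + 2 * Ke * M2) + M2 + M3 +
    8 / δ ^ 2 * M4 with hK
  have q1 : 0 ≤ 8 / δ ^ 2 * M2 := by positivity
  have q2 : 0 ≤ 2 * So ^ 2 * M4 + 2 * Ke * M2 := by positivity
  have q3 : 0 ≤ 8 / δ ^ 2 * M4 := by positivity
  have hK0 : 0 ≤ K := by positivity
  refine ⟨K, hK0, ?_⟩
  intro g hg hg1 G hG
  have hG' : ∀ a, G a = gau om g a * cu δ a := fun a => by rw [hG]; rfl
  have hgau := contDiff_gau om g (n := ∞)
  have hgauc := continuous_gau om g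
  have hGs : ContDiff ℝ ∞ G := by
    have : G = fun a => gau om g a * cu δ a := by funext a; exact hG' a
    rw [this]
    exact hgau.mul (contDiff_cu δ)
  have hG1 : ContDiff ℝ 1 G := hGs.of_le (by exact_mod_cast le_top)
  have hGc : Continuous G := hG1.continuous
  have hGsupp : ∀ a, G a ≠ 0 → n2 a < (δ / 2) ^ 2 := fun a ha => cu_supp δ hδ a (by
    intro h; exact ha (by rw [hG', h, mul_zero]))
  have hGcs : HasCompactSupport G := cs_of_ball hGsupp
  have hGsq : ∀ a, G a ^ 2 = gau om g a ^ 2 * cu δ a ^ 2 := fun a => by rw [hG', mul_pow]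
  have hGsq_le : ∀ a, G a ^ 2 ≤ gau om g a ^ 2 := fun a => by
    rw [hGsq]
    have := mul_le_mul_of_nonneg_left (cu_sq_le δ a) (sq_nonneg (gau om g a))
    rwa [mul_one] at this
  -- integrability of the moments
  have iG : Integrable fun a => gau om g a ^ 2 := integrable_gau_sq om hom g hg
  have i2 : Integrable fun a => n2 a * gau om g a ^ 2 :=
    int_poly om hom g hg n2 hn2c 1 fun a => by
      have := n2_nonneg a
      rw [abs_of_nonneg this]
      nlinarith
  have i3 : Integrable fun a => nr a ^ 3 * gau om g a ^ 2 :=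
    int_poly om hom g hg (fun a => nr a ^ 3) (by fun_prop) 1 fun a => by
      have h1 := nr_nonneg a
      have h2 := nr_sq a
      rw [abs_of_nonneg (by positivity), ← h2]
      nlinarith [sq_nonneg (nr a * (nr a - 1)), mul_nonneg h1 (sq_nonneg (nr a - 1)),
        sq_nonneg (nr a)]
  have i4 : Integrable fun a => n2 a ^ 2 * gau om g a ^ 2 :=
    int_poly om hom g hg (fun a => n2 a ^ 2) (by fun_prop) 1 fun a => by
      have := n2_nonneg a
      rw [abs_of_nonneg (by positivity)]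
      nlinarith
  -- the moments
  have m2 : ∫ a, n2 a * gau om g a ^ 2 = g ^ 2 * M2 := by
    rw [scale_gau om hom g hg, hM2, ← integral_const_mul]
    refine integral_congr_ae (ae_of_all _ fun a => ?_)
    simp only
    rw [n2_smul]
    ring
  have m3 : ∫ a, nr a ^ 3 * gau om g a ^ 2 = g ^ 3 * M3 := by
    rw [scale_gau om hom g hg, hM3, ← integral_const_mul]
    refine integral_congr_ae (ae_of_all _ fun a => ?_)
    simp only
    have : nr (g • a) = g * nr a := by
      unfold nr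
      rw [n2_smul, Real.sqrt_mul (sq_nonneg g), Real.sqrt_sq hg.le]
    rw [this]
    ring
  have m4 : ∫ a, n2 a ^ 2 * gau om g a ^ 2 = g ^ 4 * M4 := by
    rw [scale_gau om hom g hg, hM4, ← integral_const_mul]
    refine integral_congr_ae (ae_of_all _ fun a => ?_)
    simp only
    rw [n2_smul]
    ring
  have iGG : Integrable fun a => G a ^ 2 := by
    have := int_f2 hGc hGcs (continuous_const (y := (1 : ℝ)))
    simpa using this
  have hle1 : ∫ a, G a ^ 2 ≤ 1 := by
    rw [← integral_gau_sq om hom g hg]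
    exact integral_mono iGG iG hGsq_le
  have hmass : 1 - 8 / δ ^ 2 * (g ^ 2 * M2) ≤ ∫ a, G a ^ 2 := by
    rw [← m2, ← integral_const_mul, ← integral_gau_sq om hom g hg,
      ← integral_sub iG (i2.const_mul _)]
    refine integral_mono (iG.sub (i2.const_mul _)) iGG fun a => ?_
    simp only
    rw [hGsq]
    have h1 := mul_le_mul_of_nonneg_left (cu_diff δ hδ a) (sq_nonneg (gau om g a))
    linarith
  -- the energy
  have hh2 : ContDiff ℝ 2 (fun z : Q → ℝ => 1 / 2 * ex om z) :=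
    contDiff_const.mul (contDiff_ex om)
  have jac := Pool.Agent.Q31.LU.t_JAC Q (fun z => 1 / 2 * ex om z) (fun _ => 1) G g hg hh2
    contDiff_const hG1 hGcs
  have hlap : ∀ y, lap (fun z : Q → ℝ => 1 / 2 * ex om z) y = So := by
    intro y
    unfold lap
    refine Finset.sum_congr rfl fun i _ => ?_
    have : pd (fun z : Q → ℝ => 1 / 2 * ex om z) i = fun y => om i * y i := by
      funext y; exact pd_h om i y
    rw [this, pd_lin]
  have hg2h : ∀ y : Q → ℝ, g2 (fun z => 1 / 2 * ex om z) y = ∑ i, om i ^ 2 * y i ^ 2 := by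
    intro y
    unfold g2
    refine Finset.sum_congr rfl fun i _ => ?_
    rw [pd_h, mul_pow]
  have hpd1 : ∀ (i : Q) (y : Q → ℝ), pd (fun _ => (1 : ℝ)) i y = 0 := by
    intro i y
    unfold pd
    simp
  have hcgpos : 0 < cg om g := cg_pos om hom g hg
  have hGexp : (fun z => G z * Real.exp (1 / 2 * ex om z / g ^ 2)) = fun z => cg om g * cu δ z := by
    funext z
    rw [hG', gau_eq]
    have : Real.exp (-(ex om z / (2 * g ^ 2))) * Real.exp (1 / 2 * ex om z / g ^ 2) = 1 := by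
      rw [← Real.exp_add]
      have : -(ex om z / (2 * g ^ 2)) + 1 / 2 * ex om z / g ^ 2 = 0 := by
        field_simp
        ring
      rw [this, Real.exp_zero]
    calc cg om g * Real.exp (-(ex om z / (2 * g ^ 2))) * cu δ z *
          Real.exp (1 / 2 * ex om z / g ^ 2)
        = cg om g * cu δ z * (Real.exp (-(ex om z / (2 * g ^ 2))) *
          Real.exp (1 / 2 * ex om z / g ^ 2)) := by ring
      _ = _ := by rw [this, mul_one]
  have hg2cg : ∀ y : Q → ℝ, g2 (fun z => cg om g * cu δ z) y = cg om g ^ 2 * g2 (cu δ) y := by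
    intro y
    unfold g2
    rw [Finset.mul_sum]
    refine Finset.sum_congr rfl fun i _ => ?_
    rw [pd_const_mul hcu1, mul_pow]
  have hfirst : (∫ y, g ^ 2 / 2 * 1 * Real.exp (-(2 * (1 / 2 * ex om y) / g ^ 2)) *
      g2 (fun z => G z * Real.exp (1 / 2 * ex om z / g ^ 2)) y) ≤ g ^ 2 / 2 * Ke := by
    have e1 : ∀ y, g ^ 2 / 2 * 1 * Real.exp (-(2 * (1 / 2 * ex om y) / g ^ 2)) *
        g2 (fun z => G z * Real.exp (1 / 2 * ex om z / g ^ 2)) y =
        g ^ 2 / 2 * (g2 (cu δ) y * gau om g y ^ 2) := by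
      intro y
      rw [hGexp, hg2cg, gau_sq]
      have : -(2 * (1 / 2 * ex om y) / g ^ 2) = -(ex om y) / g ^ 2 := by ring
      rw [this]
      ring
    simp only [e1]
    rw [integral_const_mul]
    refine mul_le_mul_of_nonneg_left ?_ (by positivity)
    calc ∫ y, g2 (cu δ) y * gau om g y ^ 2 ≤ ∫ y, Ke * gau om g y ^ 2 := by
          refine integral_mono ?_ (iG.const_mul Ke) fun y => ?_
          · refine int_poly om hom g hg _ hg2c Ke fun a => ?_
            refine (hKe a).trans ?_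
            have h2 := n2_nonneg a
            nlinarith [mul_nonneg hKe0 h2, mul_nonneg hKe0 (sq_nonneg (n2 a))]
          · exact mul_le_mul_of_nonneg_right (hKe' y) (sq_nonneg _)
      _ = Ke := by rw [integral_const_mul, integral_gau_sq om hom g hg, mul_one]
  have hqc : Continuous fun a : Q → ℝ => ∑ i, om i ^ 2 * a i ^ 2 := by fun_prop
  have j1 : Integrable fun a => g ^ 2 / 2 * g2 G a := int_g2 hG1 hGcs continuous_const
  have j2 : Integrable fun a => 1 / (2 * g ^ 2) * (∑ i, om i ^ 2 * a i ^ 2) * G a ^ 2 :=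
    int_f2 hGc hGcs (continuous_const.mul hqc)
  have henergy : ∫ a, (g ^ 2 / 2 * g2 G a + 1 / (2 * g ^ 2) * (∑ i, om i ^ 2 * a i ^ 2) *
      G a ^ 2) ≤ 1 / 2 * So + g ^ 2 / 2 * Ke := by
    rw [integral_add j1 j2]
    have e1 : (∫ a, g ^ 2 / 2 * g2 G a) = ∫ y, g ^ 2 / 2 * 1 * g2 G y := by
      simp only [mul_one]
    rw [e1, jac]
    have e2 : (∫ y, (1 / 2 * (1 * lap (fun z : Q → ℝ => 1 / 2 * ex om z) y +
        ∑ i, pd (fun _ => (1 : ℝ)) i y * pd (fun z : Q → ℝ => 1 / 2 * ex om z) i y) -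
        1 / (2 * g ^ 2) * (1 * g2 (fun z : Q → ℝ => 1 / 2 * ex om z) y)) * G y ^ 2) =
        1 / 2 * So * (∫ y, G y ^ 2) -
          ∫ a, 1 / (2 * g ^ 2) * (∑ i, om i ^ 2 * a i ^ 2) * G a ^ 2 := by
      rw [← integral_const_mul, ← integral_sub (iGG.const_mul _) j2]
      refine integral_congr_ae (ae_of_all _ fun a => ?_)
      simp only
      rw [hlap, hg2h]
      simp only [hpd1, zero_mul, Finset.sum_const_zero]
      ring
    rw [e2]
    have e3 : 1 / 2 * So * (∫ y, G y ^ 2) ≤ 1 / 2 * So * 1 :=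
      mul_le_mul_of_nonneg_left hle1 (by positivity)
    linarith
  have hg2pos : 0 < g ^ 2 := by positivity
  have hgle1 : g ^ 2 ≤ 1 := by nlinarith
  have hj2n : 0 ≤ ∫ a, 1 / (2 * g ^ 2) * (∑ i, om i ^ 2 * a i ^ 2) * G a ^ 2 := by
    refine integral_nonneg fun a => ?_
    simp only [Pi.zero_apply]
    have : 0 ≤ ∑ i, om i ^ 2 * a i ^ 2 := Finset.sum_nonneg fun i _ => by positivity
    positivity
  have hgrad : g ^ 2 / 2 * (∫ a, g2 G a) ≤ 1 / 2 * So + g ^ 2 / 2 * Ke := by
    rw [← integral_const_mul]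
    rw [integral_add j1 j2] at henergy
    linarith
  -- weighted gradient
  have hpG : ∀ (i : Q) (y : Q → ℝ), pd G i y =
      -(om i * y i / g ^ 2) * gau om g y * cu δ y + gau om g y * pd (cu δ) i y := by
    intro i y
    have h1 : G = fun a => gau om g a * cu δ a := by funext a; exact hG' a
    rw [h1, Pool.Agent.Q31.LU.pd_mul (contDiff_gau om g) hcu1, pd_gau]
  have hg2G : ∀ y : Q → ℝ, g2 G y ≤ (2 * So ^ 2 / g ^ 4 * n2 y + 2 * Ke) * gau om g y ^ 2 := by
    intro y
    have h1 : ∀ i, pd G i y ^ 2 ≤ (2 * So ^ 2 / g ^ 4 * y i ^ 2) * gau om g y ^ 2 +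
        2 * pd (cu δ) i y ^ 2 * gau om g y ^ 2 := by
      intro i
      rw [hpG]
      set A := -(om i * y i / g ^ 2) * gau om g y * cu δ y
      set B := gau om g y * pd (cu δ) i y
      have h2 : (A + B) ^ 2 ≤ 2 * A ^ 2 + 2 * B ^ 2 := by nlinarith [sq_nonneg (A - B)]
      have h3 : A ^ 2 = om i ^ 2 * y i ^ 2 / g ^ 4 * gau om g y ^ 2 * cu δ y ^ 2 := by
        simp only [A]
        field_simp
      have h4 : om i ^ 2 * y i ^ 2 / g ^ 4 * gau om g y ^ 2 * cu δ y ^ 2 ≤
          So ^ 2 / g ^ 4 * y i ^ 2 * gau om g y ^ 2 := by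
        have h5 : om i ^ 2 * y i ^ 2 / g ^ 4 * gau om g y ^ 2 * cu δ y ^ 2 ≤
            om i ^ 2 * y i ^ 2 / g ^ 4 * gau om g y ^ 2 * 1 :=
          mul_le_mul_of_nonneg_left (cu_sq_le δ y) (by positivity)
        have h6 : om i ^ 2 ≤ So ^ 2 := pow_le_pow_left₀ (hom i).le (homle i) 2
        have h7 : om i ^ 2 * (y i ^ 2 / g ^ 4 * gau om g y ^ 2) ≤
            So ^ 2 * (y i ^ 2 / g ^ 4 * gau om g y ^ 2) :=
          mul_le_mul_of_nonneg_right h6 (by positivity)
        have h8 : om i ^ 2 * y i ^ 2 / g ^ 4 * gau om g y ^ 2 * 1 =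
            om i ^ 2 * (y i ^ 2 / g ^ 4 * gau om g y ^ 2) := by ring
        have h9 : So ^ 2 / g ^ 4 * y i ^ 2 * gau om g y ^ 2 =
            So ^ 2 * (y i ^ 2 / g ^ 4 * gau om g y ^ 2) := by ring
        rw [h9]
        linarith
      have h10 : B ^ 2 = pd (cu δ) i y ^ 2 * gau om g y ^ 2 := by
        simp only [B]; ring
      rw [h3, h10] at h2
      have h11 : (2 * So ^ 2 / g ^ 4 * y i ^ 2) * gau om g y ^ 2 =
          2 * (So ^ 2 / g ^ 4 * y i ^ 2 * gau om g y ^ 2) := by ring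
      rw [h11]
      linarith
    calc g2 G y = ∑ i, pd G i y ^ 2 := rfl
      _ ≤ ∑ i, ((2 * So ^ 2 / g ^ 4 * y i ^ 2) * gau om g y ^ 2 +
          2 * pd (cu δ) i y ^ 2 * gau om g y ^ 2) := Finset.sum_le_sum fun i _ => h1 i
      _ = 2 * So ^ 2 / g ^ 4 * n2 y * gau om g y ^ 2 +
          2 * g2 (cu δ) y * gau om g y ^ 2 := by
          rw [Finset.sum_add_distrib, ← Finset.sum_mul, ← Finset.mul_sum, ← Finset.sum_mul,
            ← Finset.mul_sum]
          rfl
      _ ≤ 2 * So ^ 2 / g ^ 4 * n2 y * gau om g y ^ 2 + 2 * Ke * gau om g y ^ 2 := by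
          have h2 := mul_le_mul_of_nonneg_right (hKe' y) (sq_nonneg (gau om g y))
          linarith
      _ = _ := by ring
  have hwgrad : ∫ a, n2 a * g2 G a ≤ 2 * So ^ 2 * M4 + 2 * Ke * M2 := by
    have h1 : ∫ a, n2 a * g2 G a ≤ ∫ a, (2 * So ^ 2 / g ^ 4 * (n2 a ^ 2 * gau om g a ^ 2) +
        2 * Ke * (n2 a * gau om g a ^ 2)) := by
      refine integral_mono (int_g2 hG1 hGcs hn2c) ((i4.const_mul _).add (i2.const_mul _))
        fun a => ?_
      have h2 := mul_le_mul_of_nonneg_left (hg2G a) (n2_nonneg a)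
      simp only
      calc n2 a * g2 G a ≤ n2 a * ((2 * So ^ 2 / g ^ 4 * n2 a + 2 * Ke) * gau om g a ^ 2) := h2
        _ = _ := by ring
    rw [integral_add (i4.const_mul _) (i2.const_mul _), integral_const_mul, integral_const_mul,
      m4, m2] at h1
    have h2 : 2 * So ^ 2 / g ^ 4 * (g ^ 4 * M4) = 2 * So ^ 2 * M4 := by field_simp
    rw [h2] at h1
    have h3 : 2 * Ke * (g ^ 2 * M2) ≤ 2 * Ke * (1 * M2) := by gcongr
    linarith
  refine ⟨hGs, hGcs, ?_, hle1, ?_, ?_, ?_, ?_, ?_, ?_, ?_⟩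
  · refine le_trans ?_ hmass
    have h1 : 8 / δ ^ 2 * M2 * g ^ 2 ≤ K * g ^ 2 := by
      refine mul_le_mul_of_nonneg_right ?_ hg2pos.le
      rw [hK]; linarith
    linarith
  · refine henergy.trans ?_
    have h1 : Ke * g ^ 2 ≤ K * g ^ 2 := by
      refine mul_le_mul_of_nonneg_right ?_ hg2pos.le
      rw [hK]; linarith
    have h2 : 0 ≤ Ke * g ^ 2 := by positivity
    linarith
  · rw [le_div_iff₀ hg2pos]
    have h1 : Ke * g ^ 2 ≤ Ke * 1 := mul_le_mul_of_nonneg_left hgle1 hKe0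
    have h2 : So + Ke ≤ K := by rw [hK]; linarith
    linarith
  · refine hwgrad.trans ?_
    rw [hK]; linarith
  · calc ∫ a, n2 a * G a ^ 2 ≤ ∫ a, n2 a * gau om g a ^ 2 :=
          integral_mono (int_f2 hGc hGcs hn2c) i2 fun a =>
            mul_le_mul_of_nonneg_left (hGsq_le a) (n2_nonneg a)
      _ = M2 * g ^ 2 := by rw [m2]; ring
      _ ≤ K * g ^ 2 := by
          refine mul_le_mul_of_nonneg_right ?_ hg2pos.le
          rw [hK]; linarith
  · calc ∫ a, nr a ^ 3 * G a ^ 2 ≤ ∫ a, nr a ^ 3 * gau om g a ^ 2 :=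
          integral_mono (int_f2 hGc hGcs (hnrc.pow 3)) i3 fun a =>
            mul_le_mul_of_nonneg_left (hGsq_le a) (pow_nonneg (nr_nonneg a) 3)
      _ = M3 * g ^ 3 := by rw [m3]; ring
      _ ≤ K * g ^ 3 := by
          refine mul_le_mul_of_nonneg_right ?_ (by positivity)
          rw [hK]; linarith
  · intro i j hij
    refine odd_int i _ (by fun_prop) fun a => ?_
    set b : Q → ℝ := fun k => if k = i then -a k else a k with hb
    have hsq : ∀ k, b k ^ 2 = a k ^ 2 := by
      intro k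
      simp only [hb]
      by_cases hk : k = i
      · simp [hk]
      · simp [hk]
    have h1 : n2 b = n2 a := by
      unfold n2
      exact Finset.sum_congr rfl fun k _ => hsq k
    have h2 : ex om b = ex om a := by
      unfold ex
      exact Finset.sum_congr rfl fun k _ => by rw [hsq]
    have h3 : G b ^ 2 = G a ^ 2 := by
      rw [hGsq, hGsq, gau_sq, gau_sq, h2]
      unfold cu
      rw [h1]
    have h4 : b i = -a i := by simp [hb]
    have h5 : b j = a j := by simp [hb, Ne.symm hij]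
    rw [h3, h4, h5]
    ring
  · intro i
    have hai : ∀ a : Q → ℝ, a i ^ 2 ≤ (1 + n2 a) ^ 2 := fun a => by
      have h1 := sq_le_n2 a i
      have h2 := n2_nonneg a
      nlinarith
    have ii : Integrable fun a : Q → ℝ => a i ^ 2 * gau om g a ^ 2 :=
      int_poly om hom g hg (fun a => a i ^ 2) (by fun_prop) 1 fun a => by
        rw [abs_of_nonneg (sq_nonneg _), one_mul]; exact hai a
    have iG2 : Integrable fun a : Q → ℝ => a i ^ 2 * G a ^ 2 :=
      int_f2 hGc hGcs (w := fun a : Q → ℝ => a i ^ 2) (by fun_prop)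
    have e1 : (∫ a : Q → ℝ, a i ^ 2 * G a ^ 2) - g ^ 2 / (2 * om i) =
        -(∫ a : Q → ℝ, a i ^ 2 * gau om g a ^ 2 * (1 - cu δ a ^ 2)) := by
      rw [← mom2 om hom g hg i, ← integral_sub iG2 ii, ← integral_neg]
      refine integral_congr_ae (ae_of_all _ fun a => ?_)
      simp only
      rw [hGsq]
      ring
    have h0 : 0 ≤ ∫ a : Q → ℝ, a i ^ 2 * gau om g a ^ 2 * (1 - cu δ a ^ 2) := by
      refine integral_nonneg fun a => ?_
      simp only [Pi.zero_apply]
      have := cu_sq_le δ a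
      have h1 : 0 ≤ 1 - cu δ a ^ 2 := by linarith
      positivity
    rw [e1, abs_neg, abs_of_nonneg h0]
    have h1 : ∫ a : Q → ℝ, a i ^ 2 * gau om g a ^ 2 * (1 - cu δ a ^ 2) ≤
        ∫ a : Q → ℝ, 8 / δ ^ 2 * (n2 a ^ 2 * gau om g a ^ 2) := by
      refine integral_mono ?_ (i4.const_mul _) fun a => ?_
      · refine (ii.sub iG2).congr (ae_of_all _ fun a => ?_)
        simp only [Pi.sub_apply]
        rw [hGsq]
        ring
      · simp only
        have h2 := cu_diff δ hδ a
        have h3 := sq_le_n2 a i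
        have h4 := n2_nonneg a
        calc a i ^ 2 * gau om g a ^ 2 * (1 - cu δ a ^ 2)
            ≤ a i ^ 2 * gau om g a ^ 2 * (8 / δ ^ 2 * n2 a) :=
              mul_le_mul_of_nonneg_left h2 (by positivity)
          _ = 8 / δ ^ 2 * (a i ^ 2 * (n2 a * gau om g a ^ 2)) := by ring
          _ ≤ 8 / δ ^ 2 * (n2 a * (n2 a * gau om g a ^ 2)) := by
              refine mul_le_mul_of_nonneg_left ?_ (by positivity)
              exact mul_le_mul_of_nonneg_right h3 (by positivity)
          _ = _ := by ring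
    refine h1.trans ?_
    rw [integral_const_mul, m4]
    have h5 : 8 / δ ^ 2 * (g ^ 4 * M4) = 8 / δ ^ 2 * M4 * g ^ 4 := by ring
    rw [h5]
    refine mul_le_mul_of_nonneg_right ?_ (by positivity)
    rw [hK]; linarith

end Pool.Agent.Q222.LU
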