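import Pool.Agent.Q222.LU.Gau
import Pool.Agent.Q81.Har4

/-!
# Project LU, job GP: the Gaussian Poincare inequality, anisotropic form
-/

set_option autoImplicit false

namespace Pool.Agent.Q222.LU

open Pool.Agent.Q77.LU MeasureTheory Set Filter Topology
open scoped ContDiff

/-- integral of the composition with a linear isomorphism -/
theorem integral_comp_lin {Q : Type} [Fintype Q] {n : ℕ} (L : (Fin n → ℝ) ≃L[ℝ] (Q → ℝ)) :
    ∃ c : ℝ, 0 < c ∧ ∀ F : (Q → ℝ) → ℝ, ∫ y, F (L y) = c * ∫ a, F a := by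
  have hH : ((volume : Measure (Fin n → ℝ)).map L).IsAddHaarMeasure :=
    L.isAddHaarMeasure_map volume
  refine ⟨Measure.addHaarScalarFactor ((volume : Measure (Fin n → ℝ)).map L) volume, ?_, ?_⟩
  · exact_mod_cast Measure.addHaarScalarFactor_pos_of_isAddHaarMeasure _ _
  · intro F
    have h1 : ∫ y, F (L y) = ∫ a, F a ∂((volume : Measure (Fin n → ℝ)).map L) :=
      ((L.toHomeomorph.measurableEmbedding).integral_map F).symm
    have h2 := Measure.isAddLeftInvariant_eq_smul ((volume : Measure (Fin n → ℝ)).map L) volume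
    have h3 : ∫ a, F a ∂((volume : Measure (Fin n → ℝ)).map L) =
        ∫ a, F a ∂((Measure.addHaarScalarFactor ((volume : Measure (Fin n → ℝ)).map L)
          volume) • (volume : Measure (Q → ℝ))) := congrArg (fun m => ∫ a, F a ∂m) h2
    rw [h1, h3, integral_smul_nnreal_measure]
    rfl

/-- the diagonal map with reindexing -/
noncomputable def dia {Q : Type} [Fintype Q] (l : Q → ℝ) (hl : ∀ i, l i ≠ 0) :
    (Fin (Fintype.card Q) → ℝ) ≃L[ℝ] (Q → ℝ) :=
  LinearEquiv.toContinuousLinearEquiv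
    { toFun := fun y i => l i * y (Fintype.equivFin Q i)
      map_add' := fun x y => by funext i; simp [mul_add]
      map_smul' := fun c x => by funext i; simp; ring
      invFun := fun a j => (l ((Fintype.equivFin Q).symm j))⁻¹ * a ((Fintype.equivFin Q).symm j)
      left_inv := fun y => by funext j; simp [hl]
      right_inv := fun a => by funext i; simp [hl] }

theorem dia_apply {Q : Type} [Fintype Q] (l : Q → ℝ) (hl : ∀ i, l i ≠ 0)
    (y : Fin (Fintype.card Q) → ℝ) (i : Q) : dia l hl y i = l i * y (Fintype.equivFin Q i) := rfl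

theorem dia_single {Q : Type} [Fintype Q] [DecidableEq Q] (l : Q → ℝ) (hl : ∀ i, l i ≠ 0)
    (i : Q) : dia l hl (Pi.single (Fintype.equivFin Q i) 1) = l i • Pi.single i 1 := by
  funext j
  rw [dia_apply]
  by_cases h : j = i
  · subst h; simp
  · simp [h]

/-- The anisotropic inequality with unnormalised weight. -/
theorem poin_w {Q : Type} [Fintype Q] [DecidableEq Q] (om : Q → ℝ) (o g : ℝ)
    (ho : 0 < o) (hom : ∀ i, o ≤ om i) (hg : 0 < g) (φ : (Q → ℝ) → ℝ) (hφ : ContDiff ℝ 1 φ)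
    (hc : HasCompactSupport φ) :
    (∫ a : Q → ℝ, Real.exp (-(ex om a) / g ^ 2)) *
        (∫ a, φ a ^ 2 * Real.exp (-(ex om a) / g ^ 2)) -
      (∫ a, φ a * Real.exp (-(ex om a) / g ^ 2)) ^ 2 ≤
    (∫ a : Q → ℝ, Real.exp (-(ex om a) / g ^ 2)) * (g ^ 2 / (2 * o) *
      ∫ a, Real.exp (-(ex om a) / g ^ 2) * g2 φ a) := by
  have hom' : ∀ i, 0 < om i := fun i => ho.trans_le (hom i)
  set l : Q → ℝ := fun i => g / Real.sqrt (om i) with hl
  have hlpos : ∀ i, 0 < l i := fun i => div_pos hg (Real.sqrt_pos.2 (hom' i))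
  have hl0 : ∀ i, l i ≠ 0 := fun i => (hlpos i).ne'
  have hlsq : ∀ i, l i ^ 2 = g ^ 2 / om i := fun i => by
    rw [hl]; simp only; rw [div_pow, Real.sq_sqrt (hom' i).le]
  set L := dia l hl0 with hL
  obtain ⟨c, hcpos, hint⟩ := integral_comp_lin L
  set w : (Q → ℝ) → ℝ := fun a => Real.exp (-(ex om a) / g ^ 2) with hw
  have hgn : ∀ y : Fin (Fintype.card Q) → ℝ, Q81.Har.gn 1 y = w (L y) := by
    intro y
    unfold Q81.Har.gn Q81.Har.ga
    rw [← Real.exp_sum, hw]
    simp only
    congr 1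
    unfold ex
    rw [← Finset.sum_neg_distrib, Finset.sum_div]
    rw [← Equiv.sum_comp (Fintype.equivFin Q)]
    refine Finset.sum_congr rfl fun i _ => ?_
    rw [hL, dia_apply, mul_pow, hlsq]
    have h1 := (hom' i).ne'
    have h2 := hg.ne'
    field_simp
  -- the function on Fin n
  set ψ : (Fin (Fintype.card Q) → ℝ) → ℝ := fun y => φ (L y) with hψ
  have hψ1 : ContDiff ℝ 1 ψ := hφ.comp L.contDiff
  have hψc : HasCompactSupport ψ := hc.comp_homeomorph L.toHomeomorph
  obtain ⟨K1, hK1⟩ := hψc.exists_bound_of_continuous hψ1.continuous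
  obtain ⟨K2, hK2⟩ := (hψc.fderiv ℝ).exists_bound_of_continuous
    (hψ1.continuous_fderiv one_ne_zero)
  have hBd : Q81.Har.Bd (max K1 K2) ψ :=
    ⟨hψ1, fun y => (hK1 y).trans (le_max_left _ _), fun y => (hK2 y).trans (le_max_right _ _)⟩
  have key := Q81.Har.gauss_n one_pos (Fintype.card Q) ψ hBd
  have hpd : ∀ y, ∑ j, Q81.Har.pd ψ j y ^ 2 = ∑ i, l i ^ 2 * pd φ i (L y) ^ 2 := by
    intro y
    rw [← Equiv.sum_comp (Fintype.equivFin Q)]
    refine Finset.sum_congr rfl fun i _ => ?_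
    have h1 : HasFDerivAt ψ ((fderiv ℝ φ (L y)).comp (L : (Fin (Fintype.card Q) → ℝ) →L[ℝ] (Q → ℝ)))
        y := ((hφ.differentiable one_ne_zero) _).hasFDerivAt.comp y L.hasFDerivAt
    unfold Q81.Har.pd pd
    rw [h1.fderiv, ContinuousLinearMap.comp_apply]
    have h2 : (L : (Fin (Fintype.card Q) → ℝ) →L[ℝ] (Q → ℝ)) (Pi.single (Fintype.equivFin Q i) 1) =
        l i • Pi.single i 1 := dia_single l hl0 i
    rw [h2, map_smul, smul_eq_mul, mul_pow]
  simp only [hpd, hgn] at key
  have hZ : Q81.Har.Zg 1 ^ Fintype.card Q = c * ∫ a, w a := by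
    rw [← Q81.Har.integral_gn]
    simp only [hgn]
    exact hint w
  rw [hZ] at key
  have e1 := hint fun a => φ a ^ 2 * w a
  have e2 := hint fun a => φ a * w a
  have e3 := hint fun a => (∑ i, l i ^ 2 * pd φ i a ^ 2) * w a
  have e1' : ∫ y, ψ y ^ 2 * w (L y) = c * ∫ a, φ a ^ 2 * w a := e1
  have e2' : ∫ y, ψ y * w (L y) = c * ∫ a, φ a * w a := e2
  rw [e1', e2', e3] at key
  set M := ∫ a, w a with hM
  have hMpos : 0 ≤ M := integral_nonneg fun a => (Real.exp_pos _).le
  have hpc : ∀ i, Continuous (pd φ i) := fun i =>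
    (hφ.continuous_fderiv one_ne_zero).clm_apply continuous_const
  have hpcs : ∀ i, HasCompactSupport (pd φ i) := fun i =>
    (hc.fderiv ℝ).mono' (by
      intro x hx
      by_contra h
      have : fderiv ℝ φ x = 0 := by
        by_contra h'
        exact h (subset_tsupport _ h')
      exact hx (by simp [pd, this]))
  have hwc : Continuous w := by
    have : Continuous (ex om) := (contDiff_ex om (n := 1)).continuous
    fun_prop
  have hi : ∀ r : Q → ℝ, Integrable fun a => (∑ i, r i * pd φ i a ^ 2) * w a := by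
    intro r
    have h1 : (fun a => (∑ i, r i * pd φ i a ^ 2) * w a) =
        fun a => ∑ i, (r i * pd φ i a ^ 2) * w a := by
      funext a; rw [Finset.sum_mul]
    rw [h1]
    refine integrable_finsetSum _ fun i _ => ?_
    refine Continuous.integrable_of_hasCompactSupport ?_ ?_
    · exact (continuous_const.mul ((hpc i).pow 2)).mul hwc
    · refine HasCompactSupport.mul_right ?_
      refine HasCompactSupport.mul_left ?_
      have : (fun a => pd φ i a ^ 2) = fun a => pd φ i a * pd φ i a := by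
        funext a; ring
      rw [this]
      exact (hpcs i).mul_left
  have hle : ∫ a, (∑ i, l i ^ 2 * pd φ i a ^ 2) * w a ≤ g ^ 2 / o * ∫ a, w a * g2 φ a := by
    rw [← integral_const_mul]
    refine integral_mono (hi _) ?_ fun a => ?_
    · have := hi fun _ => g ^ 2 / o
      refine this.congr (ae_of_all _ fun a => ?_)
      simp only [g2, ← Finset.mul_sum]
      ring
    · simp only
      have h1 : ∑ i, l i ^ 2 * pd φ i a ^ 2 ≤ g ^ 2 / o * g2 φ a := by
        unfold g2
        rw [Finset.mul_sum]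
        refine Finset.sum_le_sum fun i _ => ?_
        rw [hlsq]
        refine mul_le_mul_of_nonneg_right ?_ (sq_nonneg _)
        exact div_le_div_of_nonneg_left (sq_nonneg g) ho (hom i)
      have h2 := mul_le_mul_of_nonneg_right h1 (Real.exp_pos (-(ex om a) / g ^ 2)).le
      calc (∑ i, l i ^ 2 * pd φ i a ^ 2) * w a ≤ g ^ 2 / o * g2 φ a * w a := h2
        _ = _ := by ring
  have hc2 : 0 < c ^ 2 := by positivity
  refine le_of_mul_le_mul_left ?_ hc2
  calc c ^ 2 * (M * (∫ a, φ a ^ 2 * w a) - (∫ a, φ a * w a) ^ 2)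
      = c * M * (c * ∫ a, φ a ^ 2 * w a) - (c * ∫ a, φ a * w a) ^ 2 := by ring
    _ ≤ c * M / (2 * 1) * (c * ∫ a, (∑ i, l i ^ 2 * pd φ i a ^ 2) * w a) := key
    _ ≤ c * M / (2 * 1) * (c * (g ^ 2 / o * ∫ a, w a * g2 φ a)) := by
        refine mul_le_mul_of_nonneg_left ?_ (by positivity)
        exact mul_le_mul_of_nonneg_left hle hcpos.le
    _ = c ^ 2 * (M * (g ^ 2 / (2 * o) * ∫ a, w a * g2 φ a)) := by
        field_simp

theorem t_GP : S_GP := by
  intro Q _ _ om o g ho hom hg f hf hs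
  have hom' : ∀ i, 0 < om i := fun i => ho.trans_le (hom i)
  set φ : (Q → ℝ) → ℝ := fun z => f z * Real.exp ((∑ i, om i * z i ^ 2) / (2 * g ^ 2)) with hφ
  have hφ1 : ContDiff ℝ 1 φ := by
    refine hf.mul ?_
    exact ((contDiff_ex om).div_const _).exp
  have hφc : HasCompactSupport φ := hs.mul_right
  have key := poin_w om o g ho hom hg φ hφ1 hφc
  set w : (Q → ℝ) → ℝ := fun a => Real.exp (-(ex om a) / g ^ 2) with hw
  have hgw : ∀ a, gau om g a ^ 2 = cg om g ^ 2 * w a := fun a => gau_sq om g a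
  have hM : cg om g ^ 2 * ∫ a, w a = 1 := by
    rw [← integral_const_mul, ← integral_gau_sq om hom' g hg]
    exact integral_congr_ae (ae_of_all _ fun a => (hgw a).symm)
  have e1 : ∀ a, φ a ^ 2 * w a = f a ^ 2 := by
    intro a
    rw [hφ, hw]
    simp only
    rw [mul_pow, ← Real.exp_nat_mul, mul_assoc, ← Real.exp_add]
    have : (2 : ℕ) * ((∑ i, om i * a i ^ 2) / (2 * g ^ 2)) + -(ex om a) / g ^ 2 = 0 := by
      unfold ex
      push_cast
      field_simp
      ring
    rw [this, Real.exp_zero, mul_one]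
  have e2 : ∀ a, f a * gau om g a = cg om g * (φ a * w a) := by
    intro a
    rw [gau_eq, hφ, hw]
    simp only
    have : Real.exp (-(ex om a / (2 * g ^ 2))) =
        Real.exp ((∑ i, om i * a i ^ 2) / (2 * g ^ 2)) * Real.exp (-(ex om a) / g ^ 2) := by
      rw [← Real.exp_add]
      congr 1
      unfold ex
      field_simp
      ring
    rw [this]
    ring
  have i1 : ∫ a, φ a ^ 2 * w a = ∫ a, f a ^ 2 :=
    integral_congr_ae (ae_of_all _ e1)
  have i2 : ∫ a, f a * gau om g a = cg om g * ∫ a, φ a * w a := by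
    rw [← integral_const_mul]
    exact integral_congr_ae (ae_of_all _ e2)
  rw [i2]
  rw [i1] at key
  have hcg : 0 < cg om g ^ 2 := pow_pos (cg_pos om hom' g hg) 2
  set M := ∫ a, w a with hMdef
  have hgoal : ∫ a, w a * g2 φ a = ∫ a, Real.exp (-(∑ i, om i * a i ^ 2) / g ^ 2) * g2 φ a := rfl
  rw [← hgoal]
  have k2 := mul_le_mul_of_nonneg_left key hcg.le
  have h1 : cg om g ^ 2 * (M * (∫ a, f a ^ 2) - (∫ a, φ a * w a) ^ 2) =
      (cg om g ^ 2 * M) * (∫ a, f a ^ 2) - (cg om g * ∫ a, φ a * w a) ^ 2 := by ring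
  have h2 : cg om g ^ 2 * (M * (g ^ 2 / (2 * o) * ∫ a, w a * g2 φ a)) =
      (cg om g ^ 2 * M) * (g ^ 2 / (2 * o) * ∫ a, w a * g2 φ a) := by ring
  rw [h1, h2, hM, one_mul, one_mul] at k2
  exact k2

end Pool.Agent.Q222.LU
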