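import Pool.Agent.Q77.LU.StmA

/-!
# Project LU, job GS: change of a basis
-/

set_option autoImplicit false

open Matrix Pool.Agent.Q77.LU
open scoped ComplexOrder MatrixOrder

namespace Pool.Agent.Q222.LU

theorem t_GS : S_GS := by
  intro m B q β E hβ hE hB hpos hq
  have hdp : ∀ (M : Matrix (Fin m) (Fin m) ℝ) (x y : Fin m → ℝ),
      ∑ i, x i * (M.mulVec y) i = x ⬝ᵥ M *ᵥ y := fun _ _ _ => rfl
  have hsq : ∀ c : Fin m → ℝ, ∑ i, c i ^ 2 = c ⬝ᵥ c := fun c =>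
    Finset.sum_congr rfl (fun i _ => by ring)
  have hPD : B.PosDef := by
    rw [Matrix.posDef_iff_dotProduct_mulVec]
    refine ⟨?_, fun x hx => ?_⟩
    · rw [Matrix.IsHermitian, Matrix.conjTranspose_eq_transpose_of_trivial]
      exact hB
    · have h1 := hpos x
      rw [hdp] at h1
      have h2 : 0 < ∑ i, x i ^ 2 := by
        obtain ⟨i, hi⟩ := Function.ne_iff.mp hx
        refine Finset.sum_pos' (fun j _ => sq_nonneg _) ⟨i, Finset.mem_univ i, ?_⟩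
        have hi' : x i ≠ 0 := hi
        positivity
      have h3 : 0 < x ⬝ᵥ B *ᵥ x := lt_of_lt_of_le (mul_pos hβ h2) h1
      simpa using h3
  obtain ⟨C, hC⟩ := CStarAlgebra.nonneg_iff_eq_star_mul_self.mp hPD.posSemidef.nonneg
  rw [Matrix.star_eq_conjTranspose, Matrix.conjTranspose_eq_transpose_of_trivial] at hC
  have hdet : C.det ≠ 0 := by
    have h1 : B.det ≠ 0 := hPD.det_pos.ne'
    rw [hC, Matrix.det_mul] at h1
    exact right_ne_zero_of_mul h1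
  have hCu : IsUnit C.det := isUnit_iff_ne_zero.mpr hdet
  have hR : (C⁻¹).transpose * B * C⁻¹ = 1 := by
    rw [hC]
    calc (C⁻¹).transpose * (C.transpose * C) * C⁻¹
        = ((C⁻¹).transpose * C.transpose) * (C * C⁻¹) := by
          simp only [Matrix.mul_assoc]
      _ = (C * C⁻¹).transpose * (C * C⁻¹) := by rw [Matrix.transpose_mul]
      _ = 1 := by rw [Matrix.mul_nonsing_inv C hCu]; simp
  refine ⟨C⁻¹, hR, fun c => ?_⟩
  set x := C⁻¹ *ᵥ c with hx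
  have h1 := hq x
  have h2 := hpos x
  have h3 : x ⬝ᵥ B *ᵥ x = c ⬝ᵥ c := by
    calc x ⬝ᵥ B *ᵥ x = (c ᵥ* (C⁻¹).transpose) ⬝ᵥ (B *ᵥ (C⁻¹ *ᵥ c)) := by
          rw [Matrix.vecMul_transpose]
      _ = c ⬝ᵥ ((C⁻¹).transpose *ᵥ (B *ᵥ (C⁻¹ *ᵥ c))) := by rw [← Matrix.dotProduct_mulVec]
      _ = c ⬝ᵥ (((C⁻¹).transpose * B * C⁻¹) *ᵥ c) := by
          rw [Matrix.mulVec_mulVec, Matrix.mulVec_mulVec, Matrix.mul_assoc]
      _ = c ⬝ᵥ c := by rw [hR, Matrix.one_mulVec]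
  rw [hdp, h3] at h2
  refine h1.trans ?_
  rw [hsq c]
  have h4 : ∑ i, x i ^ 2 ≤ (c ⬝ᵥ c) / β := by
    rw [le_div_iff₀ hβ]
    linarith
  calc E * ∑ i, x i ^ 2 ≤ E * ((c ⬝ᵥ c) / β) := mul_le_mul_of_nonneg_left h4 hE
    _ = E / β * (c ⬝ᵥ c) := by ring

end Pool.Agent.Q222.LU
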