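import Pool.Agent.Q77.LU.StmA

/-!
# Project LU: basic facts on the Gaussian ground state
-/

set_option autoImplicit false

namespace Pool.Agent.Q222.LU

open Pool.Agent.Q77.LU MeasureTheory Set Filter Topology
open scoped ContDiff

variable {Q : Type} [Fintype Q]

/-- the exponent -/
noncomputable def ex (om : Q → ℝ) (a : Q → ℝ) : ℝ := ∑ i, om i * a i ^ 2

/-- the constant of the Gaussian -/
noncomputable def cg (om : Q → ℝ) (g : ℝ) : ℝ := ∏ i, (om i / (Real.pi * g ^ 2)) ^ (1 / 4 : ℝ)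

theorem gau_eq (om : Q → ℝ) (g : ℝ) (a : Q → ℝ) :
    gau om g a = cg om g * Real.exp (-(ex om a / (2 * g ^ 2))) := by
  unfold gau cg ex
  rw [Finset.prod_mul_distrib, ← Real.exp_sum]
  congr 2
  rw [Finset.sum_neg_distrib, Finset.sum_div]

theorem cg_pos (om : Q → ℝ) (hom : ∀ i, 0 < om i) (g : ℝ) (hg : 0 < g) : 0 < cg om g := by
  unfold cg
  refine Finset.prod_pos fun i _ => Real.rpow_pos_of_pos ?_ _
  have := hom i
  positivity

theorem gau_pos (om : Q → ℝ) (hom : ∀ i, 0 < om i) (g : ℝ) (hg : 0 < g) (a : Q → ℝ) :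
    0 < gau om g a := by
  rw [gau_eq]
  exact mul_pos (cg_pos om hom g hg) (Real.exp_pos _)

theorem contDiff_ex (om : Q → ℝ) {n : WithTop ℕ∞} : ContDiff ℝ n (ex om) := by
  unfold ex
  fun_prop

theorem contDiff_gau (om : Q → ℝ) (g : ℝ) {n : WithTop ℕ∞} : ContDiff ℝ n (gau om g) := by
  have : gau om g = fun a => cg om g * Real.exp (-(ex om a / (2 * g ^ 2))) := by
    funext a; exact gau_eq om g a
  rw [this]
  exact contDiff_const.mul ((contDiff_ex om).div_const _).neg.exp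

theorem continuous_gau (om : Q → ℝ) (g : ℝ) : Continuous (gau om g) :=
  (contDiff_gau om g (n := 1)).continuous

theorem gau_sq (om : Q → ℝ) (g : ℝ) (a : Q → ℝ) :
    gau om g a ^ 2 = cg om g ^ 2 * Real.exp (-(ex om a) / g ^ 2) := by
  rw [gau_eq, mul_pow, ← Real.exp_nat_mul]
  congr 2
  push_cast
  by_cases hg : g = 0
  · subst hg; simp
  · field_simp

theorem gau_sq_prod (om : Q → ℝ) (hom : ∀ i, 0 < om i) (g : ℝ) (a : Q → ℝ) :
    gau om g a ^ 2 = ∏ i, (Real.sqrt (om i / (Real.pi * g ^ 2)) *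
      Real.exp (-(om i / g ^ 2) * a i ^ 2)) := by
  unfold gau
  rw [← Finset.prod_pow]
  refine Finset.prod_congr rfl fun i _ => ?_
  have h0 : 0 ≤ om i / (Real.pi * g ^ 2) := by
    have := (hom i).le
    positivity
  rw [mul_pow, ← Real.rpow_natCast, ← Real.rpow_mul h0, ← Real.exp_nat_mul, Real.sqrt_eq_rpow]
  congr 2
  · norm_num
  · push_cast
    by_cases hg : g = 0
    · subst hg; simp
    · field_simp

theorem cg_sq (om : Q → ℝ) (hom : ∀ i, 0 < om i) (g : ℝ) :
    cg om g ^ 2 = ∏ i, Real.sqrt (om i / (Real.pi * g ^ 2)) := by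
  unfold cg
  rw [← Finset.prod_pow]
  refine Finset.prod_congr rfl fun i _ => ?_
  have h0 : 0 ≤ om i / (Real.pi * g ^ 2) := by
    have := (hom i).le
    positivity
  rw [← Real.rpow_natCast, ← Real.rpow_mul h0, Real.sqrt_eq_rpow]
  norm_num

theorem integrable_exp_one {b : ℝ} (hb : 0 < b) : Integrable fun x : ℝ => Real.exp (-b * x ^ 2) :=
  integrable_exp_neg_mul_sq hb

theorem integrable_gau_sq (om : Q → ℝ) (hom : ∀ i, 0 < om i) (g : ℝ) (hg : 0 < g) :
    Integrable fun a : Q → ℝ => gau om g a ^ 2 := by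
  have h := Integrable.fintype_prod (ι := Q) (𝕜 := ℝ) (μ := fun _ => volume)
    (f := fun i (x : ℝ) => Real.sqrt (om i / (Real.pi * g ^ 2)) *
      Real.exp (-(om i / g ^ 2) * x ^ 2)) fun i => by
      have : 0 < om i / g ^ 2 := by have := hom i; positivity
      exact (integrable_exp_neg_mul_sq this).const_mul _
  refine h.congr (ae_of_all _ fun a => ?_)
  exact (gau_sq_prod om hom g a).symm

theorem integral_one (b g : ℝ) (hb : 0 < b) (hg : 0 < g) :
    ∫ x : ℝ, Real.sqrt (b / (Real.pi * g ^ 2)) * Real.exp (-(b / g ^ 2) * x ^ 2) = 1 := by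
  rw [integral_const_mul, integral_gaussian, ← Real.sqrt_mul (by positivity)]
  rw [Real.sqrt_eq_one]
  have := Real.pi_pos
  field_simp

theorem integral_gau_sq (om : Q → ℝ) (hom : ∀ i, 0 < om i) (g : ℝ) (hg : 0 < g) :
    ∫ a : Q → ℝ, gau om g a ^ 2 = 1 := by
  have h1 : ∫ a : Q → ℝ, gau om g a ^ 2 = ∫ a : Q → ℝ, ∏ i,
      (Real.sqrt (om i / (Real.pi * g ^ 2)) * Real.exp (-(om i / g ^ 2) * a i ^ 2)) :=
    integral_congr_ae (ae_of_all _ fun a => gau_sq_prod om hom g a)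
  rw [h1, integral_fintype_prod_volume_eq_prod (𝕜 := ℝ) (ι := Q)
    (f := fun i (x : ℝ) => Real.sqrt (om i / (Real.pi * g ^ 2)) *
      Real.exp (-(om i / g ^ 2) * x ^ 2))]
  exact Finset.prod_eq_one fun i _ => integral_one (om i) g (hom i) hg

end Pool.Agent.Q222.LU
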