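import Pool.Agent.Q222.LU.SEC

/-!
# Project LU, job OSC: lower bound of the energy of an oscillator with a positive cubic term
-/

set_option autoImplicit false

namespace Pool.Agent.Q222.LU

open Pool.Agent.Q77.LU MeasureTheory Set Filter Topology
open scoped ContDiff

section
variable {Q : Type} [Fintype Q]

/-- regularised length -/
noncomputable def Rg (g : ℝ) (a : Q → ℝ) : ℝ := Real.sqrt (n2 a + g ^ 2)

theorem Rg_arg_pos {g : ℝ} (hg : 0 < g) (a : Q → ℝ) : 0 < n2 a + g ^ 2 := by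
  have := n2_nonneg a
  positivity

theorem Rg_pos {g : ℝ} (hg : 0 < g) (a : Q → ℝ) : 0 < Rg g a := Real.sqrt_pos.2 (Rg_arg_pos hg a)

theorem Rg_sq {g : ℝ} (hg : 0 < g) (a : Q → ℝ) : Rg g a ^ 2 = n2 a + g ^ 2 :=
  Real.sq_sqrt (Rg_arg_pos hg a).le

theorem contDiff_Rg {g : ℝ} (hg : 0 < g) {n : WithTop ℕ∞} :
    ContDiff ℝ n (Rg g : (Q → ℝ) → ℝ) := by
  unfold Rg
  exact (contDiff_n2.add contDiff_const).sqrt fun a => (Rg_arg_pos hg a).ne'

theorem nr_le_Rg {g : ℝ} (a : Q → ℝ) : nr a ≤ Rg g a := by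
  unfold nr Rg
  exact Real.sqrt_le_sqrt (by nlinarith [sq_nonneg g])

theorem Rg_le {g : ℝ} (hg : 0 < g) (a : Q → ℝ) : Rg g a ≤ nr a + g := by
  have h1 := nr_nonneg a
  have h2 := nr_sq a
  unfold Rg
  rw [← Real.sqrt_sq (show 0 ≤ nr a + g by positivity)]
  refine Real.sqrt_le_sqrt ?_
  nlinarith [mul_nonneg h1 hg.le]

variable [DecidableEq Q]

theorem pd_Rg {g : ℝ} (hg : 0 < g) (i : Q) (y : Q → ℝ) : pd (Rg g) i y = y i / Rg g y := by
  have h1 : HasFDerivAt (fun a : Q → ℝ => n2 a + g ^ 2) (fderiv ℝ n2 y) y :=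
    (((contDiff_n2 (n := 1)).differentiable one_ne_zero) y).hasFDerivAt.add_const _
  have h2 := h1.sqrt (Rg_arg_pos hg y).ne'
  have h3 : fderiv ℝ n2 y (Pi.single i 1) = 2 * y i := pd_n2 i y
  unfold pd
  have h4 : (Rg g : (Q → ℝ) → ℝ) = fun a => Real.sqrt (n2 a + g ^ 2) := rfl
  rw [h4, h2.fderiv, smul_apply, h3, smul_eq_mul]
  have := Rg_pos hg y
  unfold Rg at this
  field_simp

theorem pd_sub {F G : (Q → ℝ) → ℝ} (hF : ContDiff ℝ 1 F) (hG : ContDiff ℝ 1 G) (i : Q)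
    (y : Q → ℝ) : pd (fun z => F z - G z) i y = pd F i y - pd G i y := by
  unfold pd
  have h1 := ((hF.differentiable one_ne_zero) y).hasFDerivAt
  have h2 := ((hG.differentiable one_ne_zero) y).hasFDerivAt
  rw [(h1.fun_sub h2).fderiv]
  simp

theorem pd_Rg3 {g : ℝ} (hg : 0 < g) (i : Q) (y : Q → ℝ) :
    pd (fun z => Rg g z ^ 3) i y = 3 * (Rg g y * y i) := by
  have h1 : HasFDerivAt (Rg g) (fderiv ℝ (Rg g) y) y :=
    (((contDiff_Rg hg (n := 1)).differentiable one_ne_zero) y).hasFDerivAt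
  have h2 := h1.pow 3
  have h3 : fderiv ℝ (Rg g) y (Pi.single i 1) = y i / Rg g y := pd_Rg hg i y
  unfold pd
  rw [h2.fderiv, smul_apply, h3]
  have := Rg_pos hg y
  simp
  field_simp

/-- the quadratic form of a matrix -/
noncomputable def bil (S : Matrix Q Q ℝ) (a : Q → ℝ) : ℝ := ∑ i, a i * (S.mulVec a) i

omit [DecidableEq Q] in
theorem bil_eq (S : Matrix Q Q ℝ) (a : Q → ℝ) : bil S a = ∑ i, ∑ j, S i j * (a i * a j) := by
  unfold bil
  refine Finset.sum_congr rfl fun i _ => ?_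
  rw [Matrix.mulVec, dotProduct, Finset.mul_sum]
  refine Finset.sum_congr rfl fun j _ => ?_
  ring

omit [DecidableEq Q] in
theorem contDiff_mulVec (S : Matrix Q Q ℝ) (i : Q) {n : WithTop ℕ∞} :
    ContDiff ℝ n fun a : Q → ℝ => (S.mulVec a) i := by
  unfold Matrix.mulVec dotProduct
  fun_prop

omit [DecidableEq Q] in
theorem contDiff_bil (S : Matrix Q Q ℝ) {n : WithTop ℕ∞} : ContDiff ℝ n (bil S) := by
  have : bil S = fun a => ∑ i, ∑ j, S i j * (a i * a j) := by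
    funext a; exact bil_eq S a
  rw [this]
  fun_prop

theorem pd_mulVec (S : Matrix Q Q ℝ) (i k : Q) (y : Q → ℝ) :
    pd (fun a => (S.mulVec a) i) k y = S i k := by
  have h : HasFDerivAt (fun a : Q → ℝ => ∑ j, S i j * a j)
      (∑ j, S i j • (ContinuousLinearMap.proj j : (Q → ℝ) →L[ℝ] ℝ)) y := by
    refine HasFDerivAt.fun_sum fun j _ => ?_
    exact (hasFDerivAt_apply j y).const_mul (S i j)
  have h2 : (fun a : Q → ℝ => (S.mulVec a) i) = fun a => ∑ j, S i j * a j := rfl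
  unfold pd
  rw [h2, h.fderiv]
  simp [Pi.single_apply]

theorem pd_bil (S : Matrix Q Q ℝ) (hS : S.IsSymm) (k : Q) (y : Q → ℝ) :
    pd (bil S) k y = 2 * (S.mulVec y) k := by
  have h : HasFDerivAt (fun a : Q → ℝ => ∑ i, ∑ j, S i j * (a i * a j))
      (∑ i, ∑ j, S i j • (y i • (ContinuousLinearMap.proj j : (Q → ℝ) →L[ℝ] ℝ) +
        y j • (ContinuousLinearMap.proj i : (Q → ℝ) →L[ℝ] ℝ))) y := by
    refine HasFDerivAt.fun_sum fun i _ => HasFDerivAt.fun_sum fun j _ => ?_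
    exact ((hasFDerivAt_apply i y).mul (hasFDerivAt_apply j y)).const_mul (S i j)
  have h2 : bil S = fun a => ∑ i, ∑ j, S i j * (a i * a j) := by
    funext a; exact bil_eq S a
  unfold pd
  rw [h2, h.fderiv]
  have h3 : ∀ i j, S i j = S j i := fun i j => (hS.apply i j).symm
  have h4 : (∑ i, ∑ j, S i j • (y i • (ContinuousLinearMap.proj j : (Q → ℝ) →L[ℝ] ℝ) +
        y j • (ContinuousLinearMap.proj i : (Q → ℝ) →L[ℝ] ℝ))) (Pi.single k 1) =
      ∑ i, ∑ j, (S i j * (y i * (if j = k then 1 else 0)) +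
        S i j * (y j * (if i = k then 1 else 0))) := by
    simp [Pi.single_apply]
  rw [h4]
  simp only [Finset.sum_add_distrib, mul_ite, mul_one, mul_zero, Finset.sum_ite_eq',
    Finset.mem_univ, if_true]
  have h5 : ∑ i, ∑ j, (if i = k then S i j * y j else 0) = ∑ j, S k j * y j := by
    rw [Finset.sum_eq_single k]
    · simp
    · intro i _ hi; simp [hi]
    · intro h; exact absurd (Finset.mem_univ k) h
  rw [h5]
  have h6 : ∑ i, S i k * y i = ∑ j, S k j * y j :=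
    Finset.sum_congr rfl fun i _ => by rw [h3 i k]
  rw [h6, Matrix.mulVec, dotProduct]
  ring

omit [DecidableEq Q] in
theorem bil_le (S : Matrix Q Q ℝ) (K0 : ℝ) (hS : ∀ i j, |S i j| ≤ K0) (a : Q → ℝ) :
    bil S a ≤ K0 * (Fintype.card Q) ^ 2 * n2 a := by
  rw [bil_eq]
  calc ∑ i, ∑ j, S i j * (a i * a j) ≤ ∑ _i : Q, ∑ _j : Q, K0 * n2 a := by
        refine Finset.sum_le_sum fun i _ => Finset.sum_le_sum fun j _ => ?_
        have h1 : |a i * a j| ≤ n2 a := by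
          rw [abs_mul, ← nr_sq, sq]
          exact mul_le_mul (abs_le_nr a i) (abs_le_nr a j) (abs_nonneg _) (nr_nonneg a)
        calc S i j * (a i * a j) ≤ |S i j * (a i * a j)| := le_abs_self _
          _ = |S i j| * |a i * a j| := abs_mul _ _
          _ ≤ K0 * n2 a := mul_le_mul (hS i j) h1 (abs_nonneg _)
              ((abs_nonneg _).trans (hS i j))
    _ = K0 * (Fintype.card Q) ^ 2 * n2 a := by
        simp [Finset.sum_const, Finset.card_univ]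
        ring

end

theorem small_aux {K0 δ : ℝ} (hK0 : 0 ≤ K0) (hδ : 0 < δ) (h : δ ≤ 1 / (2 * (K0 + 1))) :
    K0 * δ ^ 2 ≤ 1 / 4 := by
  have h2 : δ * (2 * (K0 + 1)) ≤ 1 := by
    rwa [le_div_iff₀ (by positivity)] at h
  have h3 : K0 * δ ≤ 1 / 2 := by nlinarith
  have h4 : δ ≤ 1 / 2 := by nlinarith [mul_nonneg hδ.le hK0]
  nlinarith [mul_nonneg hK0 hδ.le]

/-- potential part, pointwise -/
theorem osc_pot {s K0 K1 τ δ g r R A N u ρ : ℝ} (hs : 0 < s) (hτ : 0 < τ)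
    (hτs : τ * s = K0 + K1 + 1) (hδ2 : 9 * τ * δ ≤ s) (hg : 0 < g) (hR : 0 < R)
    (hrR : r ≤ R) (hRδ : R ≤ 2 * δ) (hA : s * r ^ 2 ≤ A)
    (hG : 0 ≤ N - 6 * τ * R * A + 9 * τ ^ 2 * R ^ 2 * r ^ 2) (hρ : ρ ≤ 1)
    (hu : 1 / 2 * N - K0 * r ^ 3 ≤ u) :
    (K1 + (K0 + K1 + 2)) * r ^ 3 / g ^ 2 ≤ 1 / g ^ 2 * u -
      1 / (2 * g ^ 2) * (ρ * (N - 6 * τ * R * A + 9 * τ ^ 2 * R ^ 2 * r ^ 2)) := by
  have hA1 : 2 * τ * s * r ^ 3 ≤ 3 * τ * R * A - 9 / 2 * τ ^ 2 * R ^ 2 * r ^ 2 := by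
    have h1 : 3 * τ * R * (s * r ^ 2) ≤ 3 * τ * R * A :=
      mul_le_mul_of_nonneg_left hA (by positivity)
    have h2 : 9 / 2 * τ * R ≤ s := by
      have := mul_le_mul_of_nonneg_left hRδ hτ.le
      linarith
    have h3 : 9 / 2 * τ * R * (τ * R * r ^ 2) ≤ s * (τ * R * r ^ 2) :=
      mul_le_mul_of_nonneg_right h2 (by positivity)
    have h4 : 2 * τ * s * r ^ 3 ≤ 2 * τ * s * (R * r ^ 2) := by
      refine mul_le_mul_of_nonneg_left ?_ (by positivity)
      have := mul_le_mul_of_nonneg_right hrR (sq_nonneg r)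
      calc r ^ 3 = r * r ^ 2 := by ring
        _ ≤ R * r ^ 2 := this
    calc 2 * τ * s * r ^ 3 ≤ 2 * τ * s * (R * r ^ 2) := h4
      _ = 3 * τ * R * (s * r ^ 2) - s * (τ * R * r ^ 2) := by ring
      _ ≤ 3 * τ * R * A - 9 / 2 * τ * R * (τ * R * r ^ 2) := sub_le_sub h1 h3
      _ = _ := by ring
  have hg2 : 0 < g ^ 2 := by positivity
  have h1 : 1 / g ^ 2 * u -
      1 / (2 * g ^ 2) * (ρ * (N - 6 * τ * R * A + 9 * τ ^ 2 * R ^ 2 * r ^ 2)) =
      (u - 1 / 2 * (ρ * (N - 6 * τ * R * A + 9 * τ ^ 2 * R ^ 2 * r ^ 2))) / g ^ 2 := by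
    field_simp
  rw [h1]
  refine div_le_div_of_nonneg_right ?_ hg2.le
  have h2 : ρ * (N - 6 * τ * R * A + 9 * τ ^ 2 * R ^ 2 * r ^ 2) ≤
      1 * (N - 6 * τ * R * A + 9 * τ ^ 2 * R ^ 2 * r ^ 2) :=
    mul_le_mul_of_nonneg_right hρ hG
  have h3 : 2 * τ * s * r ^ 3 = 2 * (K0 + K1 + 1) * r ^ 3 := by
    rw [← hτs]; ring
  rw [h3] at hA1
  calc (K1 + (K0 + K1 + 2)) * r ^ 3 = 2 * (K0 + K1 + 1) * r ^ 3 - K0 * r ^ 3 := by ring
    _ ≤ 3 * τ * R * A - 9 / 2 * τ ^ 2 * R ^ 2 * r ^ 2 - K0 * r ^ 3 := by linarith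
    _ ≤ u - 1 / 2 * (1 * (N - 6 * τ * R * A + 9 * τ ^ 2 * R ^ 2 * r ^ 2)) := by linarith
    _ ≤ _ := by linarith

/-- kinetic part, pointwise -/
theorem osc_kin {K0 τ g r R A T t q ρ : ℝ} (hK0 : 0 ≤ K0) (hτ : 0 < τ) (hq : 0 ≤ q)
    (hg : 0 < g) (ht : 0 ≤ t) (hr : 0 ≤ r) (hr1 : r ≤ 1) (hR : 0 < R) (hrR : r ≤ R)
    (hRr : R ≤ r + g) (hA : A ≤ K0 * q ^ 2 * r ^ 2) (hT : |T| ≤ q * K0)
    (hρa : ρ = 1 - K0 * (t + r ^ 2)) (hρ1 : ρ ≤ 1) :
    1 / 2 * T - (q * K0 ^ 2 + 3 * τ * (q + 1) + 2 * K0 ^ 2 * q ^ 2) * (t + r + g) ≤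
      1 / 2 * (ρ * (T - 3 * τ * (q * R + r ^ 2 / R)) + -(2 * K0 * (A - 3 * τ * (R * r ^ 2)))) := by
  have hrr : r ^ 2 ≤ r := by nlinarith
  have h1 : r ^ 2 / R ≤ R := by
    rw [div_le_iff₀ hR]
    nlinarith
  have h2 : 0 ≤ 3 * τ * (q * R + r ^ 2 / R) := by positivity
  have h3 : ρ * (3 * τ * (q * R + r ^ 2 / R)) ≤ 1 * (3 * τ * (q * R + r ^ 2 / R)) :=
    mul_le_mul_of_nonneg_right hρ1 h2
  have h4 : 3 * τ * (q * R + r ^ 2 / R) ≤ 3 * τ * (q * R + R) := by gcongr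
  have h5 : 3 * τ * (q + 1) * R ≤ 3 * τ * (q + 1) * (r + g) :=
    mul_le_mul_of_nonneg_left hRr (by positivity)
  have h6 : (1 - ρ) * T ≤ K0 * (t + r ^ 2) * (q * K0) := by
    have : 1 - ρ = K0 * (t + r ^ 2) := by rw [hρa]; ring
    rw [this]
    refine mul_le_mul_of_nonneg_left ((le_abs_self _).trans hT) (by positivity)
  have h7 : K0 * (t + r ^ 2) * (q * K0) ≤ q * K0 ^ 2 * (t + r) := by
    have : K0 * (t + r ^ 2) * (q * K0) = q * K0 ^ 2 * (t + r ^ 2) := by ring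
    rw [this]
    gcongr
  have h8 : 2 * K0 * A ≤ 2 * K0 * (K0 * q ^ 2 * r ^ 2) :=
    mul_le_mul_of_nonneg_left hA (by positivity)
  have h9 : 2 * K0 * (K0 * q ^ 2 * r ^ 2) ≤ 2 * K0 ^ 2 * q ^ 2 * r := by
    have : 2 * K0 * (K0 * q ^ 2 * r ^ 2) = 2 * K0 ^ 2 * q ^ 2 * r ^ 2 := by ring
    rw [this]
    gcongr
  have h10 : 0 ≤ 2 * K0 * (3 * τ * (R * r ^ 2)) := by positivity
  have h11 : q * K0 ^ 2 * (t + r) ≤ q * K0 ^ 2 * (t + r + g) :=
    mul_le_mul_of_nonneg_left (by linarith) (by positivity)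
  have h12 : 3 * τ * (q + 1) * (r + g) ≤ 3 * τ * (q + 1) * (t + r + g) :=
    mul_le_mul_of_nonneg_left (by linarith) (by positivity)
  have h13 : 2 * K0 ^ 2 * q ^ 2 * r ≤ 2 * K0 ^ 2 * q ^ 2 * (t + r + g) :=
    mul_le_mul_of_nonneg_left (by linarith) (by positivity)
  have h14 : (q * K0 ^ 2 + 3 * τ * (q + 1) + 2 * K0 ^ 2 * q ^ 2) * (t + r + g) =
      q * K0 ^ 2 * (t + r + g) + 3 * τ * (q + 1) * (t + r + g) +
        2 * K0 ^ 2 * q ^ 2 * (t + r + g) := by ring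
  have h15 : 0 ≤ (q * K0 ^ 2 + 3 * τ * (q + 1) + 2 * K0 ^ 2 * q ^ 2) * (t + r + g) := by
    positivity
  have h16 : ρ * (T - 3 * τ * (q * R + r ^ 2 / R)) + -(2 * K0 * (A - 3 * τ * (R * r ^ 2))) =
      T - (1 - ρ) * T - ρ * (3 * τ * (q * R + r ^ 2 / R)) -
        2 * K0 * A + 2 * K0 * (3 * τ * (R * r ^ 2)) := by ring
  rw [h16]
  have h17 : 3 * τ * (q * R + R) = 3 * τ * (q + 1) * R := by ring
  linarith

theorem osc_comb {K0 K1 K' g r : ℝ} (hK0 : 0 ≤ K0) (hK1 : 0 ≤ K1) (hK' : 0 ≤ K') (hg : 0 < g)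
    (hr : 0 ≤ r) : K' * r ≤ (K0 + K1 + 2) * r ^ 3 / g ^ 2 + K' * (K' + 1) * g := by
  have hg2 : 0 < g ^ 2 := by positivity
  by_cases hc : K' * g ^ 2 ≤ r ^ 2
  · have h1 : K' * r ≤ r ^ 3 / g ^ 2 := by
      rw [le_div_iff₀ hg2]
      calc K' * r * g ^ 2 = K' * g ^ 2 * r := by ring
        _ ≤ r ^ 2 * r := mul_le_mul_of_nonneg_right hc hr
        _ = r ^ 3 := by ring
    have h2 : r ^ 3 / g ^ 2 ≤ (K0 + K1 + 2) * r ^ 3 / g ^ 2 := by
      refine div_le_div_of_nonneg_right ?_ hg2.le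
      have : 0 ≤ r ^ 3 := by positivity
      nlinarith [mul_nonneg hK0 this, mul_nonneg hK1 this]
    have h3 : 0 ≤ K' * (K' + 1) * g := by positivity
    linarith
  · push Not at hc
    have h1 : r ≤ (K' + 1) * g := by
      refine abs_le_of_sq_le_sq' ?_ (by positivity) |>.2
      calc r ^ 2 ≤ K' * g ^ 2 := hc.le
        _ ≤ ((K' + 1) * g) ^ 2 := by
          have : 0 ≤ (K' ^ 2 + K' + 1) * g ^ 2 := by positivity
          nlinarith
    have h2 : K' * r ≤ K' * ((K' + 1) * g) := mul_le_mul_of_nonneg_left h1 hK'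
    have h3 : 0 ≤ (K0 + K1 + 2) * r ^ 3 / g ^ 2 := by positivity
    linarith

theorem t_OSC : S_OSC := by
  intro Q _ _ s K0 K1 hs hK0 hK1
  set τ : ℝ := (K0 + K1 + 1) / s with hτ
  have hτpos : 0 < τ := by positivity
  have hτs : τ * s = K0 + K1 + 1 := by rw [hτ]; field_simp
  set q : ℝ := (Fintype.card Q : ℝ) with hq
  have hq0 : 0 ≤ q := Nat.cast_nonneg _
  set K' : ℝ := q * K0 ^ 2 + 3 * τ * (q + 1) + 2 * K0 ^ 2 * q ^ 2 with hK'
  have hK'0 : 0 ≤ K' := by positivity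
  set δ : ℝ := min (1 / (2 * (K0 + 1))) (s / (9 * τ)) with hδ
  have hδpos : 0 < δ := by positivity
  have hδ1 : δ ≤ 1 / (2 * (K0 + 1)) := min_le_left _ _
  have hδ2 : 9 * τ * δ ≤ s := by
    have h1 : δ ≤ s / (9 * τ) := min_le_right _ _
    calc 9 * τ * δ ≤ 9 * τ * (s / (9 * τ)) := by gcongr
      _ = s := by field_simp
  have hδle1 : δ ≤ 1 := by
    refine hδ1.trans ?_
    rw [div_le_one (by positivity)]
    linarith
  have hδK : K0 * δ ^ 2 ≤ 1 / 4 := small_aux hK0 hδpos hδ1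
  refine ⟨δ, K' + K' * (K' + 1), hδpos, by positivity, ?_⟩
  intro g t hg hgδ ht htδ S hS hSK hSs u hu hul f hf hfs
  have hcs : HasCompactSupport f := cs_of_ball hfs
  have hf0 : Continuous f := hf.continuous
  set h : (Q → ℝ) → ℝ := fun z => 1 / 2 * bil S z - τ * Rg g z ^ 3 with hh
  set ρ : (Q → ℝ) → ℝ := fun z => 1 - K0 * (t + n2 z) with hρ
  have hh2 : ContDiff ℝ 2 h :=
    (contDiff_const.mul (contDiff_bil S)).sub (contDiff_const.mul ((contDiff_Rg hg).pow 3))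
  have hρ1 : ContDiff ℝ 1 ρ := contDiff_const.sub (contDiff_const.mul
    (contDiff_const.add contDiff_n2))
  have jac := Pool.Agent.Q31.LU.t_JAC Q h ρ f g hg hh2 hρ1 hf hcs
  have hpd : ∀ i, pd h i = fun y => (S.mulVec y) i - 3 * τ * (Rg g y * y i) := by
    intro i
    funext y
    simp only [hh]
    rw [pd_sub (contDiff_const.mul (contDiff_bil S))
      (contDiff_const.mul ((contDiff_Rg hg).pow 3)), pd_const_mul (contDiff_bil S),
      pd_const_mul ((contDiff_Rg hg).pow 3), pd_bil S hS, pd_Rg3 hg]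
    ring
  have hlap : ∀ y, lap h y = S.trace - 3 * τ * (q * Rg g y + n2 y / Rg g y) := by
    intro y
    unfold lap
    have h1 : ∀ i, pd (pd h i) i y = S i i - 3 * τ * (Rg g y + y i ^ 2 / Rg g y) := by
      intro i
      have hyi : ContDiff ℝ 1 fun z : Q → ℝ => z i := contDiff_apply ℝ ℝ i
      rw [hpd, pd_sub (contDiff_mulVec S i)
        (contDiff_const.mul ((contDiff_Rg hg).mul hyi)),
        pd_const_mul ((contDiff_Rg hg).mul hyi), pd_mulVec,
        Pool.Agent.Q31.LU.pd_mul (contDiff_Rg hg) hyi, pd_Rg hg]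
      have h2 : pd (fun z : Q → ℝ => z i) i y = 1 := by
        have := pd_lin 1 i y
        simpa using this
      rw [h2]
      ring
    rw [Finset.sum_congr rfl fun i _ => h1 i, Finset.sum_sub_distrib, ← Finset.mul_sum,
      Finset.sum_add_distrib, Finset.sum_const, Finset.card_univ, nsmul_eq_mul,
      ← Finset.sum_div]
    rfl
  have hrh : ∀ y, ∑ i, pd ρ i y * pd h i y =
      -(2 * K0 * (bil S y - 3 * τ * (Rg g y * n2 y))) := by
    intro y
    have h1 : ∀ i, pd ρ i y * pd h i y =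
        -(2 * K0) * (y i * (S.mulVec y) i) + (2 * K0 * (3 * τ * Rg g y)) * y i ^ 2 := by
      intro i
      rw [hpd, pd_rho]
      ring
    rw [Finset.sum_congr rfl fun i _ => h1 i, Finset.sum_add_distrib, ← Finset.mul_sum,
      ← Finset.mul_sum]
    have h2 : ∑ i, y i * (S.mulVec y) i = bil S y := rfl
    have h3 : ∑ i, y i ^ 2 = n2 y := rfl
    rw [h2, h3]
    ring
  have hg2 : ∀ y, g2 h y = n2 (S.mulVec y) - 6 * τ * Rg g y * bil S y +
      9 * τ ^ 2 * Rg g y ^ 2 * n2 y := by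
    intro y
    unfold g2
    have h1 : ∀ i, pd h i y ^ 2 = (S.mulVec y) i ^ 2 - 6 * τ * Rg g y * (y i * (S.mulVec y) i) +
        9 * τ ^ 2 * Rg g y ^ 2 * y i ^ 2 := by
      intro i
      rw [hpd]
      ring
    rw [Finset.sum_congr rfl fun i _ => h1 i, Finset.sum_add_distrib, Finset.sum_sub_distrib,
      ← Finset.mul_sum, ← Finset.mul_sum]
    rfl
  set φ : (Q → ℝ) → ℝ := fun z => f z * Real.exp (h z / g ^ 2) with hφ
  have hφs : ∀ a, φ a ≠ 0 → n2 a < δ ^ 2 := fun a ha => hfs a (left_ne_zero_of_mul ha)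
  have hρc : Continuous ρ := hρ1.continuous
  have hhc : Continuous h := hh2.continuous
  have hρlow : ∀ a, n2 a ≤ δ ^ 2 → 1 / 2 ≤ ρ a := by
    intro a ha
    have h1 : K0 * (t + n2 a) ≤ K0 * (δ ^ 2 + δ ^ 2) :=
      mul_le_mul_of_nonneg_left (add_le_add htδ ha) hK0
    simp only [hρ]
    linarith
  have hρup : ∀ a, ρ a ≤ 1 := by
    intro a
    have h1 : 0 ≤ K0 * (t + n2 a) := mul_nonneg hK0 (add_nonneg ht (n2_nonneg a))
    simp only [hρ]
    linarith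
  have hfirst : 0 ≤ ∫ a, g ^ 2 / 2 * ρ a * Real.exp (-(2 * h a / g ^ 2)) * g2 φ a := by
    refine integral_nonneg fun a => ?_
    simp only [Pi.zero_apply]
    by_cases ha : n2 a ≤ δ ^ 2
    · have h3 := hρlow a ha
      have h4 := g2_nonneg φ a
      have h5 := Real.exp_pos (-(2 * h a / g ^ 2))
      positivity
    · rw [g2_out hφs (not_le.1 ha)]
      simp
  have hbc : Continuous (bil S) := (contDiff_bil S (n := 1)).continuous
  have hRc : Continuous (Rg g : (Q → ℝ) → ℝ) := (contDiff_Rg hg (n := 1)).continuous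
  have hmc : ∀ i, Continuous fun a : Q → ℝ => (S.mulVec a) i := fun i =>
    (contDiff_mulVec S i (n := 1)).continuous
  have hnSc : Continuous fun a : Q → ℝ => n2 (S.mulVec a) := by
    unfold n2
    exact continuous_finsetSum _ fun i _ => (hmc i).pow 2
  have hn2c := continuous_n2 (Q := Q)
  have hnrc := continuous_nr (Q := Q)
  have i2 : Integrable fun a => (1 / 2 * (ρ a * lap h a + ∑ i, pd ρ i a * pd h i a) -
      1 / (2 * g ^ 2) * (ρ a * g2 h a)) * f a ^ 2 := by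
    refine int_f2 hf0 hcs ?_
    simp only [hlap, hrh, hg2]
    have hdc : Continuous fun a : Q → ℝ => n2 a / Rg g a :=
      hn2c.div hRc fun a => (Rg_pos hg a).ne'
    fun_prop
  have i3 : Integrable fun a => 1 / g ^ 2 * u a * f a ^ 2 :=
    int_f2 hf0 hcs (continuous_const.mul hu)
  have i4 : Integrable fun a => g ^ 2 / 2 * ρ a * g2 f a :=
    int_g2 hf hcs (continuous_const.mul hρc)
  have hsplit : ∫ a, (g ^ 2 / 2 * (1 - K0 * (t + n2 a)) * g2 f a + 1 / g ^ 2 * u a * f a ^ 2) =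
      (∫ a, g ^ 2 / 2 * ρ a * g2 f a) + ∫ a, 1 / g ^ 2 * u a * f a ^ 2 :=
    integral_add i4 i3
  rw [hsplit, jac]
  have i5 : Integrable fun a => (1 / 2 * S.trace - (K' + K' * (K' + 1)) * (t + g) +
      K1 / g ^ 2 * nr a ^ 3) * f a ^ 2 := by
    refine int_f2 hf0 hcs ?_
    fun_prop
  have hsecond : (∫ a, (1 / 2 * S.trace - (K' + K' * (K' + 1)) * (t + g) +
      K1 / g ^ 2 * nr a ^ 3) * f a ^ 2) ≤
      (∫ a, (1 / 2 * (ρ a * lap h a + ∑ i, pd ρ i a * pd h i a) -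
      1 / (2 * g ^ 2) * (ρ a * g2 h a)) * f a ^ 2) + ∫ a, 1 / g ^ 2 * u a * f a ^ 2 := by
    rw [← integral_add i2 i3]
    refine integral_mono i5 (i2.add i3) fun a => ?_
    simp only
    by_cases ha : n2 a ≤ δ ^ 2
    · rw [← add_mul]
      refine mul_le_mul_of_nonneg_right ?_ (sq_nonneg _)
      rw [hlap, hrh, hg2]
      have hua := hul a ha
      have hAs := hSs a
      have hAu := bil_le S K0 hSK a
      have hA : ∑ i, a i * (S.mulVec a) i = bil S a := rfl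
      rw [hA] at hAs
      set A : ℝ := bil S a with hAdef
      set R : ℝ := Rg g a with hR
      set r : ℝ := nr a with hr
      have hr0 : 0 ≤ r := nr_nonneg a
      have hn2 : n2 a = r ^ 2 := (nr_sq a).symm
      rw [hn2] at hAs hAu ha
      have hrδ : r ≤ δ := nr_le hδpos.le (by rw [hn2]; exact ha)
      have hr1 : r ≤ 1 := hrδ.trans hδle1
      have hR0 : 0 < R := Rg_pos hg a
      have hrR : r ≤ R := nr_le_Rg a
      have hRr : R ≤ r + g := Rg_le hg a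
      have hRδ : R ≤ 2 * δ := by linarith
      set N : ℝ := n2 (S.mulVec a) with hN
      have hg2pos : 0 < g ^ 2 := by positivity
      have hρa : ρ a = 1 - K0 * (t + r ^ 2) := by simp only [hρ, hn2]
      have hρ0 : 0 ≤ ρ a := by
        have := hρlow a (by rw [hn2]; exact ha)
        linarith
      have hρ1' : ρ a ≤ 1 := hρup a
      have hG0 : 0 ≤ N - 6 * τ * R * A + 9 * τ ^ 2 * R ^ 2 * n2 a := by
        have := g2_nonneg h a
        rw [hg2] at this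
        exact this
      rw [hn2] at hG0 ⊢
      have hT : |S.trace| ≤ q * K0 := by
        unfold Matrix.trace
        refine (Finset.abs_sum_le_sum_abs _ _).trans ?_
        calc ∑ i, |Matrix.diag S i| ≤ ∑ _i : Q, K0 := Finset.sum_le_sum fun i _ => hSK i i
          _ = q * K0 := by simp [hq, Finset.card_univ]
      have hpot := osc_pot hs hτpos hτs hδ2 hg hR0 hrR hRδ hAs hG0 hρ1' hua
      have hkin := osc_kin hK0 hτpos hq0 hg ht hr0 hr1 hR0 hrR hRr hAu hT hρa hρ1'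
      rw [← hK'] at hkin
      have hcomb := osc_comb hK0 hK1 hK'0 hg hr0
      have h18 : K1 / g ^ 2 * r ^ 3 + (K0 + K1 + 2) * r ^ 3 / g ^ 2 =
          (K1 + (K0 + K1 + 2)) * r ^ 3 / g ^ 2 := by ring
      have h19 : 0 ≤ K' * (K' + 1) * t := by positivity
      have h20 : (K' + K' * (K' + 1)) * (t + g) =
          K' * t + K' * g + K' * (K' + 1) * t + K' * (K' + 1) * g := by ring
      rw [h20]
      have h21 : K' * (t + r + g) = K' * t + K' * r + K' * g := by ring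
      rw [h21] at hkin
      linarith
    · rw [f_out hfs (not_le.1 ha)]
      simp
  have hjac2 : (∫ y, g ^ 2 / 2 * ρ y * Real.exp (-(2 * h y / g ^ 2)) *
      g2 (fun z => f z * Real.exp (h z / g ^ 2)) y) =
      ∫ a, g ^ 2 / 2 * ρ a * Real.exp (-(2 * h a / g ^ 2)) * g2 φ a := rfl
  rw [hjac2]
  linarith

end Pool.Agent.Q222.LU
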