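import Pool.Agent.Q77.LU.StmA

/-!
# Project LU, job SCS: Simon's inequality with the constants of the lattice
-/

set_option autoImplicit false

namespace Pool.Agent.Q222.LU

open Pool.Agent.Q77.LU MeasureTheory Set Filter Topology

theorem pd_smul {P : Type} [Fintype P] [DecidableEq P] (f : (P → ℝ) → ℝ)
    (hf : ContDiff ℝ 1 f) (s : ℝ) (i : P) (y : P → ℝ) :
    pd (fun z => f (s • z)) i y = s * pd f i (s • y) := by
  unfold pd
  have h1 : HasFDerivAt (fun z : P → ℝ => s • z) (s • ContinuousLinearMap.id ℝ (P → ℝ)) y :=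
    (hasFDerivAt_id y).const_smul s
  have h2 : HasFDerivAt f (fderiv ℝ f (s • y)) (s • y) :=
    ((hf.differentiable one_ne_zero) (s • y)).hasFDerivAt
  have h3 := (HasFDerivAt.comp y h2 h1).fderiv
  have h4 : (f ∘ fun z : P → ℝ => s • z) = fun z => f (s • z) := rfl
  rw [h4] at h3
  rw [h3]
  simp

theorem nr_smul {P : Type} [Fintype P] (s : ℝ) (hs : 0 ≤ s) (y : P → ℝ) :
    nr (s • y) = s * nr y := by
  unfold nr n2
  have : ∑ i, (s • y) i ^ 2 = s ^ 2 * ∑ i, y i ^ 2 := by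
    rw [Finset.mul_sum]
    refine Finset.sum_congr rfl fun i _ => ?_
    simp [mul_pow]
  rw [this, Real.sqrt_mul (sq_nonneg s), Real.sqrt_sq hs]

theorem t_SCS : S_SCS := by
  intro P _ _ V c4 g hc hg f hf hsupp
  set s : ℝ := (g ^ 4 / c4) ^ (1 / 6 : ℝ) with hsdef
  have hbase : 0 < g ^ 4 / c4 := by positivity
  have hs : 0 < s := Real.rpow_pos_of_pos hbase _
  have hs6 : s ^ 6 = g ^ 4 / c4 := by
    rw [hsdef, ← Real.rpow_natCast, ← Real.rpow_mul hbase.le]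
    norm_num
  have hs6' : c4 * s ^ 6 = g ^ 4 := by
    rw [hs6]; field_simp
  have hψ : ContDiff ℝ 1 (fun y : P → ℝ => f (s • y)) := hf.comp (contDiff_const_smul s)
  have hψs : HasCompactSupport (fun y : P → ℝ => f (s • y)) := by
    have : HasCompactSupport (f ∘ (Homeomorph.smulOfNeZero s hs.ne' : (P → ℝ) ≃ₜ (P → ℝ))) :=
      hsupp.comp_homeomorph _
    exact this
  have key := V.simon _ hψ hψs
  unfold qf at key
  have e1 : (∫ C, nr C * f (s • C) ^ 2) = s⁻¹ * (|(s ^ Module.finrank ℝ (P → ℝ))⁻¹| *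
      ∫ C, nr C * f C ^ 2) := by
    have := Measure.integral_comp_smul (volume : Measure (P → ℝ))
      (fun C : P → ℝ => nr C * f C ^ 2) s
    rw [smul_eq_mul] at this
    rw [← this, ← integral_const_mul]
    refine integral_congr_ae (Eventually.of_forall fun y => ?_)
    simp only
    rw [nr_smul s hs.le]
    field_simp
  have e2 : (∫ C, (1 / 2 * g2 (fun y : P → ℝ => f (s • y)) C + V.v C * f (s • C) ^ 2)) =
      |(s ^ Module.finrank ℝ (P → ℝ))⁻¹| *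
      ∫ C, (s ^ 2 / 2 * g2 f C + (s ^ 4)⁻¹ * V.v C * f C ^ 2) := by
    have := Measure.integral_comp_smul (volume : Measure (P → ℝ))
      (fun C : P → ℝ => s ^ 2 / 2 * g2 f C + (s ^ 4)⁻¹ * V.v C * f C ^ 2) s
    rw [smul_eq_mul] at this
    rw [← this]
    refine integral_congr_ae (Eventually.of_forall fun y => ?_)
    simp only
    have h1 : g2 (fun y : P → ℝ => f (s • y)) y = s ^ 2 * g2 f (s • y) := by
      unfold g2
      rw [Finset.mul_sum]
      refine Finset.sum_congr rfl fun i _ => ?_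
      rw [pd_smul f hf, mul_pow]
    rw [h1, V.hom]
    field_simp
  rw [e1, e2] at key
  have hfac : 0 < |(s ^ Module.finrank ℝ (P → ℝ))⁻¹| := by
    rw [abs_pos]; positivity
  have key2 : V.κ * s⁻¹ * (∫ C, nr C * f C ^ 2) ≤
      ∫ C, (s ^ 2 / 2 * g2 f C + (s ^ 4)⁻¹ * V.v C * f C ^ 2) := by
    refine le_of_mul_le_mul_left ?_ hfac
    calc |(s ^ Module.finrank ℝ (P → ℝ))⁻¹| * (V.κ * s⁻¹ * ∫ C, nr C * f C ^ 2)
        = V.κ * (s⁻¹ * (|(s ^ Module.finrank ℝ (P → ℝ))⁻¹| * ∫ C, nr C * f C ^ 2)) := by ring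
      _ ≤ _ := key
  have key3 : g ^ 2 / s ^ 2 * (V.κ * s⁻¹ * (∫ C, nr C * f C ^ 2)) ≤
      g ^ 2 / s ^ 2 * ∫ C, (s ^ 2 / 2 * g2 f C + (s ^ 4)⁻¹ * V.v C * f C ^ 2) :=
    mul_le_mul_of_nonneg_left key2 (by positivity)
  have hsq : g ^ 2 / s ^ 2 * s⁻¹ = Real.sqrt c4 := by
    have h1 : c4 = (g ^ 2 / s ^ 2 * s⁻¹) ^ 2 := by
      field_simp
      nlinarith [hs6']
    rw [h1, Real.sqrt_sq (by positivity)]
  have hr : g ^ 2 / s ^ 2 * ∫ C, (s ^ 2 / 2 * g2 f C + (s ^ 4)⁻¹ * V.v C * f C ^ 2) =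
      ∫ C, (g ^ 2 / 2 * g2 f C + c4 / g ^ 2 * V.v C * f C ^ 2) := by
    rw [← integral_const_mul]
    refine integral_congr_ae (Eventually.of_forall fun y => ?_)
    simp only
    have h1 : g ^ 2 / s ^ 2 * (s ^ 2 / 2) = g ^ 2 / 2 := by field_simp
    have h2 : g ^ 2 / s ^ 2 * (s ^ 4)⁻¹ = c4 / g ^ 2 := by
      field_simp
      nlinarith [hs6']
    calc g ^ 2 / s ^ 2 * (s ^ 2 / 2 * g2 f y + (s ^ 4)⁻¹ * V.v y * f y ^ 2)
        = (g ^ 2 / s ^ 2 * (s ^ 2 / 2)) * g2 f y +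
          (g ^ 2 / s ^ 2 * (s ^ 4)⁻¹) * V.v y * f y ^ 2 := by ring
      _ = _ := by rw [h1, h2]
  rw [hr] at key3
  calc Real.sqrt c4 * V.κ * ∫ C, nr C * f C ^ 2
      = g ^ 2 / s ^ 2 * (V.κ * s⁻¹ * (∫ C, nr C * f C ^ 2)) := by rw [← hsq]; ring
    _ ≤ _ := key3

end Pool.Agent.Q222.LU
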