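import Pool.Agent.Q222.LU.Base
import Pool.Agent.Q222.LU.GP

/-!
# Project LU, job SEC: lower bound of the energy of an oscillator with the spectral gap
-/

set_option autoImplicit false

namespace Pool.Agent.Q222.LU

open Pool.Agent.Q77.LU MeasureTheory Set Filter Topology
open scoped ContDiff

section
variable {Q : Type} [Fintype Q] [DecidableEq Q]

theorem pd_const_mul {F : (Q → ℝ) → ℝ} (hF : ContDiff ℝ 1 F) (c : ℝ) (i : Q) (y : Q → ℝ) :
    pd (fun z => c * F z) i y = c * pd F i y := by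
  unfold pd
  have h := ((hF.differentiable one_ne_zero) y).hasFDerivAt.const_mul c
  rw [h.fderiv]
  simp

theorem pd_lin (c : ℝ) (i : Q) (y : Q → ℝ) : pd (fun z => c * z i) i y = c := by
  unfold pd
  have h1 : HasFDerivAt (fun x : Q → ℝ => x i)
      (ContinuousLinearMap.proj i : (Q → ℝ) →L[ℝ] ℝ) y := hasFDerivAt_apply i y
  rw [(h1.const_mul c).fderiv]
  simp

theorem pd_h (om : Q → ℝ) (i : Q) (y : Q → ℝ) :
    pd (fun z => 1 / 2 * ex om z) i y = om i * y i := by
  rw [pd_const_mul (contDiff_ex om), pd_ex]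
  ring

theorem pd_rho (K0 t : ℝ) (i : Q) (y : Q → ℝ) :
    pd (fun z => 1 - K0 * (t + n2 z)) i y = -(2 * K0 * y i) := by
  have h1 : (fun z : Q → ℝ => 1 - K0 * (t + n2 z)) = fun z => (1 - K0 * t) - K0 * n2 z := by
    funext z; ring
  rw [h1]
  have h2 : pd (fun z : Q → ℝ => (1 - K0 * t) - K0 * n2 z) i y = -pd (fun z => K0 * n2 z) i y := by
    unfold pd
    rw [fderiv_const_sub]
    simp
  rw [h2, pd_const_mul contDiff_n2, pd_n2]
  ring

end

theorem t_SEC : S_SEC := by
  intro Q _ _ om K0 hom hK0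
  obtain ⟨o, ho, -, hoi⟩ := exists_min om hom
  set So : ℝ := ∑ i, om i with hSo
  have hSo0 : 0 ≤ So := Finset.sum_nonneg fun i _ => (hom i).le
  have homle : ∀ i, om i ≤ So := fun i =>
    Finset.single_le_sum (f := om) (fun i _ => (hom i).le) (Finset.mem_univ i)
  refine ⟨1 / (2 * (K0 + 1)), K0 * (2 * So + 1), o / 2, by positivity, by positivity,
    by positivity, ?_⟩
  set δ : ℝ := 1 / (2 * (K0 + 1)) with hδ
  have hδpos : 0 < δ := by positivity
  have hδK : K0 * δ ^ 2 ≤ 1 / 4 := by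
    have h1 : δ * (2 * (K0 + 1)) = 1 := by rw [hδ]; field_simp
    have h2 : K0 * δ ≤ 1 / 2 := by nlinarith
    have h3 : δ ≤ 1 / 2 := by nlinarith [mul_nonneg hδpos.le hK0]
    nlinarith [mul_nonneg hK0 hδpos.le]
  intro g t c hg hgδ ht htδ hc u hu hul f hf hfs
  have hcs : HasCompactSupport f := cs_of_ball hfs
  have hf0 : Continuous f := hf.continuous
  set h : (Q → ℝ) → ℝ := fun z => 1 / 2 * ex om z with hh
  set ρ : (Q → ℝ) → ℝ := fun z => 1 - K0 * (t + n2 z) with hρ
  have hh2 : ContDiff ℝ 2 h := contDiff_const.mul (contDiff_ex om)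
  have hρ1 : ContDiff ℝ 1 ρ := contDiff_const.sub (contDiff_const.mul
    (contDiff_const.add contDiff_n2))
  have jac := Pool.Agent.Q31.LU.t_JAC Q h ρ f g hg hh2 hρ1 hf hcs
  have hlap : ∀ y, lap h y = So := by
    intro y
    unfold lap
    refine Finset.sum_congr rfl fun i _ => ?_
    have : pd h i = fun y => om i * y i := by
      funext y; exact pd_h om i y
    rw [this, pd_lin]
  have hrh : ∀ y, ∑ i, pd ρ i y * pd h i y = -(2 * K0 * ex om y) := by
    intro y
    unfold ex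
    rw [Finset.mul_sum, ← Finset.sum_neg_distrib]
    refine Finset.sum_congr rfl fun i _ => ?_
    rw [pd_h, pd_rho]
    ring
  have hg2 : ∀ y, g2 h y = ∑ i, om i ^ 2 * y i ^ 2 := by
    intro y
    unfold g2
    refine Finset.sum_congr rfl fun i _ => ?_
    rw [pd_h, mul_pow]
  set φ : (Q → ℝ) → ℝ := fun z => f z * Real.exp (h z / g ^ 2) with hφ
  have hφ1 : ContDiff ℝ 1 φ := hf.mul ((hh2.of_le (by norm_num)).div_const _).exp
  have hφs : ∀ a, φ a ≠ 0 → n2 a < δ ^ 2 := fun a ha => hfs a (left_ne_zero_of_mul ha)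
  have hφcs : HasCompactSupport φ := cs_of_ball hφs
  have hρc : Continuous ρ := hρ1.continuous
  have hhc : Continuous h := hh2.continuous
  have hexc : Continuous (ex om) := continuous_ex om
  -- the range of the density
  have hρlow : ∀ a, n2 a ≤ δ ^ 2 → 1 / 2 ≤ ρ a := by
    intro a ha
    have h1 : K0 * (t + n2 a) ≤ K0 * (δ ^ 2 + δ ^ 2) :=
      mul_le_mul_of_nonneg_left (add_le_add htδ ha) hK0
    simp only [hρ]
    linarith
  have hρup : ∀ a, ρ a ≤ 1 := by
    intro a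
    have h1 : 0 ≤ K0 * (t + n2 a) := mul_nonneg hK0 (add_nonneg ht (n2_nonneg a))
    simp only [hρ]
    linarith
  -- the first integral
  have gp := t_GP Q om o g ho hoi hg f hf hcs
  have hexpc : Continuous fun a => Real.exp (-(2 * h a / g ^ 2)) := by fun_prop
  have e1 : ∀ a, Real.exp (-(2 * h a / g ^ 2)) = Real.exp (-(∑ i, om i * a i ^ 2) / g ^ 2) := by
    intro a
    congr 1
    simp only [hh, ex]
    ring
  have e2 : (fun z : Q → ℝ => f z * Real.exp ((∑ i, om i * z i ^ 2) / (2 * g ^ 2))) = φ := by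
    funext z
    simp only [hφ, hh, ex]
    congr 2
    field_simp
  rw [e2] at gp
  have i1 : Integrable fun a => g ^ 2 / 2 * ρ a * Real.exp (-(2 * h a / g ^ 2)) * g2 φ a :=
    int_g2 hφ1 hφcs ((continuous_const.mul hρc).mul hexpc)
  have hfirst : o / 2 * ((∫ a, f a ^ 2) - (∫ a, f a * gau om g a) ^ 2) ≤
      ∫ a, g ^ 2 / 2 * ρ a * Real.exp (-(2 * h a / g ^ 2)) * g2 φ a := by
    have h1 : o / 2 * ((∫ a, f a ^ 2) - (∫ a, f a * gau om g a) ^ 2) ≤
        o / 2 * (g ^ 2 / (2 * o) * ∫ a, Real.exp (-(∑ i, om i * a i ^ 2) / g ^ 2) * g2 φ a) :=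
      mul_le_mul_of_nonneg_left gp (by positivity)
    have h2 : o / 2 * (g ^ 2 / (2 * o) *
        ∫ a, Real.exp (-(∑ i, om i * a i ^ 2) / g ^ 2) * g2 φ a) =
        ∫ a, g ^ 2 / 4 * Real.exp (-(2 * h a / g ^ 2)) * g2 φ a := by
      rw [← mul_assoc, ← integral_const_mul]
      refine integral_congr_ae (ae_of_all _ fun a => ?_)
      simp only [e1]
      field_simp
      ring
    rw [h2] at h1
    refine h1.trans (integral_mono ?_ i1 fun a => ?_)
    · exact int_g2 hφ1 hφcs (continuous_const.mul hexpc)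
    · simp only
      by_cases ha : n2 a ≤ δ ^ 2
      · have h3 := hρlow a ha
        have h4 : 0 ≤ Real.exp (-(2 * h a / g ^ 2)) * g2 φ a :=
          mul_nonneg (Real.exp_pos _).le (g2_nonneg _ _)
        have h5 : g ^ 2 / 4 ≤ g ^ 2 / 2 * ρ a := by nlinarith [sq_nonneg g]
        calc g ^ 2 / 4 * Real.exp (-(2 * h a / g ^ 2)) * g2 φ a
            = g ^ 2 / 4 * (Real.exp (-(2 * h a / g ^ 2)) * g2 φ a) := by ring
          _ ≤ g ^ 2 / 2 * ρ a * (Real.exp (-(2 * h a / g ^ 2)) * g2 φ a) :=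
              mul_le_mul_of_nonneg_right h5 h4
          _ = _ := by ring
      · rw [g2_out hφs (not_le.1 ha)]
        simp
  -- the second integral
  have i2 : Integrable fun a => (1 / 2 * (ρ a * lap h a + ∑ i, pd ρ i a * pd h i a) -
      1 / (2 * g ^ 2) * (ρ a * g2 h a)) * f a ^ 2 := by
    refine int_f2 hf0 hcs ?_
    simp only [hlap, hrh, hg2]
    fun_prop
  have i3 : Integrable fun a => 1 / g ^ 2 * u a * f a ^ 2 :=
    int_f2 hf0 hcs (continuous_const.mul hu)
  have i4 : Integrable fun a => g ^ 2 / 2 * ρ a * g2 f a :=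
    int_g2 hf hcs (continuous_const.mul hρc)
  have hsplit : ∫ a, (g ^ 2 / 2 * (1 - K0 * (t + n2 a)) * g2 f a + 1 / g ^ 2 * u a * f a ^ 2) =
      (∫ a, g ^ 2 / 2 * ρ a * g2 f a) + ∫ a, 1 / g ^ 2 * u a * f a ^ 2 :=
    integral_add i4 i3
  rw [hsplit, jac]
  have i5 : Integrable fun a => (1 / 2 * So - K0 * (2 * So + 1) * (t + n2 a) -
      K0 * (2 * So + 1) * c / g ^ 2 * n2 a - K0 * (2 * So + 1) / g ^ 2 * nr a ^ 3) *
      f a ^ 2 := by
    refine int_f2 hf0 hcs ?_
    have := continuous_n2 (Q := Q)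
    have := continuous_nr (Q := Q)
    fun_prop
  have hsecond : (∫ a, (1 / 2 * So - K0 * (2 * So + 1) * (t + n2 a) -
      K0 * (2 * So + 1) * c / g ^ 2 * n2 a - K0 * (2 * So + 1) / g ^ 2 * nr a ^ 3) *
      f a ^ 2) ≤ (∫ a, (1 / 2 * (ρ a * lap h a + ∑ i, pd ρ i a * pd h i a) -
      1 / (2 * g ^ 2) * (ρ a * g2 h a)) * f a ^ 2) + ∫ a, 1 / g ^ 2 * u a * f a ^ 2 := by
    rw [← integral_add i2 i3]
    refine integral_mono i5 (i2.add i3) fun a => ?_
    simp only
    by_cases ha : n2 a ≤ δ ^ 2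
    · rw [← add_mul]
      refine mul_le_mul_of_nonneg_right ?_ (sq_nonneg _)
      rw [hlap, hrh, hg2]
      have hua := hul a ha
      set W : ℝ := ∑ i, om i ^ 2 * a i ^ 2 with hW
      have hW0 : 0 ≤ W := Finset.sum_nonneg fun i _ => by positivity
      have hN0 : 0 ≤ n2 a := n2_nonneg a
      have hR0 : 0 ≤ nr a ^ 3 := pow_nonneg (nr_nonneg a) 3
      have hex : ex om a ≤ So * n2 a := by
        unfold ex n2
        rw [Finset.mul_sum]
        exact Finset.sum_le_sum fun i _ => mul_le_mul_of_nonneg_right (homle i) (sq_nonneg _)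
      have hρu := hρup a
      have hρa : ρ a = 1 - K0 * (t + n2 a) := rfl
      have hg2pos : 0 < g ^ 2 := by positivity
      -- the potential part
      have p1 : -(K0 * c * n2 a + K0 * nr a ^ 3) / g ^ 2 ≤
          1 / g ^ 2 * u a - 1 / (2 * g ^ 2) * (ρ a * W) := by
        have h1 : 1 / g ^ 2 * u a - 1 / (2 * g ^ 2) * (ρ a * W) =
            (u a - 1 / 2 * ρ a * W) / g ^ 2 := by field_simp
        rw [h1]
        refine div_le_div_of_nonneg_right ?_ hg2pos.le
        have h2 : ρ a * W ≤ 1 * W := mul_le_mul_of_nonneg_right hρu hW0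
        linarith
      -- the kinetic part
      have p2 : 1 / 2 * So - K0 * (2 * So + 1) * (t + n2 a) ≤
          1 / 2 * (ρ a * So + -(2 * K0 * ex om a)) := by
        rw [hρa]
        have h1 : K0 * ex om a ≤ K0 * (So * n2 a) := mul_le_mul_of_nonneg_left hex hK0
        have h2 : 0 ≤ K0 * So * (t + n2 a) := by positivity
        have h3 : 0 ≤ K0 * (t + n2 a) := by positivity
        have h4 : 0 ≤ K0 * So * t := by positivity
        nlinarith
      have p3 : K0 * c * n2 a + K0 * nr a ^ 3 ≤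
          K0 * (2 * So + 1) * c * n2 a + K0 * (2 * So + 1) * nr a ^ 3 := by
        have h1 : 0 ≤ K0 * So * c * n2 a := by positivity
        have h2 : 0 ≤ K0 * So * nr a ^ 3 := by positivity
        nlinarith
      have p4 : -(K0 * (2 * So + 1) * c * n2 a + K0 * (2 * So + 1) * nr a ^ 3) / g ^ 2 ≤
          -(K0 * c * n2 a + K0 * nr a ^ 3) / g ^ 2 :=
        div_le_div_of_nonneg_right (by linarith) hg2pos.le
      have p5 : 1 / 2 * So - K0 * (2 * So + 1) * (t + n2 a) -
          K0 * (2 * So + 1) * c / g ^ 2 * n2 a - K0 * (2 * So + 1) / g ^ 2 * nr a ^ 3 =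
          (1 / 2 * So - K0 * (2 * So + 1) * (t + n2 a)) +
          -(K0 * (2 * So + 1) * c * n2 a + K0 * (2 * So + 1) * nr a ^ 3) / g ^ 2 := by
        field_simp
        ring
      rw [p5]
      linarith
    · rw [f_out hfs (not_le.1 ha)]
      simp
  have hjac2 : (∫ y, g ^ 2 / 2 * ρ y * Real.exp (-(2 * h y / g ^ 2)) *
      g2 (fun z => f z * Real.exp (h z / g ^ 2)) y) =
      ∫ a, g ^ 2 / 2 * ρ a * Real.exp (-(2 * h a / g ^ 2)) * g2 φ a := rfl
  rw [hjac2]
  linarith

end Pool.Agent.Q222.LU
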