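import Pool.Agent.Q222.LU.Base

/-!
# Project LU, job TSM: the projection of a smooth function is smooth
-/

set_option autoImplicit false

namespace Pool.Agent.Q222.LU

open Pool.Agent.Q77.LU MeasureTheory Set Filter Topology
open scoped ContDiff Convolution

section param

variable {P Q : Type} [Fintype P] [Fintype Q]

/-- smoothness of an integral with parameter -/
theorem par_smooth {H : (P → ℝ) × (Q → ℝ) → ℝ} (hH : ContDiff ℝ ∞ H) (hc : HasCompactSupport H) :
    ContDiff ℝ ∞ fun C : P → ℝ => ∫ a : Q → ℝ, H (C, a) := by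
  set k : Set (Q → ℝ) := (fun x : (P → ℝ) × (Q → ℝ) => -x.2) '' tsupport H with hk
  have hkc : IsCompact k := hc.isCompact.image (by fun_prop)
  have h0 : ∀ p : P → ℝ, ∀ x : Q → ℝ, p ∈ (univ : Set (P → ℝ)) → x ∉ k → H (p, -x) = 0 := by
    intro p x _ hx
    by_contra h
    refine hx ⟨(p, -x), subset_tsupport _ h, ?_⟩
    simp
  have h1 := contDiffOn_convolution_right_with_param_comp (n := (⊤ : ℕ∞)) (μ := (volume : Measure (Q → ℝ)))
    (ContinuousLinearMap.mul ℝ ℝ)
    (s := (univ : Set (P → ℝ))) (v := fun _ => (0 : Q → ℝ)) contDiffOn_const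
    (f := fun _ => (1 : ℝ)) (g := fun (p : P → ℝ) (x : Q → ℝ) => H (p, -x)) isOpen_univ hkc h0
    (locallyIntegrable_const 1) (by
      refine ContDiff.contDiffOn ?_
      have : ContDiff ℝ ∞ fun q : (P → ℝ) × (Q → ℝ) => (q.1, -q.2) := by fun_prop
      exact hH.comp this)
  rw [contDiffOn_univ] at h1
  have h2 : (fun C : P → ℝ => ∫ a : Q → ℝ, H (C, a)) = fun C =>
      ((fun _ => (1 : ℝ)) ⋆[ContinuousLinearMap.mul ℝ ℝ, (volume : Measure (Q → ℝ))]
        (fun x : Q → ℝ => H (C, -x))) 0 := by
    funext C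
    rw [MeasureTheory.convolution_def]
    simp
  rw [h2]
  exact h1

theorem par_fderiv {H : (P → ℝ) × (Q → ℝ) → ℝ} (hH : ContDiff ℝ 1 H) (hc : HasCompactSupport H)
    (C v : P → ℝ) : fderiv ℝ (fun C : P → ℝ => ∫ a : Q → ℝ, H (C, a)) C v =
      ∫ a : Q → ℝ, fderiv ℝ H (C, a) (v, 0) := by
  have hd : Continuous (fderiv ℝ H) := hH.continuous_fderiv one_ne_zero
  obtain ⟨M, hM⟩ := (hc.fderiv ℝ).exists_bound_of_continuous hd
  have hM0 : 0 ≤ M := (norm_nonneg _).trans (hM (C, 0))
  set k : Set (Q → ℝ) := (fun x : (P → ℝ) × (Q → ℝ) => x.2) '' tsupport H with hk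
  have hkc : IsCompact k := hc.isCompact.image (by fun_prop)
  set inl : (P → ℝ) →L[ℝ] (P → ℝ) × (Q → ℝ) := ContinuousLinearMap.inl ℝ (P → ℝ) (Q → ℝ)
  have hcont : ∀ C : P → ℝ, Continuous fun a : Q → ℝ => (fderiv ℝ H (C, a)).comp inl := by
    intro C
    exact (hd.comp (by fun_prop)).clm_comp continuous_const
  have hsl : ∀ C : P → ℝ, HasCompactSupport fun a : Q → ℝ => H (C, a) := by
    intro C
    refine HasCompactSupport.intro hkc fun a ha => ?_
    by_contra h
    exact ha ⟨(C, a), subset_tsupport _ h, rfl⟩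
  have hsl' : HasCompactSupport fun a : Q → ℝ => (fderiv ℝ H (C, a)).comp inl := by
    refine HasCompactSupport.intro hkc fun a ha => ?_
    by_contra h
    refine ha ⟨(C, a), ?_, rfl⟩
    by_contra h2
    exact h (by rw [fderiv_of_notMem_tsupport ℝ h2]; simp)
  have hinl : ‖inl‖ ≤ 1 := ContinuousLinearMap.norm_inl_le_one ℝ (P → ℝ) (Q → ℝ)
  have h1 := hasFDerivAt_integral_of_dominated_of_fderiv_le (𝕜 := ℝ)
    (μ := (volume : Measure (Q → ℝ)))
    (F := fun (C : P → ℝ) (a : Q → ℝ) => H (C, a))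
    (F' := fun (C : P → ℝ) (a : Q → ℝ) => (fderiv ℝ H (C, a)).comp inl)
    (x₀ := C) (s := univ) (bound := fun a => k.indicator (fun _ => M) a) univ_mem
    (Eventually.of_forall fun C => (hH.continuous.comp (by fun_prop)).aestronglyMeasurable)
    ((hH.continuous.comp (by fun_prop)).integrable_of_hasCompactSupport (hsl C))
    (hcont C).aestronglyMeasurable
    (ae_of_all _ fun a C' _ => by
      by_cases ha : a ∈ k
      · rw [indicator_of_mem ha]
        refine (ContinuousLinearMap.opNorm_comp_le _ _).trans ?_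
        calc ‖fderiv ℝ H (C', a)‖ * ‖inl‖ ≤ M * 1 :=
              mul_le_mul (hM _) hinl (norm_nonneg _) hM0
          _ = M := mul_one M
      · rw [indicator_of_notMem ha]
        have h2 : (C', a) ∉ tsupport H := fun h => ha ⟨(C', a), h, rfl⟩
        rw [fderiv_of_notMem_tsupport ℝ h2]
        simp)
    ((integrable_indicator_iff hkc.measurableSet).2 (integrableOn_const hkc.measure_lt_top.ne))
    (ae_of_all _ fun a C' _ => by
      have h2 : HasFDerivAt (fun C : P → ℝ => (C, a)) inl C' := by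
        exact (hasFDerivAt_prodMk_left C' a)
      exact ((hH.differentiable one_ne_zero) (C', a)).hasFDerivAt.comp C' h2)
  rw [h1.fderiv]
  have hint : Integrable fun a : Q → ℝ => (fderiv ℝ H (C, a)).comp inl :=
    (hcont C).integrable_of_hasCompactSupport hsl'
  rw [ContinuousLinearMap.integral_apply hint]
  rfl

omit [Fintype P] in
theorem par_cs {H : (P → ℝ) × (Q → ℝ) → ℝ} (hc : HasCompactSupport H) :
    HasCompactSupport fun C : P → ℝ => ∫ a : Q → ℝ, H (C, a) := by
  refine HasCompactSupport.intro (hc.isCompact.image continuous_fst) fun C hC => ?_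
  have : ∀ a : Q → ℝ, H (C, a) = 0 := fun a => by
    by_contra h
    exact hC ⟨(C, a), subset_tsupport _ h, rfl⟩
  simp [this]

omit [Fintype P] [Fintype Q] in
theorem slice_cs {H : (P → ℝ) × (Q → ℝ) → ℝ} (hc : HasCompactSupport H) (C : P → ℝ) :
    HasCompactSupport fun a : Q → ℝ => H (C, a) := by
  refine HasCompactSupport.intro (hc.isCompact.image continuous_snd) fun a ha => ?_
  by_contra h
  exact ha ⟨(C, a), subset_tsupport _ h, rfl⟩

/-- Cauchy-Schwarz with the Gaussian -/
theorem cs_gau (om : Q → ℝ) (hom : ∀ i, 0 < om i) (g : ℝ) (hg : 0 < g) (G : (Q → ℝ) → ℝ)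
    (hG : Continuous G) (hc : HasCompactSupport G) :
    (∫ a, G a * gau om g a) ^ 2 ≤ ∫ a, G a ^ 2 := by
  set m := ∫ a, G a * gau om g a with hm
  have i1 : Integrable fun a => G a * gau om g a :=
    Continuous.integrable_of_hasCompactSupport (hG.mul (continuous_gau om g)) hc.mul_right
  have i2 : Integrable fun a => G a ^ 2 := by
    refine Continuous.integrable_of_hasCompactSupport (hG.pow 2) ?_
    have : (fun a => G a ^ 2) = fun a => G a * G a := by funext a; ring
    rw [this]
    exact hc.mul_left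
  have i3 := integrable_gau_sq om hom g hg
  have h0 : 0 ≤ ∫ a, (G a - m * gau om g a) ^ 2 := integral_nonneg fun a => sq_nonneg _
  have h1 : ∫ a, (G a - m * gau om g a) ^ 2 = (∫ a, G a ^ 2) - 2 * m * m + m ^ 2 * 1 := by
    have e : ∀ a, (G a - m * gau om g a) ^ 2 =
        (G a ^ 2 - 2 * m * (G a * gau om g a)) + m ^ 2 * gau om g a ^ 2 := fun a => by ring
    simp only [e]
    have i4 : Integrable fun a => G a ^ 2 - 2 * m * (G a * gau om g a) := i2.sub (i1.const_mul _)
    rw [integral_add i4 (i3.const_mul _), integral_sub i2 (i1.const_mul _), integral_const_mul,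
      integral_const_mul, integral_gau_sq om hom g hg]
  rw [h1] at h0
  nlinarith

end param

theorem t_TSM : S_TSM := by
  intro P Q _ _ _ _ L g hg f hf hc
  set F : (P → ℝ) × (Q → ℝ) → ℝ := fun x => f x * Real.sqrt (L.J x) with hF
  have hJ : ContDiff ℝ ∞ fun x => Real.sqrt (L.J x) := L.Jsm.sqrt fun x => (L.Jpos x).ne'
  have hF1 : ContDiff ℝ ∞ F := hf.mul hJ
  have hFc : HasCompactSupport F := hc.mul_right
  set H : (P → ℝ) × (Q → ℝ) → ℝ := fun x => F x * gau L.om g x.2 with hH
  have hgs : ContDiff ℝ ∞ fun x : (P → ℝ) × (Q → ℝ) => gau L.om g x.2 :=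
    (contDiff_gau L.om g).comp contDiff_snd
  have hH1 : ContDiff ℝ ∞ H := hF1.mul hgs
  have hHc : HasCompactSupport H := hFc.mul_right
  have hT : L.T g f = fun C => ∫ a : Q → ℝ, H (C, a) := rfl
  have hFsl : ∀ C : P → ℝ, Continuous fun a : Q → ℝ => F (C, a) := fun C =>
    hF1.continuous.comp (by fun_prop)
  have hsq : ∀ x, F x ^ 2 = f x ^ 2 * L.J x := by
    intro x
    simp only [hF]
    rw [mul_pow, Real.sq_sqrt (L.Jpos x).le]
  have h3 : ∀ C, L.T g f C ^ 2 ≤ ∫ a : Q → ℝ, f (C, a) ^ 2 * L.J (C, a) := by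
    intro C
    have h := cs_gau L.om L.ompos g hg (fun a => F (C, a)) (hFsl C) (slice_cs hFc C)
    simp only [hsq] at h
    exact h
  have hTs : ContDiff ℝ ∞ (L.T g f) := by rw [hT]; exact par_smooth hH1 hHc
  have hTc : HasCompactSupport (L.T g f) := by rw [hT]; exact par_cs hHc
  refine ⟨hTs, hTc, h3, ?_, ?_⟩
  · intro C
    have hF1' : ContDiff ℝ 1 F := hF1.of_le (by exact_mod_cast le_top)
    have hH1' : ContDiff ℝ 1 H := hH1.of_le (by exact_mod_cast le_top)
    have hdF : Continuous (fderiv ℝ F) := hF1'.continuous_fderiv one_ne_zero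
    have hdc : ∀ i : P, Continuous fun a : Q → ℝ => fderiv ℝ F (C, a) (Pi.single i 1, 0) :=
      fun i => (hdF.comp (by fun_prop)).clm_apply continuous_const
    have hdcs : ∀ i : P, HasCompactSupport
        fun a : Q → ℝ => fderiv ℝ F (C, a) (Pi.single i 1, 0) := by
      intro i
      refine HasCompactSupport.intro (hFc.isCompact.image continuous_snd) fun a ha => ?_
      have h2 : (C, a) ∉ tsupport F := fun h => ha ⟨(C, a), h, rfl⟩
      rw [fderiv_of_notMem_tsupport ℝ h2]
      rfl
    have hpd : ∀ i, pd (L.T g f) i C =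
        ∫ a : Q → ℝ, fderiv ℝ F (C, a) (Pi.single i 1, 0) * gau L.om g a := by
      intro i
      unfold pd
      rw [hT, par_fderiv hH1' hHc]
      refine integral_congr_ae (ae_of_all _ fun a => ?_)
      simp only
      have hg1 : HasFDerivAt (fun x : (P → ℝ) × (Q → ℝ) => gau L.om g x.2)
          ((fderiv ℝ (gau L.om g) a).comp (ContinuousLinearMap.snd ℝ (P → ℝ) (Q → ℝ))) (C, a) := by
        have h4 : HasFDerivAt (gau L.om g) (fderiv ℝ (gau L.om g) a) ((C, a) : _ × _).2 :=
          (((contDiff_gau L.om g (n := 1)).differentiable one_ne_zero) a).hasFDerivAt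
        exact h4.comp (C, a) hasFDerivAt_snd
      have h5 := (((hF1'.differentiable one_ne_zero) (C, a)).hasFDerivAt.fun_mul hg1).fderiv
      have h6 : fderiv ℝ H (C, a) = fderiv ℝ (fun x => F x * gau L.om g x.2) (C, a) := rfl
      rw [h6, h5]
      simp
      ring
    unfold g2
    calc ∑ i, pd (L.T g f) i C ^ 2 ≤
          ∑ i, ∫ a : Q → ℝ, (fderiv ℝ F (C, a) (Pi.single i 1, 0)) ^ 2 := by
          refine Finset.sum_le_sum fun i _ => ?_
          rw [hpd]
          exact cs_gau L.om L.ompos g hg _ (hdc i) (hdcs i)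
      _ = ∫ a : Q → ℝ, gC F (C, a) := by
          unfold gC
          rw [integral_finsetSum]
          intro i _
          refine Continuous.integrable_of_hasCompactSupport ((hdc i).pow 2) ?_
          have : (fun a : Q → ℝ => (fderiv ℝ F (C, a) (Pi.single i 1, 0)) ^ 2) =
              fun a => fderiv ℝ F (C, a) (Pi.single i 1, 0) *
                fderiv ℝ F (C, a) (Pi.single i 1, 0) := by funext a; ring
          rw [this]
          exact (hdcs i).mul_left
      _ = _ := rfl
  · have hsqi : Integrable (fun x : (P → ℝ) × (Q → ℝ) => f x ^ 2 * L.J x)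
        ((volume : Measure (P → ℝ)).prod (volume : Measure (Q → ℝ))) := by
      have h7 : Integrable (fun x : (P → ℝ) × (Q → ℝ) => f x ^ 2 * L.J x) := by
        refine Continuous.integrable_of_hasCompactSupport
          ((hf.continuous.pow 2).mul L.Jsm.continuous) ?_
        refine HasCompactSupport.mul_right ?_
        have : (fun x => f x ^ 2) = fun x => f x * f x := by funext a; ring
        rw [this]
        exact hc.mul_left
      exact h7
    have h8 : ∫ x : (P → ℝ) × (Q → ℝ), f x ^ 2 * L.J x =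
        ∫ C : P → ℝ, ∫ a : Q → ℝ, f (C, a) ^ 2 * L.J (C, a) := integral_prod _ hsqi
    rw [h8]
    refine integral_mono ?_ hsqi.integral_prod_left fun C => h3 C
    refine Continuous.integrable_of_hasCompactSupport (hTs.continuous.pow 2) ?_
    have : (fun C => L.T g f C ^ 2) = fun C => L.T g f C * L.T g f C := by funext a; ring
    rw [this]
    exact hTc.mul_left

end Pool.Agent.Q222.LU
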